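import Pool.Agent.H28.FF.StmB

/-!
# Virtual isomorphisms: the parts VI1, VIFG, NFG
-/

namespace Pool.Agent.H28.FF

theorem t_VI1 : S_VI1 := by
  intro Γ Λ _ _ hTF ⟨Γ₀, Λ₀, N, M, hN, hM, hΓ, hΛ, hNf, hMf, ⟨e⟩⟩
  have hNbot : N = ⊥ := by
    rw [Subgroup.eq_bot_iff_forall]
    intro x hx
    have h1 : (⟨x, hx⟩ : N) ^ Nat.card N = 1 := pow_card_eq_one'
    have h2 : (x : Γ) ^ Nat.card N = 1 := by
      have h3 : (((⟨x, hx⟩ : N) ^ Nat.card N : N) : Γ₀) = 1 := by rw [h1]; rfl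
      have h4 : (x : Γ₀) ^ Nat.card N = 1 := h3
      have h5 := congrArg (fun z : Γ₀ => (z : Γ)) h4
      exact h5
    have h3 := hTF x (Nat.card N) Nat.card_pos h2
    exact Subtype.ext h3
  subst hNbot
  let g : Λ₀ →* Γ₀ := (QuotientGroup.quotientBot : Γ₀ ⧸ (⊥ : Subgroup Γ₀) ≃* Γ₀).toMonoidHom.comp
    (e.symm.toMonoidHom.comp (QuotientGroup.mk' M))
  have hg : Function.Surjective g := by
    intro y
    obtain ⟨z, hz⟩ := (QuotientGroup.quotientBot : Γ₀ ⧸ (⊥ : Subgroup Γ₀) ≃* Γ₀).surjective y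
    obtain ⟨w, hw⟩ := e.symm.surjective z
    obtain ⟨l, hl⟩ := QuotientGroup.mk'_surjective M w
    refine ⟨l, ?_⟩
    show (QuotientGroup.quotientBot : Γ₀ ⧸ (⊥ : Subgroup Γ₀) ≃* Γ₀) (e.symm (QuotientGroup.mk' M l))
      = y
    rw [hl, hw, hz]
  have hgk : g.ker = M := by
    ext l
    rw [MonoidHom.mem_ker]
    show (QuotientGroup.quotientBot : Γ₀ ⧸ (⊥ : Subgroup Γ₀) ≃* Γ₀) (e.symm (QuotientGroup.mk' M l))
      = 1 ↔ _
    rw [EmbeddingLike.map_eq_one_iff, EmbeddingLike.map_eq_one_iff, QuotientGroup.mk'_apply,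
      QuotientGroup.eq_one_iff]
  refine ⟨Λ₀, Γ₀.subtype.comp g, hΛ, ?_, ?_⟩
  · have h1 : (Γ₀.subtype.comp g).ker = M := by
      rw [← hgk]
      ext l
      rw [MonoidHom.mem_ker, MonoidHom.mem_ker, MonoidHom.comp_apply]
      exact OneMemClass.coe_eq_one
    rw [h1]
    exact hMf
  · have h1 : (Γ₀.subtype.comp g).range = Γ₀ := by
      ext x
      constructor
      · rintro ⟨l, rfl⟩
        exact (g l).2
      · intro hx
        obtain ⟨l, hl⟩ := hg ⟨x, hx⟩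
        exact ⟨l, by rw [MonoidHom.comp_apply, hl]; rfl⟩
    rw [h1]
    exact hΓ

/-- a group with a finitely generated subgroup of finite index is finitely generated -/
theorem fg_of_sub {G : Type} [Group G] (H : Subgroup G) (hH : H.FiniteIndex) (h : Group.FG H) :
    Group.FG G := by
  rw [Group.fg_iff_subgroup_fg] at h
  rw [Group.fg_def]
  have hq : Finite (G ⧸ H) := Subgroup.finite_quotient_of_finiteIndex
  have hfin : (Set.range (Quotient.out : G ⧸ H → G)).Finite :=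
    @Set.finite_range _ _ _ hq
  have h2 : (Subgroup.closure (Set.range (Quotient.out : G ⧸ H → G))).FG :=
    (Subgroup.fg_iff _).2 ⟨_, rfl, hfin⟩
  have h3 : Subgroup.closure (Set.range (Quotient.out : G ⧸ H → G)) ⊔ H = ⊤ := by
    rw [eq_top_iff]
    intro g _
    have h4 : (Quotient.out (g : G ⧸ H))⁻¹ * g ∈ H := by
      rw [← QuotientGroup.eq]
      exact QuotientGroup.out_eq' _
    have h5 : g = Quotient.out (g : G ⧸ H) * ((Quotient.out (g : G ⧸ H))⁻¹ * g) := by group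
    rw [h5]
    exact Subgroup.mul_mem_sup (Subgroup.subset_closure ⟨_, rfl⟩) h4
  rw [← h3]
  exact h2.sup h

/-- extensions of finitely generated groups by finite groups -/
theorem fg_of_quot {G : Type} [Group G] (N : Subgroup G) [N.Normal] (hN : Finite N)
    (h : Group.FG (G ⧸ N)) : Group.FG G := by
  obtain ⟨S, hS, hSf⟩ := Group.fg_iff.1 h
  rw [Group.fg_def]
  have h1 : N.FG := by
    rw [← Group.fg_iff_subgroup_fg]
    infer_instance
  have h2 : (Subgroup.closure (Quotient.out '' S : Set G)).FG :=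
    (Subgroup.fg_iff _).2 ⟨_, rfl, hSf.image _⟩
  have h3 : Subgroup.closure (Quotient.out '' S : Set G) ⊔ N = ⊤ := by
    have h4 : (Subgroup.closure (Quotient.out '' S : Set G)).map (QuotientGroup.mk' N) = ⊤ := by
      rw [MonoidHom.map_closure, ← Set.image_comp]
      have h5 : (QuotientGroup.mk' N : G → G ⧸ N) ∘ (Quotient.out : G ⧸ N → G) = id := by
        funext x
        exact QuotientGroup.out_eq' x
      rw [h5, Set.image_id, hS]
    rw [eq_top_iff]
    intro g _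
    have h6 : (QuotientGroup.mk' N) g ∈
        (Subgroup.closure (Quotient.out '' S : Set G)).map (QuotientGroup.mk' N) := by
      rw [h4]; trivial
    obtain ⟨p, hp, hpg⟩ := h6
    have h7 : p⁻¹ * g ∈ N := QuotientGroup.eq.1 hpg
    have h8 : g = p * (p⁻¹ * g) := by group
    rw [h8]
    exact Subgroup.mul_mem_sup hp h7
  rw [← h3]
  exact h2.sup h1

theorem vifg_aux (Γ Λ : Type) [Group Γ] [Group Λ] (h : VirtuallyIsomorphic Γ Λ)
    (hΓ : Group.FG Γ) : Group.FG Λ := by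
  obtain ⟨Γ₀, Λ₀, N, M, hN, hM, hΓ₀, hΛ₀, hNf, hMf, ⟨e⟩⟩ := h
  have h1 : Group.FG Γ₀ := inferInstance
  have h2 : Group.FG (Γ₀ ⧸ N) := inferInstance
  have h3 : Group.FG (Λ₀ ⧸ M) := Group.fg_of_surjective (f := e.toMonoidHom) e.surjective
  exact fg_of_sub Λ₀ hΛ₀ (fg_of_quot M hMf h3)

theorem vi_symm (Γ Λ : Type) [Group Γ] [Group Λ] (h : VirtuallyIsomorphic Γ Λ) :
    VirtuallyIsomorphic Λ Γ := by
  obtain ⟨Γ₀, Λ₀, N, M, hN, hM, hΓ₀, hΛ₀, hNf, hMf, ⟨e⟩⟩ := h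
  exact ⟨Λ₀, Γ₀, M, N, hM, hN, hΛ₀, hΓ₀, hMf, hNf, ⟨e.symm⟩⟩

theorem t_VIFG : S_VIFG := fun Γ Λ _ _ h =>
  ⟨vifg_aux Γ Λ h, vifg_aux Λ Γ (vi_symm Γ Λ h)⟩

theorem t_NFG : S_NFG := by
  intro h
  have h1 : Group.FG MM := Group.fg_of_surjective
    (f := (SemidirectProduct.rightHom : GG →* MM)) SemidirectProduct.rightHom_surjective
  have h2 : Group.FG KA := Group.fg_of_surjective
    (f := (SemidirectProduct.rightHom : MM →* KA)) SemidirectProduct.rightHom_surjective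
  let w : KA →* Multiplicative (ℕ →₀ ℤ) :=
    { toFun := fun a => Multiplicative.ofAdd a.w
      map_one' := by rw [KA.one_w]; rfl
      map_mul' := fun a b => by rw [KA.mul_w]; rfl }
  have hw : Function.Surjective w := fun y => ⟨⟨0, Multiplicative.toAdd y⟩, rfl⟩
  have h3 : Group.FG (Multiplicative (ℕ →₀ ℤ)) := Group.fg_of_surjective hw
  have h4 : AddGroup.FG (ℕ →₀ ℤ) := AddGroup.fg_iff_mul_fg.2 h3
  have h5 : Module.Finite ℤ (ℕ →₀ ℤ) := Module.Finite.iff_addGroup_fg.2 h4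
  have h6 : Finite ℕ := Module.Finite.finite_basis (Finsupp.basisSingleOne (R := ℤ) (ι := ℕ))
  exact not_finite ℕ

end Pool.Agent.H28.FF
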