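import Mathlib

/-!
# Powers of free generators generate freely
-/

namespace Pool.Agent.H28.FF

open FreeGroup hiding map_one map_mul map_inv

theorem flat_chain {α β : Type} (c : β → α) (hc : Function.Injective c) (m : ℕ) (hm : 0 < m) :
    ∀ L : List (β × Bool), FreeGroup.IsReduced L →
      FreeGroup.IsReduced (L.flatMap (fun p => List.replicate m (c p.1, p.2))) := by
  intro L
  unfold FreeGroup.IsReduced
  induction L with
  | nil => intro _; simp
  | cons p L ih =>
    intro h
    rw [List.flatMap_cons, List.isChain_append]
    refine ⟨List.isChain_replicate_of_rel _ (fun _ => rfl), ih h.tail, ?_⟩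
    intro x hx y hy
    have hx' : x = (c p.1, p.2) := by
      rw [List.getLast?_replicate, if_neg (by omega)] at hx
      simpa using hx.symm
    cases L with
    | nil => simp at hy
    | cons q L =>
      rw [List.flatMap_cons, List.head?_append] at hy
      have hy' : y = (c q.1, q.2) := by
        rw [List.head?_replicate, if_neg (by omega)] at hy
        simpa using hy.symm
      rw [hx', hy']
      simp only
      intro h2
      exact (List.isChain_cons_cons.1 h).1 (hc h2)

theorem mk_pow_single {α : Type} (a : α × Bool) (m : ℕ) :
    (mk [a] : FreeGroup α) ^ m = mk (List.replicate m a) := by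
  induction m with
  | zero => simp [one_eq_mk]
  | succ m ih => rw [pow_succ', ih, mul_mk, List.replicate_succ]; rfl

theorem lift_pow_mk {α β : Type} (c : β → α) (m : ℕ) (L : List (β × Bool)) :
    FreeGroup.lift (fun i : β => (of (c i) : FreeGroup α) ^ m) (mk L) =
      mk (L.flatMap (fun p => List.replicate m (c p.1, p.2))) := by
  induction L with
  | nil => rw [List.flatMap_nil, ← one_eq_mk, ← one_eq_mk, map_one]
  | cons p L ih =>
    have h1 : (mk (p :: L) : FreeGroup β) = mk [p] * mk L := by rw [mul_mk]; rfl
    rw [h1, map_mul, ih, List.flatMap_cons, ← mul_mk]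
    congr 1
    rw [← mk_pow_single]
    obtain ⟨i, b⟩ := p
    cases b
    · have h2 : (mk [(i, false)] : FreeGroup β) = (of i)⁻¹ := by
        rw [of, inv_mk]; rfl
      have h3 : (mk [(c i, false)] : FreeGroup α) = (of (c i))⁻¹ := by
        rw [of, inv_mk]; rfl
      rw [h2, map_inv, FreeGroup.lift_apply_of]
      change ((of (c i) : FreeGroup α) ^ m)⁻¹ = (mk [(c i, false)]) ^ m
      rw [h3, inv_pow]
    · change FreeGroup.lift (fun i : β => (of (c i) : FreeGroup α) ^ m) (of i) = (of (c i)) ^ m
      rw [FreeGroup.lift_apply_of]

theorem free_pow {α β : Type} (c : β → α) (hc : Function.Injective c) (m : ℕ) (hm : 0 < m) :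
    Function.Injective (FreeGroup.lift (fun i : β => (of (c i) : FreeGroup α) ^ m)) := by
  classical
  rw [injective_iff_map_eq_one]
  intro x hx
  have h1 : x = mk x.toWord := (mk_toWord).symm
  rw [h1, lift_pow_mk] at hx
  have h2 := congrArg toWord hx
  rw [toWord_mk, (flat_chain c hc m hm x.toWord isReduced_toWord).reduce_eq, toWord_one] at h2
  rw [← toWord_eq_nil_iff]
  cases hw : x.toWord with
  | nil => rfl
  | cons p L =>
    rw [hw, List.flatMap_cons] at h2
    have h3 := congrArg List.length h2
    simp only [List.length_append, List.length_replicate, List.length_nil] at h3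
    omega

/-- the case of two generators -/
theorem free_pow_two {α : Type} (s t : α) (hst : s ≠ t) (m : ℕ) (hm : 0 < m) :
    Function.Injective (FreeGroup.lift (![(of s : FreeGroup α) ^ m, (of t) ^ m] : Fin 2 → FreeGroup α)) := by
  have h := free_pow (![s, t] : Fin 2 → α) (by
    intro i j hij
    fin_cases i <;> fin_cases j <;> simp_all) m hm
  have e : (fun i : Fin 2 => (of ((![s, t] : Fin 2 → α) i) : FreeGroup α) ^ m) =
      ![(of s : FreeGroup α) ^ m, (of t) ^ m] := by
    funext i
    fin_cases i <;> rfl
  rwa [e] at h

end Pool.Agent.H28.FF
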