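import Pool.Agent.H28.FF.StmB
import Pool.Agent.H28.FF.FPow

/-!
# The group `Γ` is not in class 1
-/

namespace Pool.Agent.H28.FF

open Classical in
/-- The group `Γ` is not in class 1. -/
theorem t_C1 : S_C1 := by
  intro hVI1 hIRR hNF hC1
  obtain ⟨ι, P, iP, K, hcount, hME, hsing, hVI⟩ := hC1
  obtain ⟨K₀, f, hK₀, hker, hrange⟩ := hVI1 GG K tf_GG hVI
  have hK₀i : K₀.index ≠ 0 := hK₀.index_ne_zero
  -- the embedding into the product
  set e : K₀ →* (∀ i, P i) := K.subtype.comp K₀.subtype with he
  have heinj : Function.Injective e := K.subtype_injective.comp K₀.subtype_injective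
  -- the inclusions of the factors
  set s : ∀ i, P i →* K := fun i =>
    (MonoidHom.mulSingle P i).codRestrict K (fun x => hsing i x) with hs
  have hs_coe : ∀ i (x : P i), ((s i x : K) : ∀ i, P i) = Pi.mulSingle i x := fun i x => rfl
  set U : ι → Subgroup K₀ := fun i => ⨅ j : {j : ι // j ≠ i}, ((Pi.evalMonoidHom P j).comp e).ker
    with hU
  set W : ι → Subgroup K₀ := fun i => ((Pi.evalMonoidHom P i).comp e).ker with hW
  have hmU : ∀ i k, k ∈ U i ↔ ∀ j, j ≠ i → e k j = 1 := by
    intro i k
    simp [hU, Subgroup.mem_iInf, MonoidHom.mem_ker]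
  have hmW : ∀ i k, k ∈ W i ↔ e k i = 1 := by
    intro i k
    simp [hW, MonoidHom.mem_ker]
  have hcomm : ∀ i, ∀ a ∈ U i, ∀ b ∈ W i, a * b = b * a := by
    intro i a ha b hb
    apply heinj
    rw [map_mul, map_mul]
    funext j
    rw [Pi.mul_apply, Pi.mul_apply]
    by_cases hj : j = i
    · subst hj
      rw [(hmW j b).1 hb, mul_one, one_mul]
    · rw [(hmU i a).1 ha j hj, mul_one, one_mul]
  -- lifting of the elements of the factors
  have hlift : ∀ i (x : P i), s i x ∈ K₀ → ∃ u ∈ U i, e u = Pi.mulSingle i x := by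
    intro i x hx
    refine ⟨⟨s i x, hx⟩, ?_, hs_coe i x⟩
    rw [hmU]
    intro j hj
    have : e ⟨s i x, hx⟩ = Pi.mulSingle i x := hs_coe i x
    rw [this]
    exact Pi.mulSingle_eq_of_ne hj x
  have hUW : ∀ i, (U i ⊔ W i).FiniteIndex := by
    intro i
    have h1 : (K₀.comap ((s i).comp ((Pi.evalMonoidHom P i).comp e))).FiniteIndex := by
      constructor
      rw [Subgroup.index_comap]
      intro h0
      exact hK₀i (Subgroup.relIndex_top_right K₀ ▸ Subgroup.relIndex_eq_zero_of_le_right le_top h0)
    refine Subgroup.finiteIndex_of_le (H := K₀.comap ((s i).comp ((Pi.evalMonoidHom P i).comp e))) ?_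
    intro k hk
    obtain ⟨u, hu, hue⟩ := hlift i (e k i) hk
    have h2 : u⁻¹ * k ∈ W i := by
      rw [hmW, map_mul, map_inv, hue]
      simp
    have h3 : k = u * (u⁻¹ * k) := by group
    rw [h3]
    exact mul_mem (Subgroup.mem_sup_left hu) (Subgroup.mem_sup_right h2)
  have hmapfin : ∀ H : Subgroup K₀, H.FiniteIndex → (H.map f).FiniteIndex := by
    intro H hH
    constructor
    rw [Subgroup.index_map]
    refine mul_ne_zero ?_ hrange.index_ne_zero
    have : (H ⊔ f.ker).FiniteIndex := Subgroup.finiteIndex_of_le le_sup_left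
    exact this.index_ne_zero
  have hirr : ∀ i, (U i).map f = ⊥ ∨ (W i).map f = ⊥ := by
    intro i
    refine hIRR _ _ ?_ ?_
    · rintro _ ⟨a, ha, rfl⟩ _ ⟨b, hb, rfl⟩
      rw [← map_mul, hcomm i a ha b hb, map_mul]
    · rw [← Subgroup.map_sup]
      exact hmapfin _ (hUW i)
  -- three elements
  set x : KA := ⟨Finsupp.single 0 1, 0⟩ with hx
  have hx1 : x ≠ 1 := by
    intro h
    have := congrArg (fun y : KA => y.v 0) h
    simp [hx] at this
  set α : GG := SemidirectProduct.inl (SemidirectProduct.inr x) with hα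
  have hα1 : α ≠ 1 := by
    intro h
    apply hx1
    have h1 : (SemidirectProduct.inr x : MM) = 1 := SemidirectProduct.inl_injective (by rw [← hα, h, map_one])
    exact SemidirectProduct.inr_injective (by rw [h1, map_one])
  by_cases hcase : ∃ i, (W i).map f = ⊥
  · obtain ⟨i, hi⟩ := hcase
    have hR : ((U i).map f).FiniteIndex := by
      have h1 := hmapfin _ (hUW i)
      rw [Subgroup.map_sup, hi, sup_bot_eq] at h1
      exact h1
    set R := (U i).map f with hRdef
    set m := R.index.factorial with hm
    have hm0 : 0 < m := Nat.factorial_pos _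
    have hpow : ∀ g : GG, g ^ m ∈ R := fun g =>
      R.pow_mem_of_index_ne_zero_of_dvd hR.index_ne_zero g (fun j hj hj' => Nat.dvd_factorial hj hj')
    set β : GG := SemidirectProduct.inr (SemidirectProduct.inl (FreeGroup.of 1)) with hβ
    set γ : GG := SemidirectProduct.inr (SemidirectProduct.inl (FreeGroup.of x)) with hγ
    have hab : ∀ n : FreeGroup KA, Commute α (SemidirectProduct.inr (SemidirectProduct.inl n) : GG) := by
      intro n
      have h1 : (SemidirectProduct.inr (SemidirectProduct.inl n) : GG) * α *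
          (SemidirectProduct.inr (SemidirectProduct.inl n) : GG)⁻¹ = α := by
        rw [hα, ← map_inv, ← SemidirectProduct.inl_aut]
        congr 1
        have h2 : (actM.comp pM) (SemidirectProduct.inl n : MM) = 1 := by
          rw [MonoidHom.comp_apply]
          have : pM (SemidirectProduct.inl n : MM) = 1 := by
            rw [pM, MonoidHom.comp_apply, SemidirectProduct.rightHom_inl, map_one]
          rw [this, map_one]
        rw [h2]; rfl
      have h3 := mul_inv_eq_iff_eq_mul.mp h1
      exact h3.symm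
    obtain ⟨al, hal, hfal⟩ := hpow α
    obtain ⟨be, hbe, hfbe⟩ := hpow β
    obtain ⟨ga, hga, hfga⟩ := hpow γ
    have hkerf : Finite f.ker := hker
    -- a power commutes
    have hcom : ∀ c : K₀, Commute (f al) (f c) → ∃ N : ℕ, 0 < N ∧ Commute (al ^ N) c := by
      intro c hc
      have h1 : ∀ j : ℕ, al ^ j * c * (al ^ j)⁻¹ * c⁻¹ ∈ f.ker := by
        intro j
        rw [MonoidHom.mem_ker, map_mul, map_mul, map_mul, map_inv, map_inv, map_pow]
        have h2 : Commute (f al ^ j) (f c) := hc.pow_left j
        rw [h2.eq]; group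
      obtain ⟨j, j', hjj', h2⟩ := Finite.exists_ne_map_eq_of_infinite
        (fun j : ℕ => (⟨al ^ j * c * (al ^ j)⁻¹ * c⁻¹, h1 j⟩ : f.ker))
      have h3 : al ^ j * c * (al ^ j)⁻¹ * c⁻¹ = al ^ j' * c * (al ^ j')⁻¹ * c⁻¹ := congrArg Subtype.val h2
      have h4 : al ^ j * c * (al ^ j)⁻¹ = al ^ j' * c * (al ^ j')⁻¹ := mul_right_cancel h3
      have key : ∀ p q : ℕ, p < q → al ^ p * c * (al ^ p)⁻¹ = al ^ q * c * (al ^ q)⁻¹ →
          ∃ N : ℕ, 0 < N ∧ Commute (al ^ N) c := by
        intro p q hpq h5
        refine ⟨q - p, by omega, ?_⟩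
        have h6 : al ^ q = al ^ p * al ^ (q - p) := by rw [← pow_add]; congr 1; omega
        rw [h6] at h5
        have h7 : c = al ^ (q - p) * c * (al ^ (q - p))⁻¹ := by
          have h8 : al ^ p * c * (al ^ p)⁻¹ = al ^ p * (al ^ (q - p) * c * (al ^ (q - p))⁻¹) * (al ^ p)⁻¹ := by
            rw [h5]; group
          exact mul_left_cancel (mul_right_cancel h8)
        have h9 : c * al ^ (q - p) = al ^ (q - p) * c := by
          conv_lhs => rw [h7]
          group
        exact h9.symm
      rcases lt_or_gt_of_ne hjj' with h5 | h5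
      · exact key j j' h5 h4
      · exact key j' j h5 h4.symm
    obtain ⟨N₁, hN₁, hc₁⟩ := hcom be (by rw [hfal, hfbe]; exact ((hab _).pow_left m).pow_right m)
    obtain ⟨N₂, hN₂, hc₂⟩ := hcom ga (by rw [hfal, hfga]; exact ((hab _).pow_left m).pow_right m)
    set a : K₀ := al ^ (N₁ * N₂) with ha
    have haU : a ∈ U i := pow_mem hal _
    have hab' : Commute a be := by rw [ha, pow_mul]; exact hc₁.pow_left _
    have hac' : Commute a ga := by rw [ha, mul_comm, pow_mul]; exact hc₂.pow_left _
    set pr : K₀ →* P i := (Pi.evalMonoidHom P i).comp e with hpr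
    have hprinj : ∀ k ∈ U i, pr k = 1 → k = 1 := by
      intro k hk h
      apply heinj
      rw [map_one]
      funext j
      by_cases hj : j = i
      · subst hj; exact h
      · exact (hmU i k).1 hk j hj
    obtain ⟨X, hX, hMEX⟩ := hME i
    have hPc := hcount i
    refine hNF (P i) X (pr a) (pr be) (pr ga) ?_ ?_ ?_ ?_ hMEX
    · intro n hn h
      rw [← map_pow] at h
      have h1 := hprinj _ (pow_mem haU n) h
      have h2 : f (a ^ n) = 1 := by rw [h1, map_one]
      rw [ha, ← pow_mul, map_pow, hfal, ← pow_mul] at h2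
      refine hα1 (tf_GG α _ ?_ h2)
      positivity
    · rw [← map_mul, hab'.eq, map_mul]
    · rw [← map_mul, hac'.eq, map_mul]
    · rw [injective_iff_map_eq_one]
      intro z hz
      set LC : FreeGroup (Fin 2) →* K₀ := FreeGroup.lift (![be, ga] : Fin 2 → K₀) with hLC
      have h1 : (FreeGroup.lift (![pr be, pr ga] : Fin 2 → P i)) = pr.comp LC := by
        apply FreeGroup.ext_hom
        intro j
        fin_cases j <;> simp [hLC]
      have h2 : ∀ z, LC z ∈ U i := by
        intro z
        have h3 : LC.range ≤ U i := by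
          rw [hLC]
          rw [FreeGroup.range_lift_eq_closure, Subgroup.closure_le]
          rintro _ ⟨j, rfl⟩
          fin_cases j
          · exact hbe
          · exact hga
        exact h3 ⟨z, rfl⟩
      rw [h1] at hz
      have h3 : LC z = 1 := hprinj _ (h2 z) hz
      have h4 : f.comp LC = ((SemidirectProduct.inr : MM →* GG).comp
          (SemidirectProduct.inl : FreeGroup KA →* MM)).comp
          (FreeGroup.lift (![(FreeGroup.of 1 : FreeGroup KA) ^ m, (FreeGroup.of x) ^ m] : Fin 2 → FreeGroup KA)) := by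
        apply FreeGroup.ext_hom
        intro j
        fin_cases j
        · simp [hLC, hfbe, hβ]
        · simp [hLC, hfga, hγ]
      have h5 : (f.comp LC) z = 1 := by rw [MonoidHom.comp_apply, h3, map_one]
      rw [h4] at h5
      have h6 := free_pow_two (1 : KA) x (fun h => hx1 h.symm) m hm0
      have h7 : (FreeGroup.lift (![(FreeGroup.of 1 : FreeGroup KA) ^ m, (FreeGroup.of x) ^ m] : Fin 2 → FreeGroup KA)) z = 1 := by
        apply SemidirectProduct.inl_injective (φ := lm KA)
        apply SemidirectProduct.inr_injective (φ := actM.comp pM)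
        rw [map_one, map_one]
        exact h5
      exact (injective_iff_map_eq_one _).1 h6 z h7
  · -- all factors are finite
    push Not at hcase
    have hUk : ∀ i, U i ≤ f.ker := by
      intro i
      rcases hirr i with h | h
      · rwa [Subgroup.map_eq_bot_iff] at h
      · exact absurd h (hcase i)
    have hf1 : ∀ k : K₀, f k = 1 := by
      intro k
      set d := K₀.index.factorial with hd
      have hd0 : 0 < d := Nat.factorial_pos _
      have hn0 : 0 < Nat.card f.ker := Nat.card_pos
      have h1 : ∀ i, (e k i) ^ (d * Nat.card f.ker) = 1 := by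
        intro i
        have h2 : s i (e k i) ^ d ∈ K₀ :=
          K₀.pow_mem_of_index_ne_zero_of_dvd hK₀i _ (fun j hj hj' => Nat.dvd_factorial hj hj')
        rw [← map_pow] at h2
        obtain ⟨u, hu, hue⟩ := hlift i _ h2
        have h3 : u ^ Nat.card f.ker = 1 := by
          have h4 : (⟨u, hUk i hu⟩ : f.ker) ^ Nat.card f.ker = 1 := pow_card_eq_one'
          exact congrArg Subtype.val h4
        have h5 : e (u ^ Nat.card f.ker) i = 1 := by rw [h3, map_one]; rfl
        rw [map_pow, hue, Pi.pow_apply, Pi.mulSingle_eq_same, ← pow_mul] at h5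
        exact h5
      have h2 : k ^ (d * Nat.card f.ker) = 1 := by
        apply heinj
        rw [map_one, map_pow]
        funext i
        exact h1 i
      refine tf_GG (f k) (d * Nat.card f.ker) (by positivity) ?_
      rw [← map_pow, h2, map_one]
    obtain ⟨n, hn, -, h1⟩ := Subgroup.exists_pow_mem_of_index_ne_zero hrange.index_ne_zero α
    obtain ⟨k, hk⟩ := h1
    rw [hf1 k] at hk
    exact hα1 (tf_GG α n hn hk.symm)

end Pool.Agent.H28.FF
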