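import Pool.Agent.H28.FF.StmB

/-!
# Exclusion of class 2
-/

set_option linter.unusedSectionVars false
set_option linter.style.haveILetI false

namespace Pool.Agent.H28.FF

open Topology Set

/-- Powers of elements of `A` are in `A`. -/
theorem left_pow {A : Type} [Group A] (g : Mg A) (h : g.left = 1) (n : ℕ) : (g ^ n).left = 1 := by
  have h2 : g = SemidirectProduct.inr g.right := by
    ext
    · simp [h]
    · simp
  have h3 : g ^ n = SemidirectProduct.inr (g.right ^ n) := by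
    rw [map_pow, ← h2]
  rw [h3]
  exact SemidirectProduct.left_inr _

/-- an element which commutes, up to powers, with the two conjugates is trivial -/
theorem kill {A : Type} [Group A] (hA : TF A) (s : Mg A) (y : A) (hy : y ≠ 1) (m k1 k2 : ℕ)
    (hm : 0 < m) (hk1 : 0 < k1) (hk2 : 0 < k2)
    (h1 : s ^ k1 * (SemidirectProduct.inr y * s ^ k1 * (SemidirectProduct.inr y)⁻¹) =
      (SemidirectProduct.inr y * s ^ k1 * (SemidirectProduct.inr y)⁻¹) * s ^ k1)
    (h2 : s ^ k2 * (((bb A) ^ m * SemidirectProduct.inr y * ((bb A) ^ m)⁻¹) * s ^ k2 *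
        ((bb A) ^ m * SemidirectProduct.inr y * ((bb A) ^ m)⁻¹)⁻¹) =
      (((bb A) ^ m * SemidirectProduct.inr y * ((bb A) ^ m)⁻¹) * s ^ k2 *
        ((bb A) ^ m * SemidirectProduct.inr y * ((bb A) ^ m)⁻¹)⁻¹) * s ^ k2) : s = 1 := by
  have h3 := mem_A hA _ y hy h1
  have h4 := mem_A_conj hA _ y hy m h2
  have h5 : (s ^ (k1 * k2)).left = 1 := by
    rw [pow_mul]; exact left_pow _ h3 k2
  have h6 : (((bb A) ^ m)⁻¹ * s ^ (k1 * k2) * (bb A) ^ m).left = 1 := by
    have h7 := left_pow _ h4 k1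
    have h8 : (((bb A) ^ m)⁻¹ * s ^ k2 * (bb A) ^ m) ^ k1 =
        ((bb A) ^ m)⁻¹ * s ^ (k1 * k2) * (bb A) ^ m := by
      have := conj_pow (i := k1) (a := ((bb A) ^ m)⁻¹) (b := s ^ k2)
      rw [inv_inv] at this
      rw [this, ← pow_mul, mul_comm k2 k1]
    rw [h8] at h7
    exact h7
  have h7 := bb_conj_left _ h5 m hm h6
  exact tf_mg hA s (k1 * k2) (Nat.mul_pos hk1 hk2) h7

/-- C2 -/
theorem t_C2 : S_C2 := by
  intro hVI1 hVIFG hNFG hCHAIN hLIE hLAT1 hLAT2 hcl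
  obtain ⟨G, _, _, _, _, _, Γ', Λ', hΓ', hΛ', hvi, hvi2⟩ := hcl
  obtain ⟨Γ₀, f, hfi, hker, hran⟩ := hVI1 GG Γ' tf_GG hvi
  obtain ⟨H, N, E, _, _, _, T, hHo, hNc, hNH, hpow, hT⟩ := hLIE G
  obtain ⟨hd, -⟩ := id hΓ'
  -- the inclusion of `Γ₀` into `G`
  set c : Γ₀ →* G := Γ'.subtype.comp Γ₀.subtype with hc
  have hcinj : Function.Injective c :=
    (Γ'.subtype_injective).comp Γ₀.subtype_injective
  have hcmem : ∀ x, c x ∈ Γ' := fun x => x.1.2
  set j1 : KA →* GG := (SemidirectProduct.inl : MM →* GG).comp SemidirectProduct.inr with hj1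
  set j2 : KA →* GG := (SemidirectProduct.inr : MM →* GG).comp SemidirectProduct.inr with hj2
  have hj1i : Function.Injective j1 :=
    SemidirectProduct.inl_injective.comp SemidirectProduct.inr_injective
  have hj2i : Function.Injective j2 :=
    SemidirectProduct.inr_injective.comp SemidirectProduct.inr_injective
  obtain ⟨r1, y1, hr1, hy1, hf1⟩ := hCHAIN Γ₀ GG f j1 E (T.comp c) hker hran hj1i
  obtain ⟨r2, y2, hr2, hy2, hf2⟩ := hCHAIN Γ₀ GG f j2 E (T.comp c) hker hran hj2i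
  obtain ⟨m, hm, B1, B2, hB1, hB2⟩ : ∃ m : ℕ, 0 < m ∧ ∃ B1 B2 : Γ₀,
      f B1 = SemidirectProduct.inl (bb KA ^ m) ∧ f B2 = SemidirectProduct.inr (bb KA ^ m) := by
    obtain ⟨n1, hn1, -, h1⟩ := Subgroup.exists_pow_mem_of_index_ne_zero hran.index_ne_zero
      (SemidirectProduct.inl (bb KA) : GG)
    obtain ⟨n2, hn2, -, h2⟩ := Subgroup.exists_pow_mem_of_index_ne_zero hran.index_ne_zero
      (SemidirectProduct.inr (bb KA) : GG)
    obtain ⟨b1, hb1⟩ := h1
    obtain ⟨b2, hb2⟩ := h2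
    refine ⟨n1 * n2, Nat.mul_pos hn1 hn2, b1 ^ n2, b2 ^ n1, ?_, ?_⟩
    · rw [map_pow, hb1, ← pow_mul, map_pow]
    · rw [map_pow, hb2, ← pow_mul, map_pow, mul_comm n2 n1]
  -- the sub-claim
  have hsub : ∀ (g : G) (γ : Γ₀), g⁻¹ * c γ * g ∈ H → ∀ r : Γ₀, T (c r) = 1 →
      ∃ k : ℕ, 0 < k ∧ (f γ) ^ k * (f r * (f γ) ^ k * (f r)⁻¹) =
        (f r * (f γ) ^ k * (f r)⁻¹) * (f γ) ^ k := by
    intro g γ hγ r hr
    obtain ⟨k, hk, hkH⟩ := hpow _ hγ (g⁻¹ * c r * g)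
    refine ⟨k, hk, ?_⟩
    set h1 : G := (g⁻¹ * c γ * g) ^ k with hh1
    have hh1e : h1 = g⁻¹ * c (γ ^ k) * g := by
      rw [hh1, map_pow]
      have := conj_pow (i := k) (a := g⁻¹) (b := c γ)
      rw [inv_inv] at this
      exact this
    have hh1H : h1 ∈ H := H.pow_mem hγ k
    have hTinv : ∀ x : G, T x * T x⁻¹ = 1 := fun x => by rw [← map_mul, mul_inv_cancel, map_one]
    have hTr' : T (g⁻¹ * c r * g) = 1 := by
      rw [map_mul, map_mul, hr, mul_one, ← map_mul, inv_mul_cancel, map_one]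
    have hTr'' : T (g⁻¹ * c r * g)⁻¹ = 1 := by
      have := hTinv (g⁻¹ * c r * g)
      rwa [hTr', one_mul] at this
    set r' : G := g⁻¹ * c r * g with hr'
    have hzH : r' * h1 * r'⁻¹ * h1⁻¹ ∈ H := H.mul_mem hkH (H.inv_mem hh1H)
    have hzT : T (r' * h1 * r'⁻¹ * h1⁻¹) = 1 := by
      rw [map_mul, map_mul, map_mul, hTr', hTr'', one_mul, mul_one]
      exact hTinv h1
    have hzN := hT _ hzH hzT h1 hh1H
    -- the double commutator
    set w : Γ₀ := (r * γ ^ k * r⁻¹ * (γ ^ k)⁻¹) * γ ^ k * (r * γ ^ k * r⁻¹ * (γ ^ k)⁻¹)⁻¹ *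
      (γ ^ k)⁻¹ with hw
    have hwN : g⁻¹ * c w * g ∈ N := by
      have : g⁻¹ * c w * g = r' * h1 * r'⁻¹ * h1⁻¹ * h1 * (r' * h1 * r'⁻¹ * h1⁻¹)⁻¹ * h1⁻¹ := by
        rw [hh1e, hr', hw]
        simp only [map_mul, map_inv]
        group
      rw [this]
      exact hzN
    have hfin : {x : G | x ∈ Γ' ∧ g⁻¹ * x * g ∈ N}.Finite := by
      have hcl : IsClosed (Γ' : Set G) := Subgroup.isClosed_of_discrete
      have hcc : IsCompact ((fun x : G => g * x * g⁻¹) '' (N : Set G)) := hNc.image (by fun_prop)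
      have h1' : IsCompact ((Γ' : Set G) ∩ ((fun x : G => g * x * g⁻¹) '' (N : Set G))) :=
        hcc.inter_left hcl
      have h2' : IsDiscrete ((Γ' : Set G) ∩ ((fun x : G => g * x * g⁻¹) '' (N : Set G))) := by
        have : IsDiscrete (Γ' : Set G) := ⟨hd⟩
        exact this.mono inter_subset_left
      apply (h1'.finite h2').subset
      rintro x ⟨hx, hx'⟩
      exact ⟨hx, _, hx', by group⟩
    have hwfin : IsOfFinOrder (c w) := by
      rw [← finite_powers]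
      apply hfin.subset
      rintro _ ⟨n, rfl⟩
      refine ⟨?_, ?_⟩
      · exact Γ'.pow_mem (hcmem w) n
      · have h3 := N.pow_mem hwN n
        have h4 := conj_pow (i := n) (a := g⁻¹) (b := c w)
        rw [inv_inv] at h4
        rw [h4] at h3
        exact h3
    obtain ⟨n, hn, hwn⟩ := isOfFinOrder_iff_pow_eq_one.1 hwfin
    have hw1 : w ^ n = 1 := hcinj (by rw [map_pow, hwn, map_one])
    have hfw : f w = 1 := tf_GG _ n hn (by rw [← map_pow, hw1, map_one])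
    rw [hw] at hfw
    simp only [map_mul, map_inv, map_pow] at hfw
    set x : GG := f γ ^ k with hx
    set ρ : GG := f r with hρ
    have h5 : (ρ * x * ρ⁻¹ * x⁻¹) * x = x * (ρ * x * ρ⁻¹ * x⁻¹) := by
      rw [mul_inv_eq_one, mul_inv_eq_iff_eq_mul] at hfw
      exact hfw
    have h6 : ρ * x * ρ⁻¹ = x * (ρ * x * ρ⁻¹) * x⁻¹ := by
      calc ρ * x * ρ⁻¹ = (ρ * x * ρ⁻¹ * x⁻¹) * x := by group
        _ = x * (ρ * x * ρ⁻¹ * x⁻¹) := h5
        _ = x * (ρ * x * ρ⁻¹) * x⁻¹ := by group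
    rw [eq_mul_inv_iff_mul_eq] at h6
    exact h6.symm
  -- the claim
  have hclaim : ∀ (g : G) (γ : Γ₀), g⁻¹ * c γ * g ∈ H → f γ = 1 := by
    intro g γ hγ
    have hT2 : T (c (B2 * r2 * B2⁻¹)) = 1 := by
      have h3 : T (c r2) = 1 := hr2
      rw [map_mul, map_mul, map_mul, map_mul, h3, mul_one, ← map_mul, ← map_mul, mul_inv_cancel,
        map_one, map_one]
    have hT1 : T (c (B1 * r1 * B1⁻¹)) = 1 := by
      have h3 : T (c r1) = 1 := hr1
      rw [map_mul, map_mul, map_mul, map_mul, h3, mul_one, ← map_mul, ← map_mul, mul_inv_cancel,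
        map_one, map_one]
    have hright : (f γ).right = 1 := by
      obtain ⟨k1, hk1, he1⟩ := hsub g γ hγ r2 hr2
      obtain ⟨k2, hk2, he2⟩ := hsub g γ hγ _ hT2
      have he1' := congrArg SemidirectProduct.rightHom he1
      have he2' := congrArg SemidirectProduct.rightHom he2
      simp only [map_mul, map_pow, map_inv, hf2, hB2, hj2, MonoidHom.comp_apply,
        SemidirectProduct.rightHom_inr] at he1' he2'
      exact kill KA.tf _ y2 hy2 m k1 k2 hm hk1 hk2 he1' he2'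
    have hinl : f γ = SemidirectProduct.inl (f γ).left := by
      ext : 1
      · simp
      · simp [hright]
    have hleft : (f γ).left = 1 := by
      obtain ⟨k1, hk1, he1⟩ := hsub g γ hγ r1 hr1
      obtain ⟨k2, hk2, he2⟩ := hsub g γ hγ _ hT1
      rw [hinl] at he1 he2
      simp only [map_mul, map_inv, hf1, hB1, hj1, MonoidHom.comp_apply] at he1 he2
      simp only [← map_mul, ← map_inv, ← map_pow] at he1 he2
      exact kill KA.tf _ y1 hy1 m k1 k2 hm hk1 hk2 (SemidirectProduct.inl_injective he1)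
        (SemidirectProduct.inl_injective he2)
    rw [hinl, hleft, map_one]
  -- the bound
  haveI := hker
  haveI : Finite (Γ' ⧸ Γ₀) := Subgroup.finite_quotient_of_finiteIndex
  have hinjS : ∀ g : G, ∃ F : {γ : G | γ ∈ Γ' ∧ g⁻¹ * γ * g ∈ H} → (Γ' ⧸ Γ₀) × f.ker,
      Function.Injective F := by
    intro g
    set S : Set G := {γ : G | γ ∈ Γ' ∧ g⁻¹ * γ * g ∈ H} with hS
    let q : S → Γ' ⧸ Γ₀ := fun s => ((⟨s.1, s.2.1⟩ : Γ') : Γ' ⧸ Γ₀)
    -- a representative of the class of `s` in `S`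
    have hrep : ∀ z : Γ' ⧸ Γ₀, ∃ t : S, (∃ s : S, q s = z) → q t = z := by
      intro z
      by_cases h : ∃ s : S, q s = z
      · obtain ⟨s, hs⟩ := h
        exact ⟨s, fun _ => hs⟩
      · refine ⟨⟨1, Γ'.one_mem, ?_⟩, fun h' => absurd h' h⟩
        simpa using H.one_mem
    choose t ht using hrep
    have hmem : ∀ s : S, (⟨(t (q s)).1, (t (q s)).2.1⟩ : Γ')⁻¹ * ⟨s.1, s.2.1⟩ ∈ Γ₀ := fun s =>
      QuotientGroup.eq.1 (ht (q s) ⟨s, rfl⟩)
    refine ⟨fun s => (q s, ⟨⟨_, hmem s⟩, ?_⟩), ?_⟩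
    · rw [MonoidHom.mem_ker]
      apply hclaim g
      have h3 := H.mul_mem (H.inv_mem (t (q s)).2.2) s.2.2
      have h4 : (g⁻¹ * (t (q s)).1 * g)⁻¹ * (g⁻¹ * s.1 * g) =
          g⁻¹ * ((t (q s)).1⁻¹ * s.1) * g := by group
      rw [h4] at h3
      exact h3
    · intro s s' hss
      simp only [Prod.mk.injEq, Subtype.mk.injEq] at hss
      obtain ⟨h3, h4⟩ := hss
      rw [h3] at h4
      have h5 := mul_left_cancel h4
      exact Subtype.ext (congrArg (fun x : Γ' => (x : G)) h5)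
  have hHc : IsCompact (H : Set G) := by
    apply hLAT1 G Γ' H hΓ' hHo
    obtain ⟨F, hF⟩ := hinjS 1
    have := Finite.of_injective F hF
    have h3 : {γ : G | γ ∈ Γ' ∧ (1 : G)⁻¹ * γ * 1 ∈ H}.Finite := this
    simpa using h3
  have hcard : ∀ g : G, {γ : G | γ ∈ Γ' ∧ g⁻¹ * γ * g ∈ H}.ncard ≤
      Nat.card ((Γ' ⧸ Γ₀) × f.ker) := by
    intro g
    obtain ⟨F, hF⟩ := hinjS g
    rw [← Nat.card_coe_set_eq]
    exact Nat.card_le_card_of_injective F hF
  have hΛfg : Λ'.FG := by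
    rw [← Group.fg_iff_subgroup_fg]
    exact (hVIFG (F2 × F2) Λ' hvi2).1 inferInstance
  have hfg := hLAT2 G Γ' Λ' H _ hΓ' hΛ' hΛfg hHo hHc hcard
  rw [← Group.fg_iff_subgroup_fg] at hfg
  exact hNFG ((hVIFG GG Γ' hvi).2 hfg)

end Pool.Agent.H28.FF
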