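import Pool.Agent.H28.FF.StmB

/-!
# The part CHAIN
-/

namespace Pool.Agent.H28.FF

namespace KA

/-- the element `x_i` -/
noncomputable def xx (i : ℕ) : KA := ⟨Finsupp.single i 1, 0⟩

/-- the element `u_i` -/
noncomputable def uu (i : ℕ) : KA := ⟨0, Finsupp.single i 1⟩

/-- the elements `u_i⁻¹ u_j` -/
noncomputable def vv (i j : ℕ) : KA := (uu i)⁻¹ * uu j

theorem sg_zero (n : ℕ) : sg (0 : ℕ →₀ ℤ) n = 1 := by simp [sg]

theorem sg_single (i n : ℕ) : sg (Finsupp.single i 1) n = if i = n then -1 else 1 := by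
  unfold sg
  rw [Finsupp.single_apply]
  split_ifs <;> simp

theorem uu_conj_self (i : ℕ) : uu i * xx i * (uu i)⁻¹ = (xx i)⁻¹ := by
  ext n
  · simp only [mul_v, mul_w, inv_v, uu, xx, sg_single, sg_zero, Finsupp.coe_zero,
      Pi.zero_apply, Finsupp.single_apply]
    by_cases h : i = n <;> simp [h]
  · simp [uu, xx]

theorem uu_conj_ne (i j : ℕ) (h : i ≠ j) : uu i * xx j * (uu i)⁻¹ = xx j := by
  ext n
  · simp only [mul_v, mul_w, inv_v, uu, xx, sg_single, sg_zero, Finsupp.coe_zero,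
      Pi.zero_apply, Finsupp.single_apply]
    by_cases h1 : j = n
    · have h2 : i ≠ n := by rw [← h1]; exact h
      simp [h1, h2]
    · simp [h1]
  · simp [uu, xx]

theorem uu_inv_conj_self (i : ℕ) : (uu i)⁻¹ * xx i * uu i = (xx i)⁻¹ := by
  have h1 : ((uu i)⁻¹ * (uu i * xx i * (uu i)⁻¹) * uu i)⁻¹ = ((uu i)⁻¹ * (xx i)⁻¹ * uu i)⁻¹ := by
    rw [uu_conj_self i]
  rw [show ((uu i)⁻¹ * (uu i * xx i * (uu i)⁻¹) * uu i)⁻¹ = (xx i)⁻¹ by group,
    show ((uu i)⁻¹ * (xx i)⁻¹ * uu i)⁻¹ = (uu i)⁻¹ * xx i * uu i by group] at h1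
  exact h1.symm

theorem uu_inv_conj_ne (i j : ℕ) (h : i ≠ j) : (uu i)⁻¹ * xx j * uu i = xx j := by
  have h1 : (uu i)⁻¹ * (uu i * xx j * (uu i)⁻¹) * uu i = (uu i)⁻¹ * xx j * uu i := by
    rw [uu_conj_ne i j h]
  rw [show (uu i)⁻¹ * (uu i * xx j * (uu i)⁻¹) * uu i = xx j by group] at h1
  exact h1.symm

theorem vv_conj_self (i j : ℕ) (h : i ≠ j) : vv i j * xx i * (vv i j)⁻¹ = (xx i)⁻¹ := by
  unfold vv
  rw [show (uu i)⁻¹ * uu j * xx i * ((uu i)⁻¹ * uu j)⁻¹ =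
    (uu i)⁻¹ * (uu j * xx i * (uu j)⁻¹) * uu i by group, uu_conj_ne j i h.symm,
    uu_inv_conj_self]

theorem vv_conj_ne (i j k : ℕ) (h : i ≠ k) (h' : j ≠ k) : vv i j * xx k * (vv i j)⁻¹ = xx k := by
  unfold vv
  rw [show (uu i)⁻¹ * uu j * xx k * ((uu i)⁻¹ * uu j)⁻¹ =
    (uu i)⁻¹ * (uu j * xx k * (uu j)⁻¹) * uu i by group, uu_conj_ne j k h',
    uu_inv_conj_ne i k h]

theorem xx_ne (i : ℕ) : xx i ≠ 1 := by
  intro h
  have h1 := congrArg (fun z : KA => z.v i) h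
  simp [xx] at h1

end KA

theorem t_CHAIN : S_CHAIN := by
  intro C D _ _ f j E _ _ _ T hker hran hj
  classical
  -- the centralizer of the kernel
  let c : C →* MulAut f.ker := MulAut.conjNormal
  have hc : ∀ a : C, a ∈ c.ker → ∀ z : C, z ∈ f.ker → a * z = z * a := by
    intro a ha z hz
    have h1 : c a ⟨z, hz⟩ = ⟨z, hz⟩ := by
      rw [MonoidHom.mem_ker] at ha
      rw [ha]
      rfl
    have h2 : a * z * a⁻¹ = z := by
      have h3 := congrArg (fun w : f.ker => (w : C)) h1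
      simpa [c] using h3
    exact mul_inv_eq_iff_eq_mul.1 h2
  have hfinaut : Finite (MulAut f.ker) :=
    Finite.of_injective (fun e : MulAut f.ker => (e : f.ker → f.ker)) DFunLike.coe_injective
  have hC1 : c.ker.FiniteIndex := Subgroup.finiteIndex_ker c
  let F : Subgroup D := c.ker.map f
  have hF : F.index ≠ 0 := by
    have h1 : F.index = (c.ker ⊔ f.ker).index * f.range.index := Subgroup.index_map _ _
    rw [h1]
    refine mul_ne_zero ?_ hran.index_ne_zero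
    have h2 : (c.ker ⊔ f.ker).FiniteIndex := Subgroup.finiteIndex_of_le le_sup_left
    exact h2.index_ne_zero
  have hFf : F.FiniteIndex := ⟨hF⟩
  -- powers
  obtain ⟨m, hm, hmF⟩ : ∃ m : ℕ, 0 < m ∧ ∀ a : D, a ^ m ∈ F := by
    refine ⟨F.index.factorial, Nat.factorial_pos _, fun a => ?_⟩
    exact Subgroup.pow_mem_of_index_ne_zero_of_dvd hF a
      fun n hn1 hn2 => Nat.dvd_factorial hn1 hn2
  obtain ⟨k, hk⟩ : ∃ k : ℕ, k = Nat.card f.ker := ⟨_, rfl⟩
  have hkpos : 0 < k := by rw [hk]; exact Nat.card_pos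
  have hkpow : ∀ z ∈ f.ker, z ^ k = 1 := by
    intro z hz
    have h1 : (⟨z, hz⟩ : f.ker) ^ Nat.card f.ker = 1 := pow_card_eq_one'
    rw [hk]
    exact congrArg (fun w : f.ker => (w : C)) h1
  -- pigeonhole
  have hq : Finite (D ⧸ F) := Subgroup.finite_quotient_of_finiteIndex
  obtain ⟨y0, hy0⟩ := Finite.exists_infinite_fiber (fun i : ℕ => ((j (KA.uu i) : D) : D ⧸ F))
  obtain ⟨ε⟩ : Nonempty (ℕ ↪ ((fun i : ℕ => ((j (KA.uu i) : D) : D ⧸ F)) ⁻¹' {y0} : Set ℕ)) :=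
    ⟨Infinite.natEmbedding _⟩
  obtain ⟨s, hs⟩ : ∃ s : ℕ → ℕ, ∀ l, s l = ((ε l : _) : ℕ) := ⟨_, fun _ => rfl⟩
  have hsinj : ∀ a b, a ≠ b → s a ≠ s b := by
    intro a b hab h
    rw [hs, hs] at h
    exact hab (ε.injective (Subtype.ext h))
  have hsF : ∀ a b, j (KA.vv (s a) (s b)) ∈ F := by
    intro a b
    have h1 : ((j (KA.uu (s a)) : D) : D ⧸ F) = y0 := by
      rw [hs]; exact (ε a).2
    have h2 : ((j (KA.uu (s b)) : D) : D ⧸ F) = y0 := by
      rw [hs]; exact (ε b).2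
    have h3 := QuotientGroup.eq.1 (h1.trans h2.symm)
    unfold KA.vv
    rw [map_mul, map_inv]
    exact h3
  -- lifts
  have hV : ∀ l : ℕ, ∃ V ∈ c.ker, f V = j (KA.vv (s (2 * l)) (s (2 * l + 1))) := fun l => hsF _ _
  choose V hV1 hV2 using hV
  have hX : ∀ l : ℕ, ∃ X ∈ c.ker, f X = j (KA.xx (s (2 * l))) ^ m := fun l => hmF _
  choose X hX1 hX2 using hX
  have hcomm : ∀ l l' : ℕ, l ≠ l' → V l * X l' ^ k = X l' ^ k * V l := by
    intro l l' hll
    obtain ⟨z, hz⟩ : ∃ z, z = V l * X l' * (V l)⁻¹ * (X l')⁻¹ := ⟨_, rfl⟩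
    have hzk : z ∈ f.ker := by
      rw [MonoidHom.mem_ker, hz, map_mul, map_mul, map_mul, map_inv, map_inv, hV2, hX2,
        ← map_inv, ← map_pow, ← map_inv, ← map_mul, ← map_mul, ← map_mul, ← map_one j]
      congr 1
      have h1 := KA.vv_conj_ne (s (2 * l)) (s (2 * l + 1)) (s (2 * l'))
        (hsinj _ _ (by omega)) (hsinj _ _ (by omega))
      have h2 : KA.vv (s (2 * l)) (s (2 * l + 1)) * KA.xx (s (2 * l')) ^ m *
          (KA.vv (s (2 * l)) (s (2 * l + 1)))⁻¹ = KA.xx (s (2 * l')) ^ m := by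
        rw [← conj_pow, h1]
      rw [h2, mul_inv_cancel]
    have h3 : V l * X l' * (V l)⁻¹ = z * X l' := by rw [hz]; group
    have h4 : V l * X l' ^ k * (V l)⁻¹ = X l' ^ k := by
      rw [← conj_pow, h3]
      have h5 : Commute z (X l') := (hc _ (hX1 l') z hzk).symm
      rw [h5.mul_pow, hkpow z hzk, one_mul]
    exact mul_inv_eq_iff_eq_mul.1 h4
  -- the chain of commutants
  let Cn : ℕ → Submodule ℝ (Module.End ℝ E) := fun n =>
    { carrier := {e | ∀ l < n, e * T (V l) = T (V l) * e}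
      add_mem' := by
        intro a b ha hb l hl
        rw [add_mul, mul_add, ha l hl, hb l hl]
      zero_mem' := by
        intro l _
        rw [zero_mul, mul_zero]
      smul_mem' := by
        intro r a ha l hl
        rw [smul_mul_assoc, mul_smul_comm, ha l hl] }
  have hanti : ∀ a b : ℕ, a ≤ b → Cn b ≤ Cn a := by
    intro a b hab e he l hl
    exact he l (by omega)
  obtain ⟨n, hn⟩ := IsArtinian.monotone_stabilizes
    (⟨fun n => OrderDual.toDual (Cn n), fun a b hab => hanti a b hab⟩ :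
      ℕ →o (Submodule ℝ (Module.End ℝ E))ᵒᵈ)
  have hn' : Cn n = Cn (n + 1) := hn (n + 1) (by omega)
  have hmem : T (X n ^ k) ∈ Cn n := by
    intro l hl
    rw [← map_mul, ← map_mul]
    congr 1
    exact (hcomm l n (by omega)).symm
  rw [hn'] at hmem
  have hcn : T (X n ^ k) * T (V n) = T (V n) * T (X n ^ k) := hmem n (by omega)
  obtain ⟨r, hr⟩ : ∃ r, r = V n * X n ^ k * (V n)⁻¹ * (X n ^ k)⁻¹ := ⟨_, rfl⟩
  obtain ⟨v, hv⟩ : ∃ v, v = KA.vv (s (2 * n)) (s (2 * n + 1)) := ⟨_, rfl⟩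
  obtain ⟨x, hx⟩ : ∃ x, x = KA.xx (s (2 * n)) := ⟨_, rfl⟩
  refine ⟨r, v * x ^ (m * k) * v⁻¹ * (x ^ (m * k))⁻¹, ?_, ?_, ?_⟩
  · have h1 : r * (X n ^ k * V n) = V n * X n ^ k := by rw [hr]; group
    have h2 : T r * T (X n ^ k * V n) = T (X n ^ k * V n) := by
      rw [← map_mul, h1, map_mul, map_mul, hcn]
    have h3 : T (X n ^ k * V n) * T (X n ^ k * V n)⁻¹ = 1 := by
      rw [← map_mul, mul_inv_cancel, map_one]
    calc T r = T r * (T (X n ^ k * V n) * T (X n ^ k * V n)⁻¹) := by rw [h3, mul_one]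
      _ = 1 := by rw [← mul_assoc, h2, h3]
  · intro h
    have h1 : v * x ^ (m * k) * v⁻¹ = (x ^ (m * k))⁻¹ := by
      rw [← conj_pow, hv, hx, KA.vv_conj_self _ _ (hsinj _ _ (by omega)), inv_pow]
    rw [h1, ← mul_inv_rev, inv_eq_one, ← pow_add] at h
    have h2 := KA.tf x (m * k + m * k) (by positivity) h
    rw [hx] at h2
    exact KA.xx_ne _ h2
  · rw [hr, map_mul, map_mul, map_mul, map_inv, map_inv, map_pow, hV2, hX2, ← hv, ← hx,
      ← pow_mul, map_mul, map_mul, map_mul, map_inv, map_inv, map_pow]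

end Pool.Agent.H28.FF
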