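import Pool.Agent.H28.FF.Mg

/-!
# The group `Γ`
-/

namespace Pool.Agent.H28.FF

/-- twisting by signs -/
noncomputable def tw (e : ℕ → ℤˣ) (v : ℕ →₀ ℤ) : ℕ →₀ ℤ :=
  Finsupp.onFinset v.support (fun i => (e i : ℤ) * v i) (fun i h => by
    rw [Finsupp.mem_support_iff]; exact right_ne_zero_of_mul h)

@[simp] theorem tw_apply (e : ℕ → ℤˣ) (v : ℕ →₀ ℤ) (i : ℕ) : tw e v i = (e i : ℤ) * v i := rfl

/-- the signs -/
def sg (w : ℕ →₀ ℤ) (i : ℕ) : ℤˣ := (w i).negOnePow

/-- the restricted direct product of the groups `⟨x_i, u_i | u_i x_i u_i⁻¹ = x_i⁻¹⟩`, `i ∈ ℕ` -/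
@[ext] structure KA where
  /-- exponents of the `x_i` -/
  v : ℕ →₀ ℤ
  /-- exponents of the `u_i` -/
  w : ℕ →₀ ℤ

namespace KA

noncomputable instance : Mul KA := ⟨fun a b => ⟨a.v + tw (sg a.w) b.v, a.w + b.w⟩⟩
noncomputable instance : One KA := ⟨⟨0, 0⟩⟩
noncomputable instance : Inv KA := ⟨fun a => ⟨- tw (sg a.w) a.v, - a.w⟩⟩

@[simp] theorem mul_v (a b : KA) (i : ℕ) : (a * b).v i = a.v i + (sg a.w i : ℤ) * b.v i := rfl
@[simp] theorem mul_w (a b : KA) : (a * b).w = a.w + b.w := rfl
@[simp] theorem one_v : (1 : KA).v = 0 := rfl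
@[simp] theorem one_w : (1 : KA).w = 0 := rfl
@[simp] theorem inv_v (a : KA) (i : ℕ) : (a⁻¹).v i = - ((sg a.w i : ℤ) * a.v i) := rfl
@[simp] theorem inv_w (a : KA) : (a⁻¹).w = - a.w := rfl

theorem sg_add (w w' : ℕ →₀ ℤ) (i : ℕ) : sg (w + w') i = sg w i * sg w' i := by
  simp [sg, Int.negOnePow_add]

theorem sg_neg (w : ℕ →₀ ℤ) (i : ℕ) : sg (-w) i = sg w i := by
  simp [sg]

theorem sq_sg (w : ℕ →₀ ℤ) (i : ℕ) : (sg w i : ℤ) * (sg w i : ℤ) = 1 := by
  rw [← Units.val_mul, Int.units_mul_self]; rfl

noncomputable instance : Group KA := Group.ofLeftAxioms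
  (by
    intro a b c
    ext i
    · simp only [mul_v, mul_w, sg_add, Units.val_mul]; ring
    · simp only [mul_w, Finsupp.add_apply]; ring)
  (by
    intro a
    ext i
    · simp [sg]
    · simp)
  (by
    intro a
    ext i
    · simp only [mul_v, inv_v, inv_w, sg_neg, one_v, Finsupp.coe_zero, Pi.zero_apply]; ring
    · simp)

/-- `KA` as a set of pairs -/
def equivProd : KA ≃ (ℕ →₀ ℤ) × (ℕ →₀ ℤ) where
  toFun a := (a.v, a.w)
  invFun p := ⟨p.1, p.2⟩
  left_inv _ := rfl
  right_inv _ := rfl

instance : Countable KA := equivProd.injective.countable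

theorem pow_w (a : KA) (n : ℕ) : (a ^ n).w = n • a.w := by
  induction n with
  | zero => simp
  | succ n ih => rw [pow_succ, mul_w, ih, succ_nsmul]

theorem tf : TF KA := by
  intro a n hn h
  have hw : a.w = 0 := by
    have h1 := pow_w a n
    rw [h, one_w] at h1
    ext i
    have h2 := DFunLike.congr_fun h1.symm i
    simp at h2
    rcases h2 with h2 | h2
    · omega
    · simpa using h2
  have hv : ∀ m : ℕ, (a ^ m).v = m • a.v := by
    intro m
    induction m with
    | zero => simp
    | succ m ih =>
      rw [pow_succ']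
      ext i
      rw [mul_v, ih]
      simp [sg, hw]
      ring
  have h1 := hv n
  rw [h, one_v] at h1
  ext i
  · have h2 := DFunLike.congr_fun h1.symm i
    simp at h2
    rcases h2 with h2 | h2
    · omega
    · simpa using h2
  · simp [hw]

end KA

/-- the compact group `∏ ℤ/2` -/
abbrev PP : Type := Multiplicative (ℕ → ZMod 2)

/-- the sign of an element of `ℤ/2` -/
def sz (z : ZMod 2) : ℤˣ := if z = 0 then 1 else -1

theorem sz_add (a b : ZMod 2) : sz (a + b) = sz a * sz b := by
  revert a b; decide

/-- `P` acts on `A` -/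
noncomputable def actA : PP →* MulAut KA where
  toFun q :=
    { toFun := fun a => ⟨tw (fun i => sz (Multiplicative.toAdd q i)) a.v, a.w⟩
      invFun := fun a => ⟨tw (fun i => sz (Multiplicative.toAdd q i)) a.v, a.w⟩
      left_inv := fun a => by
        ext i
        · simp only [tw_apply, ← mul_assoc, ← Units.val_mul, Int.units_mul_self]; simp
        · rfl
      right_inv := fun a => by
        ext i
        · simp only [tw_apply, ← mul_assoc, ← Units.val_mul, Int.units_mul_self]; simp
        · rfl
      map_mul' := fun a b => by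
        ext i
        · simp only [tw_apply, KA.mul_v]; ring
        · rfl }
  map_one' := by
    ext a i
    · simp [sz]
    · rfl
  map_mul' q q' := by
    ext a i
    · simp only [toAdd_mul, Pi.add_apply, sz_add, MulEquiv.coe_mk, Equiv.coe_fn_mk, tw_apply,
        Units.val_mul, MulAut.mul_apply]; ring
    · rfl

theorem actA_v (q : PP) (a : KA) (i : ℕ) :
    (actA q a).v i = (sz (Multiplicative.toAdd q i) : ℤ) * a.v i := rfl

theorem actA_w (q : PP) (a : KA) : (actA q a).w = a.w := rfl

/-- the homomorphism `A → P` -/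
noncomputable def pA : KA →* PP where
  toFun a := Multiplicative.ofAdd (fun i => ((a.w i : ℤ) : ZMod 2))
  map_one' := by
    rw [← ofAdd_zero]; rfl
  map_mul' a b := by
    rw [← ofAdd_add]; congr 1; funext i; simp

/-- `M` -/
abbrev MM : Type := Mg KA

/-- isomorphisms of `Mg A` -/
noncomputable def mgMap {A : Type} [Group A] (f : A ≃* A) : Mg A →* Mg A :=
  SemidirectProduct.map (FreeGroup.map f) f.toMonoidHom (by
    intro a
    ext x
    simp [lm_apply])

theorem mgMap_left {A : Type} [Group A] (f : A ≃* A) (g : Mg A) :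
    (mgMap f g).left = FreeGroup.map f g.left := rfl

theorem mgMap_right {A : Type} [Group A] (f : A ≃* A) (g : Mg A) :
    (mgMap f g).right = f g.right := rfl

theorem mgMap_mul {A : Type} [Group A] (f f' : A ≃* A) (g : Mg A) :
    mgMap (f.trans f') g = mgMap f' (mgMap f g) := by
  ext
  · rw [mgMap_left, mgMap_left, mgMap_left, FreeGroup.map.comp]; rfl
  · rfl

theorem mgMap_refl {A : Type} [Group A] (g : Mg A) : mgMap (MulEquiv.refl A) g = g := by
  ext
  · rw [mgMap_left]; exact FreeGroup.map.id _
  · rfl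

/-- the action on `Mg A` of an automorphism of `A` -/
noncomputable def autMg (A : Type) [Group A] : MulAut A →* MulAut (Mg A) where
  toFun f :=
    { toFun := mgMap f
      invFun := mgMap f.symm
      left_inv := fun g => by
        rw [← mgMap_mul, MulEquiv.self_trans_symm, mgMap_refl]
      right_inv := fun g => by
        rw [← mgMap_mul, MulEquiv.symm_trans_self, mgMap_refl]
      map_mul' := map_mul _ }
  map_one' := by
    refine MulEquiv.ext fun g => ?_
    exact mgMap_refl g
  map_mul' f f' := by
    refine MulEquiv.ext fun g => ?_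
    exact mgMap_mul f' f g

/-- `P` acts on `M` -/
noncomputable def actM : PP →* MulAut MM := (autMg KA).comp actA

/-- `M → P` -/
noncomputable def pM : MM →* PP := pA.comp SemidirectProduct.rightHom

/-- the group `Γ = M ⋊ M` -/
abbrev GG : Type := MM ⋊[actM.comp pM] MM

theorem tf_MM : TF MM := tf_mg KA.tf

theorem tf_semi {N G : Type} [Group N] [Group G] (φ : G →* MulAut N) (hN : TF N) (hG : TF G) :
    TF (N ⋊[φ] G) := by
  intro g n hn h
  have h1 : g.right = 1 := by
    refine hG _ n hn ?_
    have := congrArg SemidirectProduct.rightHom h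
    rwa [map_pow, map_one] at this
  have h2 : g = SemidirectProduct.inl g.left := by
    ext
    · simp
    · simp [h1]
  rw [h2, ← map_pow] at h
  have h3 : g.left ^ n = 1 := SemidirectProduct.inl_injective (by rw [h, map_one])
  rw [h2, hN _ n hn h3, map_one]

theorem tf_GG : TF GG := tf_semi _ tf_MM tf_MM

instance {N G : Type} [Group N] [Group G] (φ : G →* MulAut N) [Countable N] [Countable G] :
    Countable (N ⋊[φ] G) := (SemidirectProduct.equivProd (φ := φ)).injective.countable

instance : Countable (FreeGroup KA) :=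
  (Quot.mk_surjective (r := _)).countable

instance : Countable MM := inferInstance
instance : Countable GG := inferInstance

end Pool.Agent.H28.FF
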