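import Pool.Agent.H28.FF.Stm

/-!
# The compact groups `ι → ZMod 2`
-/

namespace Pool.Agent.H28.FF

open MeasureTheory Measure Set

instance : BorelSpace (ZMod 2) := ⟨by
  rw [borel_eq_top_of_discrete]; rfl⟩

/-- the compact group `ι → ZMod 2` -/
abbrev CC (ι : Type) : Type := ι → ZMod 2

/-- its Haar measure -/
noncomputable def hm (ι : Type) [Countable ι] : Measure (CC ι) :=
  addHaarMeasure ⊤

instance (ι : Type) [Countable ι] : IsAddHaarMeasure (hm ι) := by
  unfold hm; infer_instance

instance (ι : Type) [Countable ι] : IsProbabilityMeasure (hm ι) := ⟨by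
  unfold hm; exact addHaarMeasure_self⟩

variable {ι : Type} [Countable ι]

theorem mp_add (c : CC ι) : MeasurePreserving (fun x : CC ι => x + c) (hm ι) (hm ι) :=
  measurePreserving_add_right _ c

theorem mp_perm (e : ι ≃ ι) : MeasurePreserving (fun x : CC ι => x ∘ e) (hm ι) (hm ι) := by
  let f : CC ι →+ CC ι :=
    { toFun := fun x => x ∘ e
      map_zero' := rfl
      map_add' := fun _ _ => rfl }
  have hc : Continuous f := by
    change Continuous (fun x : CC ι => x ∘ e)
    fun_prop
  have hs : Function.Surjective f := fun x => ⟨x ∘ e.symm, by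
    funext i; simp [f]⟩
  exact AddMonoidHom.measurePreserving hc hs rfl

/-- a measurable subgroup of infinite index has measure zero -/
theorem null_of_seq (S : AddSubgroup (CC ι)) (hS : MeasurableSet (S : Set (CC ι)))
    (c : ℕ → CC ι) (hc : ∀ m n, m ≠ n → c m - c n ∉ S) : hm ι (S : Set (CC ι)) = 0 := by
  by_contra hne
  have h1 : ∀ n, hm ι ((fun x => x - c n) ⁻¹' (S : Set (CC ι))) = hm ι (S : Set (CC ι)) := by
    intro n
    have := (mp_add (- c n)).measure_preimage hS.nullMeasurableSet
    simpa only [sub_eq_add_neg] using this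
  have h2 : ∀ n, MeasurableSet ((fun x => x - c n) ⁻¹' (S : Set (CC ι))) := fun n =>
    (measurable_id.sub_const _) hS
  have h3 : Pairwise (Function.onFun Disjoint fun n => ((fun x => x - c n) ⁻¹' (S : Set (CC ι)))) := by
    intro m n hmn
    refine disjoint_left.2 fun x hx hx' => ?_
    apply hc n m hmn.symm
    have := S.sub_mem hx hx'
    simpa using this
  have h4 := measure_iUnion (μ := hm ι) h3 h2
  simp only [h1] at h4
  rw [ENNReal.tsum_const_eq_top_of_ne_zero hne] at h4
  exact measure_ne_top _ _ h4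

theorem null_translate (S : Set (CC ι)) (c : CC ι) (h : hm ι S = 0) :
    hm ι {x | x + c ∈ S} = 0 := by
  exact (mp_add c).quasiMeasurePreserving.preimage_null h

/-- full group lemma -/
theorem mp_full (f : CC ι ≃ᵐ CC ι) (h : ∀ᵐ x ∂(hm ι), ∃ g : ι →₀ ZMod 2, f x = x + g) :
    MeasurePreserving f (hm ι) (hm ι) := by
  set D : (ι →₀ ZMod 2) → Set (CC ι) := fun g => {x | f x = x + g} with hD
  have hDm : ∀ g, MeasurableSet (D g) := fun g =>
    measurableSet_eq_fun f.measurable (measurable_id.add_const _)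
  have hDd : Pairwise (Function.onFun Disjoint D) := by
    intro g g' hne
    refine disjoint_left.2 fun x hx hx' => ?_
    apply hne
    have h1 : x + (g : CC ι) = x + (g' : CC ι) := hx.symm.trans hx'
    exact DFunLike.coe_injective (add_left_cancel h1)
  have hDu : hm ι (⋃ g, D g)ᶜ = 0 := by
    rw [ae_iff] at h
    refine measure_mono_null ?_ h
    intro x hx hx'
    apply hx
    obtain ⟨g, hg⟩ := hx'
    exact mem_iUnion.2 ⟨g, hg⟩
  have hfD : ∀ (g) (B : Set (CC ι)), D g ∩ f ⁻¹' B = (fun x => x + (g : CC ι)) ⁻¹' (f '' (D g) ∩ B) := by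
    intro g B
    ext x
    simp only [mem_inter_iff, mem_preimage, mem_image]
    constructor
    · rintro ⟨hx, hB⟩
      have hx' : f x = x + g := hx
      rw [← hx']
      exact ⟨⟨x, hx, rfl⟩, hB⟩
    · rintro ⟨⟨y, hy, hy'⟩, hB⟩
      have hy'' : f y = y + g := hy
      rw [hy''] at hy'
      have hxy : y = x := add_right_cancel hy'
      rw [hxy] at hy hy''
      exact ⟨hy, by rw [hy'']; exact hB⟩
  have hfm : ∀ g, MeasurableSet (f '' (D g)) := fun g => f.measurableSet_image.2 (hDm g)
  have hfd : Pairwise (Function.onFun Disjoint fun g => f '' (D g)) := by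
    intro g g' hne
    exact (disjoint_image_iff f.injective).2 (hDd hne)
  have key : ∀ B : Set (CC ι), MeasurableSet B →
      hm ι (f ⁻¹' B) = hm ι ((⋃ g, f '' (D g)) ∩ B) := by
    intro B hB
    have e1 : hm ι (f ⁻¹' B) = hm ι (⋃ g, (D g ∩ f ⁻¹' B)) := by
      rw [← iUnion_inter]
      refine (measure_inter_conull hDu).symm.trans ?_
      rw [inter_comm]
    have e2 : hm ι (⋃ g, (D g ∩ f ⁻¹' B)) = ∑' g, hm ι (D g ∩ f ⁻¹' B) := by
      refine measure_iUnion ?_ fun g => (hDm g).inter (f.measurable hB)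
      intro g g' hne
      exact (hDd hne).mono inter_subset_left inter_subset_left
    have e3 : hm ι ((⋃ g, f '' (D g)) ∩ B) = ∑' g, hm ι (f '' (D g) ∩ B) := by
      rw [iUnion_inter]
      refine measure_iUnion ?_ fun g => (hfm g).inter hB
      intro g g' hne
      exact (hfd hne).mono inter_subset_left inter_subset_left
    rw [e1, e2, e3]
    refine tsum_congr fun g => ?_
    rw [hfD]
    exact (mp_add _).measure_preimage ((hfm g).inter hB).nullMeasurableSet
  refine ⟨f.measurable, ?_⟩
  ext B hB
  rw [map_apply f.measurable hB, key B hB]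
  have h1 := key univ MeasurableSet.univ
  rw [preimage_univ, inter_univ] at h1
  have h2 : hm ι (⋃ g, f '' (D g))ᶜ = 0 := by
    rw [measure_compl (MeasurableSet.iUnion hfm) (measure_ne_top _ _), ← h1, tsub_self]
  rw [inter_comm]
  exact measure_inter_conull h2

/-- restriction of measure preserving maps to subtypes -/
theorem mp_restrict {Z : Type} [MeasurableSpace Z] {μ : Measure Z} {S : Set Z}
    (hS : MeasurableSet S) (f : Z → Z) (hf : MeasurePreserving f μ μ) (h : ∀ x, x ∈ S ↔ f x ∈ S) :
    MeasurePreserving (fun x : S => (⟨f x, (h x).1 x.2⟩ : S)) (μ.comap Subtype.val)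
      (μ.comap Subtype.val) := by
  have hm : Measurable (fun x : S => (⟨f x, (h x).1 x.2⟩ : S)) :=
    (hf.measurable.comp measurable_subtype_coe).subtype_mk
  refine ⟨hm, ?_⟩
  ext B hB
  rw [map_apply hm hB, comap_subtype_coe_apply hS, comap_subtype_coe_apply hS]
  have hB' : MeasurableSet (Subtype.val '' B : Set Z) := hS.subtype_image hB
  rw [← hf.measure_preimage hB'.nullMeasurableSet]
  congr 1
  ext x
  simp only [mem_image, mem_preimage, Subtype.exists, exists_and_right, exists_eq_right]
  constructor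
  · rintro ⟨h1, h2⟩
    exact ⟨(h x).1 h1, h2⟩
  · rintro ⟨h1, h2⟩
    exact ⟨(h x).2 h1, h2⟩

theorem prob_restrict {Z : Type} [MeasurableSpace Z] {μ : Measure Z} [IsProbabilityMeasure μ]
    {S : Set Z} (hS : MeasurableSet S) (h0 : μ Sᶜ = 0) :
    IsProbabilityMeasure (μ.comap (Subtype.val : S → Z)) := by
  refine ⟨?_⟩
  rw [comap_subtype_coe_apply hS, image_univ, Subtype.range_coe]
  have := prob_compl_eq_zero_iff hS |>.1 h0
  exact this

end Pool.Agent.H28.FF
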