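import Pool.Agent.H28.FF.StmB

/-!
# Irreducibility of `GG`
-/

namespace Pool.Agent.H28.FF

open FreeGroup hiding map_one map_mul map_inv

section mg

variable {A : Type} [Group A]

/-- an element commuting with a nontrivial element of `A` is in `A` -/
theorem left_of_comm (hA : TF A) (g : Mg A) (y : A) (hy : y ≠ 1)
    (h : g * SemidirectProduct.inr y = SemidirectProduct.inr y * g) : g.left = 1 := by
  refine mem_A hA g y hy ?_
  have h1 : SemidirectProduct.inr y * g * (SemidirectProduct.inr y)⁻¹ = g := by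
    rw [← h, mul_inv_cancel_right]
  rw [h1]

theorem eq_inr_of_left (g : Mg A) (h : g.left = 1) : g = SemidirectProduct.inr g.right := by
  refine SemidirectProduct.ext ?_ ?_
  · simp [h]
  · simp

/-- an element commuting with a nontrivial element of `b A b⁻¹` is in `b A b⁻¹` -/
theorem left_of_comm_conj (hA : TF A) (g : Mg A) (y : A) (hy : y ≠ 1)
    (h : g * (bb A * SemidirectProduct.inr y * (bb A)⁻¹) =
      (bb A * SemidirectProduct.inr y * (bb A)⁻¹) * g) : ((bb A)⁻¹ * g * bb A).left = 1 := by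
  refine left_of_comm hA _ y hy ?_
  calc (bb A)⁻¹ * g * bb A * SemidirectProduct.inr y
      = (bb A)⁻¹ * (g * (bb A * SemidirectProduct.inr y * (bb A)⁻¹)) * bb A := by group
    _ = (bb A)⁻¹ * ((bb A * SemidirectProduct.inr y * (bb A)⁻¹) * g) * bb A := by rw [h]
    _ = _ := by group

theorem eq_one_of_both (g : Mg A) (h1 : g.left = 1) (h2 : ((bb A)⁻¹ * g * bb A).left = 1) :
    g = 1 := by
  refine bb_conj_left g h1 1 one_pos ?_
  rwa [pow_one]

/-- irreducibility of `Mg A` -/
theorem irr_mg (hA : TF A) (x₀ : A) (hx₀ : x₀ ≠ 1) (Q₁ Q₂ : Subgroup (Mg A))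
    (hc : ∀ a ∈ Q₁, ∀ b ∈ Q₂, a * b = b * a)
    (hp : ∀ g : Mg A, ∃ m : ℕ, 0 < m ∧ ∃ a ∈ Q₁, ∃ b ∈ Q₂, g ^ m = a * b) :
    Q₁ = ⊥ ∨ Q₂ = ⊥ := by
  obtain ⟨m, hm, q₁, hq₁, q₂, hq₂, h1⟩ := hp (SemidirectProduct.inr x₀)
  obtain ⟨m', hm', r₁, hr₁, r₂, hr₂, h2⟩ := hp (bb A * SemidirectProduct.inr x₀ * (bb A)⁻¹)
  have hx1 : x₀ ^ m ≠ 1 := fun h => hx₀ (hA _ m hm h)
  have hx2 : x₀ ^ m' ≠ 1 := fun h => hx₀ (hA _ m' hm' h)
  rw [← map_pow] at h1
  rw [conj_pow, ← map_pow] at h2
  have c1 : q₁ * SemidirectProduct.inr (x₀ ^ m) = SemidirectProduct.inr (x₀ ^ m) * q₁ := by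
    rw [h1, mul_assoc, ← hc q₁ hq₁ q₂ hq₂]
  have c2 : q₂ * SemidirectProduct.inr (x₀ ^ m) = SemidirectProduct.inr (x₀ ^ m) * q₂ := by
    rw [h1, ← mul_assoc, ← hc q₁ hq₁ q₂ hq₂]
  have d1 : r₁ * (bb A * SemidirectProduct.inr (x₀ ^ m') * (bb A)⁻¹) =
      (bb A * SemidirectProduct.inr (x₀ ^ m') * (bb A)⁻¹) * r₁ := by
    rw [h2, mul_assoc, ← hc r₁ hr₁ r₂ hr₂]
  have d2 : r₂ * (bb A * SemidirectProduct.inr (x₀ ^ m') * (bb A)⁻¹) =
      (bb A * SemidirectProduct.inr (x₀ ^ m') * (bb A)⁻¹) * r₂ := by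
    rw [h2, ← mul_assoc, ← hc r₁ hr₁ r₂ hr₂]
  have e1 := left_of_comm hA _ _ hx1 c1
  have e2 := left_of_comm hA _ _ hx1 c2
  have f1 := left_of_comm_conj hA _ _ hx2 d1
  have f2 := left_of_comm_conj hA _ _ hx2 d2
  -- if `q ∈ A` is nontrivial then everything commuting with it is in `A`
  have key : ∀ q : Mg A, q.left = 1 → q ≠ 1 → ∀ g : Mg A, g * q = q * g → g.left = 1 := by
    intro q hq hne g hg
    rw [eq_inr_of_left q hq] at hg hne
    refine left_of_comm hA g q.right ?_ hg
    intro h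
    rw [h, map_one] at hne
    exact hne rfl
  have key' : ∀ q : Mg A, ((bb A)⁻¹ * q * bb A).left = 1 → q ≠ 1 → ∀ g : Mg A, g * q = q * g →
      ((bb A)⁻¹ * g * bb A).left = 1 := by
    intro q hq hne g hg
    refine key _ hq ?_ _ ?_
    · intro h
      apply hne
      calc q = bb A * ((bb A)⁻¹ * q * bb A) * (bb A)⁻¹ := by group
        _ = 1 := by rw [h]; group
    · calc (bb A)⁻¹ * g * bb A * ((bb A)⁻¹ * q * bb A) = (bb A)⁻¹ * (g * q) * bb A := by group
        _ = _ := by rw [hg]; group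
  by_cases hq : q₁ = 1
  · have hq2 : q₂ ≠ 1 := by
      rintro rfl
      rw [hq, one_mul] at h1
      exact hx1 (SemidirectProduct.inr_injective (h1.trans (map_one _).symm))
    left
    rw [Subgroup.eq_bot_iff_forall]
    intro g hg
    have g1 : g.left = 1 := key q₂ e2 hq2 g (hc g hg q₂ hq₂)
    by_cases hr : r₂ = 1
    · have hr1 : r₁ ≠ 1 := by
        rintro rfl
        rw [hr, one_mul, mul_inv_eq_one, mul_eq_left] at h2
        exact hx2 (SemidirectProduct.inr_injective (h2.trans (map_one _).symm))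
      exact absurd (eq_one_of_both r₁ (key q₂ e2 hq2 r₁ (hc r₁ hr₁ q₂ hq₂)) f1) hr1
    · exact eq_one_of_both g g1 (key' r₂ f2 hr g (hc g hg r₂ hr₂))
  · right
    rw [Subgroup.eq_bot_iff_forall]
    intro g hg
    have g1 : g.left = 1 := key q₁ e1 hq g (hc q₁ hq₁ g hg).symm
    by_cases hr : r₁ = 1
    · have hr1 : r₂ ≠ 1 := by
        rintro rfl
        rw [hr, one_mul, mul_inv_eq_one, mul_eq_left] at h2
        exact hx2 (SemidirectProduct.inr_injective (h2.trans (map_one _).symm))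
      exact absurd (eq_one_of_both r₂ (key q₁ e1 hq r₂ (hc q₁ hq₁ r₂ hr₂).symm) f2) hr1
    · exact eq_one_of_both g g1 (key' r₁ f1 hr g (hc r₁ hr₁ g hg).symm)

end mg

/-- the generators `x_i` -/
noncomputable def xg (i : ℕ) : KA := ⟨Finsupp.single i 1, 0⟩

/-- the generators `u_i` -/
noncomputable def ug (i : ℕ) : KA := ⟨0, Finsupp.single i 1⟩

theorem xg_ne (i : ℕ) : xg i ≠ 1 := by
  intro h
  have := congrArg KA.v h
  simp [xg] at this

theorem xg_pow (i m : ℕ) : xg i ^ m = ⟨Finsupp.single i (m : ℤ), 0⟩ := by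
  induction m with
  | zero => simp; rfl
  | succ m ih =>
    rw [pow_succ, ih]
    ext j
    · simp only [KA.mul_v, xg]
      have : sg 0 j = 1 := by simp [sg]
      rw [this]
      push_cast
      rw [Finsupp.single_add, Finsupp.add_apply]
      simp
    · simp [xg]

theorem actA_xg_same (q : PP) (i m : ℕ) (hq : Multiplicative.toAdd q i ≠ 0) :
    actA q (xg i ^ m) = (xg i ^ m)⁻¹ := by
  rw [xg_pow]
  ext j
  · rw [actA_v, KA.inv_v]
    have h1 : sz (Multiplicative.toAdd q i) = -1 := by unfold sz; rw [if_neg hq]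
    simp only
    have : sg 0 j = 1 := by simp [sg]
    rw [this]
    by_cases hij : i = j
    · subst hij
      rw [h1]; simp
    · rw [Finsupp.single_eq_of_ne (Ne.symm hij)]; simp
  · rw [actA_w, KA.inv_w]; simp

theorem actA_xg_other (q : PP) (i m : ℕ) (hq : Multiplicative.toAdd q i = 0) :
    actA q (xg i ^ m) = xg i ^ m := by
  rw [xg_pow]
  ext j
  · rw [actA_v]
    by_cases hij : i = j
    · subst hij
      rw [hq]; simp [sz]
    · simp only
      rw [Finsupp.single_eq_of_ne (Ne.symm hij)]; simp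
  · rw [actA_w]

theorem actM_inr (q : PP) (a : KA) : actM q (SemidirectProduct.inr a) = SemidirectProduct.inr (actA q a) := by
  change mgMap (actA q) (SemidirectProduct.inr a) = _
  refine SemidirectProduct.ext ?_ ?_
  · rw [mgMap_left]; simp
  · rw [mgMap_right]; simp

theorem actM_bb (q : PP) : actM q (bb KA) = bb KA := by
  change mgMap (actA q) (bb KA) = _
  unfold bb
  refine SemidirectProduct.ext ?_ ?_
  · rw [mgMap_left]; simp
  · rw [mgMap_right]; simp

/-- the case where `Q₂` is inside the left factor -/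
theorem irr_aux (Q₁ Q₂ : Subgroup GG) (hc : ∀ a ∈ Q₁, ∀ b ∈ Q₂, a * b = b * a)
    (hF : (Q₁ ⊔ Q₂).FiniteIndex) (hN : ∀ b ∈ Q₂, b.right = 1) : Q₁ = ⊥ ∨ Q₂ = ⊥ := by
  by_contra hne
  push Not at hne
  obtain ⟨hne1, hne2⟩ := hne
  have hsup : ∀ g ∈ Q₁ ⊔ Q₂, ∃ a ∈ Q₁, ∃ b ∈ Q₂, g = a * b := by
    intro g hg
    have hnc : Q₁ ≤ Subgroup.normalizer (Q₂ : Set GG) := by
      intro a ha
      rw [Subgroup.mem_normalizer_iff]
      intro b
      constructor
      · intro hb
        rw [hc a ha b hb, mul_inv_cancel_right]; exact hb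
      · intro hb
        have h1 := hc a ha _ hb
        have h2 : a * b * a⁻¹ = b := by
          have h3 : a * (a * b * a⁻¹) = a * b * a⁻¹ * a := h1
          have h4 : a * b * a⁻¹ * a = a * b := by group
          rw [h4] at h3
          exact mul_left_cancel h3
        rwa [h2] at hb
    rw [← SetLike.mem_coe, Subgroup.coe_mul_of_left_le_normalizer_right Q₁ Q₂ hnc] at hg
    obtain ⟨a, ha, b, hb, rfl⟩ := hg
    exact ⟨a, ha, b, hb, rfl⟩
  have hpow : ∀ g : GG, ∃ m : ℕ, 0 < m ∧ g ^ m ∈ Q₁ ⊔ Q₂ := by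
    intro g
    obtain ⟨m, h1, _, h2⟩ := Subgroup.exists_pow_mem_of_index_ne_zero hF.index_ne_zero g
    exact ⟨m, h1, h2⟩
  -- step 1: `Q₁ ∩ N = 1`
  have hQ1N : ∀ a ∈ Q₁, a.right = 1 → a = 1 := by
    let R₁ : Subgroup MM := Q₁.comap SemidirectProduct.inl
    let R₂ : Subgroup MM := Q₂.comap SemidirectProduct.inl
    have hR := irr_mg KA.tf (xg 0) (xg_ne 0) R₁ R₂ (by
      intro a ha b hb
      have := hc _ ha _ hb
      rw [← map_mul, ← map_mul] at this
      exact SemidirectProduct.inl_injective this) (by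
      intro g
      obtain ⟨m, hm, h1⟩ := hpow (SemidirectProduct.inl g)
      obtain ⟨a, ha, b, hb, hab⟩ := hsup _ h1
      refine ⟨m, hm, ?_⟩
      rw [← map_pow] at hab
      have hbr := hN b hb
      have har : a.right = 1 := by
        have := congrArg SemidirectProduct.right hab
        rw [SemidirectProduct.right_inl, SemidirectProduct.mul_right, hbr, mul_one] at this
        exact this.symm
      have ha' : a = SemidirectProduct.inl a.left := by
        refine SemidirectProduct.ext ?_ ?_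
        · simp
        · simp [har]
      have hb' : b = SemidirectProduct.inl b.left := by
        refine SemidirectProduct.ext ?_ ?_
        · simp
        · simp [hbr]
      refine ⟨a.left, ?_, b.left, ?_, ?_⟩
      · change SemidirectProduct.inl a.left ∈ Q₁
        rw [← ha']; exact ha
      · change SemidirectProduct.inl b.left ∈ Q₂
        rw [← hb']; exact hb
      · apply SemidirectProduct.inl_injective (φ := actM.comp pM)
        rw [hab, map_mul, ← ha', ← hb'])
    have hR2 : R₂ ≠ ⊥ := by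
      intro h
      apply hne2
      rw [Subgroup.eq_bot_iff_forall]
      intro b hb
      have hb' : b = SemidirectProduct.inl b.left := by
        refine SemidirectProduct.ext ?_ ?_
        · simp
        · simp [hN b hb]
      have h2 : b.left ∈ R₂ := by
        change SemidirectProduct.inl b.left ∈ Q₂
        rw [← hb']; exact hb
      rw [h, Subgroup.mem_bot] at h2
      rw [hb', h2, map_one]
    have hR1 : R₁ = ⊥ := hR.resolve_right hR2
    intro a ha har
    have ha' : a = SemidirectProduct.inl a.left := by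
      refine SemidirectProduct.ext ?_ ?_
      · simp
      · simp [har]
    have h2 : a.left ∈ R₁ := by
      change SemidirectProduct.inl a.left ∈ Q₁
      rw [← ha']; exact ha
    rw [hR1, Subgroup.mem_bot] at h2
    rw [ha', h2, map_one]
  -- step 2: powers of elements of `N` are in `Q₂`
  have hN2 : ∀ n : MM, ∃ m : ℕ, 0 < m ∧ (SemidirectProduct.inl (n ^ m) : GG) ∈ Q₂ := by
    intro n
    obtain ⟨m, hm, h1⟩ := hpow (SemidirectProduct.inl n)
    obtain ⟨a, ha, b, hb, hab⟩ := hsup _ h1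
    refine ⟨m, hm, ?_⟩
    rw [← map_pow] at hab
    have hbr := hN b hb
    have har : a.right = 1 := by
      have := congrArg SemidirectProduct.right hab
      rw [SemidirectProduct.right_inl, SemidirectProduct.mul_right, hbr, mul_one] at this
      exact this.symm
    rw [hab, hQ1N a ha har, one_mul]
    exact hb
  -- step 3: pigeonhole
  obtain ⟨i, j, hij, hmem⟩ : ∃ i j : ℕ, i ≠ j ∧
      (SemidirectProduct.inr (SemidirectProduct.inr ((ug i)⁻¹ * ug j)) : GG) ∈ Q₁ ⊔ Q₂ := by
    haveI : Finite (GG ⧸ (Q₁ ⊔ Q₂)) := Subgroup.finite_quotient_of_finiteIndex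
    obtain ⟨i, j, hij, h⟩ := Finite.exists_ne_map_eq_of_infinite
      (fun i : ℕ => (QuotientGroup.mk (SemidirectProduct.inr (SemidirectProduct.inr (ug i)) : GG) :
        GG ⧸ (Q₁ ⊔ Q₂)))
    refine ⟨i, j, hij, ?_⟩
    rw [QuotientGroup.eq] at h
    rw [map_mul, map_mul, map_inv, map_inv]
    exact h
  obtain ⟨a, ha, b, hb, hab⟩ := hsup _ hmem
  have har : a.right = SemidirectProduct.inr ((ug i)⁻¹ * ug j) := by
    have := congrArg SemidirectProduct.right hab
    rw [SemidirectProduct.right_inr, SemidirectProduct.mul_right, hN b hb, mul_one] at this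
    exact this.symm
  -- commutation
  set q : PP := pM a.right with hq
  have hqi : Multiplicative.toAdd q i ≠ 0 := by
    rw [hq, har]
    change (((((ug i)⁻¹ * ug j).w i : ℤ)) : ZMod 2) ≠ 0
    have : ((ug i)⁻¹ * ug j).w i = -1 := by
      simp [ug, Finsupp.single_eq_of_ne hij]
    rw [this]; decide
  obtain ⟨l, hli, hlj⟩ : ∃ l : ℕ, l ≠ i ∧ l ≠ j := ⟨i + j + 1, by omega, by omega⟩
  have hql : Multiplicative.toAdd q l = 0 := by
    rw [hq, har]
    change (((((ug i)⁻¹ * ug j).w l : ℤ)) : ZMod 2) = 0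
    have : ((ug i)⁻¹ * ug j).w l = 0 := by
      simp [ug, Finsupp.single_eq_of_ne hli, Finsupp.single_eq_of_ne hlj]
    rw [this]; rfl
  have hcomm : ∀ n : MM, (SemidirectProduct.inl n : GG) ∈ Q₂ → a.left * actM q n = n * a.left := by
    intro n hn
    have h1 := hc a ha _ hn
    have h2 := congrArg SemidirectProduct.left h1
    rw [SemidirectProduct.mul_left, SemidirectProduct.mul_left, SemidirectProduct.left_inl,
      SemidirectProduct.right_inl, map_one, MulAut.one_apply] at h2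
    exact h2
  obtain ⟨m1, hm1, h1⟩ := hN2 (SemidirectProduct.inr (xg l))
  obtain ⟨m2, hm2, h2⟩ := hN2 (bb KA * SemidirectProduct.inr (xg l) * (bb KA)⁻¹)
  obtain ⟨m3, hm3, h3⟩ := hN2 (SemidirectProduct.inr (xg i))
  rw [← map_pow] at h1 h3
  rw [conj_pow, ← map_pow] at h2
  have g1 := hcomm _ h1
  have g2 := hcomm _ h2
  have g3 := hcomm _ h3
  rw [actM_inr, actA_xg_other q l m1 hql] at g1
  rw [map_mul, map_mul, map_inv, actM_bb, actM_inr, actA_xg_other q l m2 hql] at g2
  rw [actM_inr, actA_xg_same q i m3 hqi] at g3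
  have hne : ∀ (l m : ℕ), 0 < m → xg l ^ m ≠ 1 := fun l m hm h => xg_ne l (KA.tf _ m hm h)
  have k1 := left_of_comm KA.tf a.left _ (hne l m1 hm1) g1
  have k2 := left_of_comm_conj KA.tf a.left _ (hne l m2 hm2) g2
  have k3 := eq_one_of_both a.left k1 k2
  rw [k3, one_mul, mul_one] at g3
  have g4 := SemidirectProduct.inr_injective g3
  have g5 : xg i ^ (m3 + m3) = 1 := by
    rw [pow_add]
    nth_rewrite 1 [← g4]
    rw [inv_mul_cancel]
  exact hne i (m3 + m3) (by omega) g5

theorem t_IRR : S_IRR := by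
  intro Q₁ Q₂ hc hF
  -- the projections
  let R₁ : Subgroup MM := Q₁.map SemidirectProduct.rightHom
  let R₂ : Subgroup MM := Q₂.map SemidirectProduct.rightHom
  have hR := irr_mg KA.tf (xg 0) (xg_ne 0) R₁ R₂ (by
    rintro _ ⟨a, ha, rfl⟩ _ ⟨b, hb, rfl⟩
    rw [← map_mul, hc a ha b hb, map_mul]) (by
    intro g
    obtain ⟨m, hm, _, h2⟩ := Subgroup.exists_pow_mem_of_index_ne_zero hF.index_ne_zero
      (SemidirectProduct.inr g : GG)
    refine ⟨m, hm, ?_⟩
    have h3 : g ^ m ∈ (Q₁ ⊔ Q₂).map (SemidirectProduct.rightHom : GG →* MM) := by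
      refine ⟨_, h2, ?_⟩
      rw [map_pow, SemidirectProduct.rightHom_inr]
    rw [Subgroup.map_sup] at h3
    have hnc : R₁ ≤ Subgroup.normalizer (R₂ : Set MM) := by
      have hc' : ∀ a ∈ R₁, ∀ b ∈ R₂, a * b = b * a := by
        rintro _ ⟨a, ha, rfl⟩ _ ⟨b, hb, rfl⟩
        rw [← map_mul, hc a ha b hb, map_mul]
      intro a ha
      rw [Subgroup.mem_normalizer_iff]
      intro b
      constructor
      · intro hb
        rw [hc' a ha b hb, mul_inv_cancel_right]; exact hb
      · intro hb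
        have h1 := hc' a ha _ hb
        have h2 : a * b * a⁻¹ = b := by
          have h3 : a * (a * b * a⁻¹) = a * b * a⁻¹ * a := h1
          have h4 : a * b * a⁻¹ * a = a * b := by group
          rw [h4] at h3
          exact mul_left_cancel h3
        rwa [h2] at hb
    rw [← SetLike.mem_coe, Subgroup.coe_mul_of_left_le_normalizer_right _ _ hnc] at h3
    obtain ⟨a, ha, b, hb, hab⟩ := h3
    exact ⟨a, ha, b, hb, hab.symm⟩)
  rcases hR with h | h
  · have hN : ∀ b ∈ Q₁, b.right = 1 := by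
      intro b hb
      have : SemidirectProduct.rightHom b ∈ R₁ := ⟨b, hb, rfl⟩
      rw [h, Subgroup.mem_bot] at this
      exact this
    rw [sup_comm] at hF
    exact (irr_aux Q₂ Q₁ (fun a ha b hb => (hc b hb a ha).symm) hF hN).symm
  · have hN : ∀ b ∈ Q₂, b.right = 1 := by
      intro b hb
      have : SemidirectProduct.rightHom b ∈ R₂ := ⟨b, hb, rfl⟩
      rw [h, Subgroup.mem_bot] at this
      exact this
    exact irr_aux Q₁ Q₂ hc hF hN

end Pool.Agent.H28.FF
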