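import Pool.Agent.H28.FF.Stm

/-!
# Lattices of locally compact groups (parts LAT1, LAT2)
-/

set_option linter.unusedSectionVars false
set_option linter.style.haveILetI false

namespace Pool.Agent.H28.FF

open MeasureTheory Topology Set
open scoped ENNReal Pointwise

section Lat

variable {G : Type} [Group G] [TopologicalSpace G] [IsTopologicalGroup G]

/-- The set `a K g`. -/
def cst (K : Subgroup G) (a g : G) : Set G := {e | a⁻¹ * e * g⁻¹ ∈ K}

theorem cst_isOpen {K : Subgroup G} (hK : IsOpen (K : Set G)) (a g : G) : IsOpen (cst K a g) :=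
  hK.preimage (f := fun e : G => a⁻¹ * e * g⁻¹) (by fun_prop)

/-- The image of a set in `G ⧸ Γ`. -/
def pim (Γ : Subgroup G) (E : Set G) : Set (G ⧸ Γ) := (fun x : G => (x : G ⧸ Γ)) '' E

theorem pim_isOpen (Γ : Subgroup G) {E : Set G} (hE : IsOpen E) : IsOpen (pim Γ E) :=
  QuotientGroup.isOpenMap_coe E hE

theorem pim_smul (Γ K : Subgroup G) (b a g : G) :
    pim Γ (cst K (b * a) g) = (fun x : G ⧸ Γ => b⁻¹ • x) ⁻¹' (pim Γ (cst K a g)) := by
  ext y
  simp only [pim, cst, mem_image, mem_ofPred_eq, mem_preimage]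
  constructor
  · rintro ⟨e, he, rfl⟩
    refine ⟨b⁻¹ * e, ?_, rfl⟩
    have : a⁻¹ * (b⁻¹ * e) * g⁻¹ = (b * a)⁻¹ * e * g⁻¹ := by group
    rw [this]; exact he
  · rintro ⟨e, he, h⟩
    refine ⟨b * e, ?_, ?_⟩
    · have : (b * a)⁻¹ * (b * e) * g⁻¹ = a⁻¹ * e * g⁻¹ := by group
      rw [this]; exact he
    · have : ((b * e : G) : G ⧸ Γ) = b • ((e : G) : G ⧸ Γ) := rfl
      rw [this, h, smul_inv_smul]

variable (Γ : Subgroup G) [MeasurableSpace (G ⧸ Γ)] [BorelSpace (G ⧸ Γ)] (μ : Measure (G ⧸ Γ))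

/-- invariance -/
def Inv : Prop := ∀ (g : G) (s : Set (G ⧸ Γ)), MeasurableSet s →
    μ ((fun x : G ⧸ Γ => g • x) ⁻¹' s) = μ s

variable {Γ μ}

/-- Nonempty open sets have positive measure. -/
theorem lat_pos [IsProbabilityMeasure μ] [μ.Regular] (hinv : Inv Γ μ) {U : Set (G ⧸ Γ)}
    (hU : IsOpen U) (hne : U.Nonempty) : 0 < μ U := by
  rw [pos_iff_ne_zero]
  intro h0
  obtain ⟨y, hy⟩ := hne
  have key : ∀ K : Set (G ⧸ Γ), IsCompact K → μ K = 0 := by
    intro K hK
    apply hK.measure_zero_of_nhdsWithin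
    intro a _
    obtain ⟨g, hg⟩ : ∃ g : G, g • a = y := MulAction.exists_smul_eq G a y
    refine ⟨(fun x : G ⧸ Γ => g • x) ⁻¹' U, ?_, ?_⟩
    · apply mem_nhdsWithin_of_mem_nhds
      apply (hU.preimage (continuous_const_smul g)).mem_nhds
      simp [hg, hy]
    · rw [hinv g U hU.measurableSet, h0]
  have h1 : μ univ = 0 := by
    rw [isOpen_univ.measure_eq_iSup_isCompact μ]
    simp only [ENNReal.iSup_eq_zero]
    intro K _ hK
    exact key K hK
  simp at h1

theorem lat_fin [T2Space G] {Γ : Subgroup G} (hd : DiscreteTopology Γ) {C : Set G}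
    (hC : IsCompact C) : {γ : G | γ ∈ Γ ∧ γ ∈ C}.Finite := by
  have hcl : IsClosed (Γ : Set G) := Subgroup.isClosed_of_discrete
  have h1 : IsCompact ((Γ : Set G) ∩ C) := hC.inter_left hcl
  have h2 : IsDiscrete ((Γ : Set G) ∩ C) := by
    have : IsDiscrete (Γ : Set G) := ⟨hd⟩
    exact this.mono inter_subset_left
  exact h1.finite h2

end Lat

/-- LAT1 -/
theorem t_LAT1 : S_LAT1 := by
  intro G _ _ _ _ _ Γ H hΓ hH hfin
  obtain ⟨hd, μ, h1, h2, hinv⟩ := hΓ
  letI : MeasurableSpace (G ⧸ Γ) := borel _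
  haveI : BorelSpace (G ⧸ Γ) := ⟨rfl⟩
  haveI := h1
  haveI := h2
  have hinv : Inv Γ μ := hinv
  by_contra hnc
  -- a compact neighbourhood in `H`
  obtain ⟨V, hVc, hV1, hVH⟩ : ∃ V : Set G, IsCompact V ∧ V ∈ 𝓝 (1 : G) ∧ V ⊆ (H : Set G) := by
    obtain ⟨V, hV, hVH, hVc⟩ := local_compact_nhds (hH.mem_nhds H.one_mem)
    exact ⟨V, hVc, hV, hVH⟩
  have h1V : (1 : G) ∈ V := mem_of_mem_nhds hV1
  have hHc : IsClosed (H : Set G) := Subgroup.isClosed_of_isOpen H hH
  set Φ : Set G := {g : G | g ∈ Γ ∧ g ∈ H} with hΦ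
  have h1Φ : (1 : G) ∈ Φ := ⟨Γ.one_mem, H.one_mem⟩
  -- the translates
  let A : G → Set (G ⧸ Γ) := fun s => pim Γ ((fun v => s * v) '' interior V)
  have hAo : ∀ s, IsOpen (A s) := fun s => pim_isOpen Γ (isOpenMap_mul_left s _ isOpen_interior)
  have hAmu : ∀ s, μ (A s) = μ (A 1) := by
    intro s
    have : A s = (fun x : G ⧸ Γ => s⁻¹ • x) ⁻¹' (A 1) := by
      ext y
      simp only [A, pim, mem_image, mem_preimage, exists_exists_and_eq_and, one_mul]
      constructor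
      · rintro ⟨v, hv, rfl⟩
        refine ⟨v, hv, ?_⟩
        have : ((s * v : G) : G ⧸ Γ) = s • ((v : G) : G ⧸ Γ) := rfl
        rw [this, inv_smul_smul]
      · rintro ⟨v, hv, h⟩
        refine ⟨v, hv, ?_⟩
        have : ((s * v : G) : G ⧸ Γ) = s • ((v : G) : G ⧸ Γ) := rfl
        rw [this, h, smul_inv_smul]
    rw [this, hinv _ _ (hAo 1).measurableSet]
  have hpos : 0 < μ (A 1) := by
    apply lat_pos hinv (hAo 1)
    exact ⟨_, _, ⟨1, mem_interior_iff_mem_nhds.2 hV1, rfl⟩, rfl⟩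
  have hbig : ∀ n : ℕ, ∃ S : Finset G, S.card = n ∧ (↑S ⊆ (H : Set G)) ∧
      (S : Set G).PairwiseDisjoint A := by
    intro n
    induction n with
    | zero => exact ⟨∅, by simp⟩
    | succ n ih =>
      obtain ⟨S, hSn, hSH, hSd⟩ := ih
      set C : Set G := ⋃ s ∈ S, ({s} * V * Φ * V⁻¹) with hC
      have hCc : IsCompact C := by
        apply S.finite_toSet.isCompact_biUnion
        intro s _
        exact ((isCompact_singleton.mul hVc).mul hfin.isCompact).mul hVc.inv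
      obtain ⟨h, hhH, hhC⟩ : ∃ h ∈ (H : Set G), h ∉ C := by
        by_contra hcon
        push Not at hcon
        exact hnc (hCc.of_isClosed_subset hHc hcon)
      classical
      have hdis : ∀ s ∈ S, Disjoint (A h) (A s) := by
        intro s hs
        rw [Set.disjoint_left]
        rintro y ⟨_, ⟨v, hv, rfl⟩, rfl⟩ ⟨_, ⟨w, hw, rfl⟩, hy⟩
        apply hhC
        rw [hC]
        simp only [mem_iUnion]
        refine ⟨s, hs, ?_⟩
        have hv' := hVH (interior_subset hv)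
        have hw' := hVH (interior_subset hw)
        have hg : (s * w)⁻¹ * (h * v) ∈ Γ := QuotientGroup.eq.1 hy
        have hg' : (s * w)⁻¹ * (h * v) ∈ H :=
          H.mul_mem (H.inv_mem (H.mul_mem (hSH hs) hw')) (H.mul_mem hhH hv')
        refine ⟨s * w * ((s * w)⁻¹ * (h * v)), ⟨s * w, ⟨s, rfl, w, interior_subset hw, rfl⟩, _,
          ⟨hg, hg'⟩, rfl⟩, v⁻¹, by simpa using interior_subset hv, ?_⟩
        simp only
        group
      have hhS : h ∉ S := by
        intro hh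
        have h3 := hdis h hh
        rw [disjoint_self] at h3
        have h4 : (A h).Nonempty := ⟨_, _, ⟨1, mem_interior_iff_mem_nhds.2 hV1, rfl⟩, rfl⟩
        rw [h3] at h4
        exact Set.not_nonempty_empty h4
      refine ⟨insert h S, by rw [Finset.card_insert_of_notMem hhS, hSn], ?_, ?_⟩
      · rw [Finset.coe_insert]
        exact insert_subset hhH hSH
      · rw [Finset.coe_insert]
        apply hSd.insert
        intro s hs _
        exact hdis s hs
  obtain ⟨n, hn⟩ := ENNReal.exists_nat_mul_gt hpos.ne' (ENNReal.one_ne_top)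
  obtain ⟨S, hSn, _, hSd⟩ := hbig n
  have h5 : μ (⋃ s ∈ S, A s) = ∑ s ∈ S, μ (A s) :=
    measure_biUnion_finset hSd (fun s _ => (hAo s).measurableSet)
  rw [Finset.sum_congr rfl (fun s _ => hAmu s), Finset.sum_const, hSn, nsmul_eq_mul] at h5
  have h6 : μ (⋃ s ∈ S, A s) ≤ 1 := prob_le_one
  rw [h5] at h6
  exact absurd h6 (not_le.2 hn)


section Lat2

variable {G : Type} [Group G] [TopologicalSpace G] [IsTopologicalGroup G]

/-- The counting function of a set of `G` over `G ⧸ Γ`. -/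
noncomputable def cnt (Γ : Subgroup G) (E : Set G) (y : G ⧸ Γ) : ℝ≥0∞ :=
  @Measure.count G ⊤ (E ∩ {e | (e : G ⧸ Γ) = y})

/-- The number of elements of `K ∩ g Γ g⁻¹`. -/
noncomputable def stb (Γ K : Subgroup G) (g : G) : ℝ≥0∞ :=
  @Measure.count G ⊤ {k | k ∈ K ∧ g⁻¹ * k * g ∈ Γ}

/-- The measure of the open set `K g`. -/
noncomputable def psi (Γ : Subgroup G) [MeasurableSpace (G ⧸ Γ)] (μ : Measure (G ⧸ Γ))
    (K : Subgroup G) (g : G) : ℝ≥0∞ := stb Γ K g * μ (pim Γ (cst K 1 g))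

theorem cnt_cst (Γ K : Subgroup G) (a g : G) :
    cnt Γ (cst K a g) = (pim Γ (cst K a g)).indicator (fun _ => stb Γ K g) := by
  letI : MeasurableSpace G := ⊤
  haveI : MeasurableSingletonClass G := ⟨fun _ => trivial⟩
  ext y
  by_cases hy : y ∈ pim Γ (cst K a g)
  · rw [indicator_of_mem hy]
    obtain ⟨e, he, rfl⟩ := hy
    have he' : a⁻¹ * e * g⁻¹ ∈ K := he
    have : cst K a g ∩ {e' : G | (e' : G ⧸ Γ) = (e : G ⧸ Γ)} =
        (fun k => e * g⁻¹ * k * g) '' {k | k ∈ K ∧ g⁻¹ * k * g ∈ Γ} := by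
      ext z
      simp only [mem_inter_iff, mem_ofPred_eq, mem_image]
      constructor
      · rintro ⟨hz, hz'⟩
        have hz1 : a⁻¹ * z * g⁻¹ ∈ K := hz
        refine ⟨g * e⁻¹ * z * g⁻¹, ⟨?_, ?_⟩, by group⟩
        · have : g * e⁻¹ * z * g⁻¹ = (a⁻¹ * e * g⁻¹)⁻¹ * (a⁻¹ * z * g⁻¹) := by group
          rw [this]; exact K.mul_mem (K.inv_mem he') hz1
        · have : g⁻¹ * (g * e⁻¹ * z * g⁻¹) * g = e⁻¹ * z := by group
          rw [this]; exact QuotientGroup.eq.1 hz'.symm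
      · rintro ⟨k, ⟨hk, hk'⟩, rfl⟩
        constructor
        · have : a⁻¹ * (e * g⁻¹ * k * g) * g⁻¹ = (a⁻¹ * e * g⁻¹) * k := by group
          change a⁻¹ * (e * g⁻¹ * k * g) * g⁻¹ ∈ K
          rw [this]; exact K.mul_mem he' hk
        · symm
          apply QuotientGroup.eq.2
          have : e⁻¹ * (e * g⁻¹ * k * g) = g⁻¹ * k * g := by group
          rw [this]; exact hk'
    rw [cnt, this, Measure.count_injective_image _ _]
    · rfl
    · intro k k' h
      simpa using h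
  · rw [indicator_of_notMem hy, cnt]
    have : cst K a g ∩ {e' : G | (e' : G ⧸ Γ) = y} = ∅ := by
      ext z
      simp only [mem_inter_iff, mem_ofPred_eq, mem_empty_iff_false, iff_false, not_and]
      intro hz hz'
      exact hy ⟨z, hz, hz'⟩
    rw [this, measure_empty]

theorem psi_index {Γ : Subgroup G} [MeasurableSpace (G ⧸ Γ)] [BorelSpace (G ⧸ Γ)]
    {μ : Measure (G ⧸ Γ)} (hinv : Inv Γ μ) (K V : Subgroup G) (hVK : V ≤ K)
    (hV : IsOpen (V : Set G)) (hK : IsOpen (K : Set G)) [Finite (K ⧸ V.subgroupOf K)] (g : G) :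
    psi Γ μ K g = Nat.card (K ⧸ V.subgroupOf K) * psi Γ μ V g := by
  letI : MeasurableSpace G := ⊤
  haveI : MeasurableSingletonClass G := ⟨fun _ => trivial⟩
  haveI := Fintype.ofFinite (K ⧸ V.subgroupOf K)
  have h1 : psi Γ μ K g = ∫⁻ y, cnt Γ (cst K 1 g) y ∂μ := by
    rw [cnt_cst, lintegral_indicator_const (pim_isOpen Γ (cst_isOpen hK 1 g)).measurableSet]
    rfl
  have h2 : ∀ y, cnt Γ (cst K 1 g) y =
      ∑ q : K ⧸ V.subgroupOf K, cnt Γ (cst V ((Quotient.out q : K) : G) g) y := by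
    intro y
    simp only [cnt]
    have : cst K 1 g ∩ {e : G | (e : G ⧸ Γ) = y} = ⋃ q : K ⧸ V.subgroupOf K,
        (cst V ((Quotient.out q : K) : G) g ∩ {e : G | (e : G ⧸ Γ) = y}) := by
      rw [← iUnion_inter]
      congr 1
      ext e
      simp only [cst, mem_ofPred_eq, mem_iUnion]
      constructor
      · intro he
        refine ⟨((⟨1⁻¹ * e * g⁻¹, he⟩ : K) : K ⧸ V.subgroupOf K), ?_⟩
        have h3 := QuotientGroup.eq.1 (Quotient.out_eq
          (((⟨1⁻¹ * e * g⁻¹, he⟩ : K) : K ⧸ V.subgroupOf K)))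
        rw [Subgroup.mem_subgroupOf] at h3
        simpa [mul_assoc] using h3
      · rintro ⟨q, hq⟩
        have h4 := hVK hq
        have h5 := K.mul_mem (Quotient.out q : K).2 h4
        simpa [mul_assoc] using h5
    rw [this, measure_iUnion, tsum_fintype]
    · intro q q' hqq'
      rw [Function.onFun, Set.disjoint_left]
      rintro e ⟨he, -⟩ ⟨he', -⟩
      apply hqq'
      have he1 : ((Quotient.out q : K) : G)⁻¹ * e * g⁻¹ ∈ V := he
      have he2 : ((Quotient.out q' : K) : G)⁻¹ * e * g⁻¹ ∈ V := he'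
      rw [← Quotient.out_eq q, ← Quotient.out_eq q']
      apply QuotientGroup.eq.2
      rw [Subgroup.mem_subgroupOf]
      have h6 := V.mul_mem he1 (V.inv_mem he2)
      have h7 : ((Quotient.out q : K) : G)⁻¹ * e * g⁻¹ * (((Quotient.out q' : K) : G)⁻¹ * e * g⁻¹)⁻¹
        = ((Quotient.out q : K) : G)⁻¹ * ((Quotient.out q' : K) : G) := by group
      rw [h7] at h6
      simpa using h6
    · intro q; trivial
  have h3 : ∀ a, ∫⁻ y, cnt Γ (cst V a g) y ∂μ = psi Γ μ V g := by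
    intro a
    rw [cnt_cst, lintegral_indicator_const (pim_isOpen Γ (cst_isOpen hV a g)).measurableSet, psi]
    congr 1
    have := pim_smul Γ V a 1 g
    rw [mul_one] at this
    rw [this, hinv _ _ (pim_isOpen Γ (cst_isOpen hV 1 g)).measurableSet]
  rw [h1, lintegral_congr h2, lintegral_finsetSum, Finset.sum_congr rfl (fun q _ => h3 _),
    Finset.sum_const, nsmul_eq_mul, Finset.card_univ, Nat.card_eq_fintype_card]
  intro q _
  rw [cnt_cst]
  exact measurable_const.indicator (pim_isOpen Γ (cst_isOpen hV _ g)).measurableSet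

/-- The conjugate `x⁻¹ H x`. -/
def cnj (H : Subgroup G) (x : G) : Subgroup G := H.comap (MulAut.conj x).toMonoidHom

theorem mem_cnj {H : Subgroup G} {x k : G} : k ∈ cnj H x ↔ x * k * x⁻¹ ∈ H := Iff.rfl

theorem psi_cnj {Γ : Subgroup G} [MeasurableSpace (G ⧸ Γ)] [BorelSpace (G ⧸ Γ)]
    {μ : Measure (G ⧸ Γ)} (hinv : Inv Γ μ) (H : Subgroup G) (hH : IsOpen (H : Set G)) (x g : G) :
    psi Γ μ H (x * g) = psi Γ μ (cnj H x) g := by
  letI : MeasurableSpace G := ⊤
  haveI : MeasurableSingletonClass G := ⟨fun _ => trivial⟩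
  have hc : IsOpen ((cnj H x : Subgroup G) : Set G) :=
    hH.preimage (f := fun k : G => x * k * x⁻¹) (by fun_prop)
  have h1 : stb Γ H (x * g) = stb Γ (cnj H x) g := by
    rw [stb, stb]
    have : {k | k ∈ H ∧ (x * g)⁻¹ * k * (x * g) ∈ Γ} =
        (fun k => x * k * x⁻¹) '' {k | k ∈ cnj H x ∧ g⁻¹ * k * g ∈ Γ} := by
      ext z
      simp only [mem_ofPred_eq, mem_image, mem_cnj]
      constructor
      · rintro ⟨hz, hz'⟩
        refine ⟨x⁻¹ * z * x, ⟨?_, ?_⟩, by group⟩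
        · have : x * (x⁻¹ * z * x) * x⁻¹ = z := by group
          rw [this]; exact hz
        · have : g⁻¹ * (x⁻¹ * z * x) * g = (x * g)⁻¹ * z * (x * g) := by group
          rw [this]; exact hz'
      · rintro ⟨k, ⟨hk, hk'⟩, rfl⟩
        refine ⟨hk, ?_⟩
        have : (x * g)⁻¹ * (x * k * x⁻¹) * (x * g) = g⁻¹ * k * g := by group
        rw [this]; exact hk'
    rw [this, Measure.count_injective_image]
    intro k k' h
    simpa using h
  have h2 : cst H 1 (x * g) = cst (cnj H x) (x * 1) g := by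
    ext e
    simp only [cst, mem_ofPred_eq, mem_cnj]
    have : x * ((x * 1)⁻¹ * e * g⁻¹) * x⁻¹ = 1⁻¹ * e * (x * g)⁻¹ := by group
    rw [this]
  rw [psi, psi, h1, h2, pim_smul, hinv _ _ (pim_isOpen Γ (cst_isOpen hc 1 g)).measurableSet]

theorem const_of_bounded (f : G → ℝ) (hpos : ∀ g, 0 < f g) (C : ℝ) (hC : ∀ g, f g ≤ C)
    (h : ∀ x, ∃ r : ℝ, ∀ g, f (x * g) = r * f g) : ∀ g, f g = f 1 := by
  have key : ∀ x g, f (x * g) ≤ f g := by
    intro x g
    obtain ⟨r, hr⟩ := h x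
    have hr0 : 0 < r := by
      have h1 := hpos (x * g)
      rw [hr g] at h1
      exact (pos_iff_pos_of_mul_pos h1).2 (hpos g)
    have hpow : ∀ n : ℕ, f (x ^ n * g) = r ^ n * f g := by
      intro n
      induction n with
      | zero => simp
      | succ n ih => rw [pow_succ', mul_assoc, hr, ih, pow_succ']; ring
    have hr1 : r ≤ 1 := by
      by_contra hcon
      push Not at hcon
      have := (tendsto_pow_atTop_atTop_of_one_lt hcon).eventually (Filter.eventually_gt_atTop (C / f g))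
      obtain ⟨n, hn⟩ := this.exists
      have h2 := hC (x ^ n * g)
      rw [hpow n] at h2
      rw [div_lt_iff₀ (hpos g)] at hn
      linarith
    rw [hr g]
    have := hpos g
    nlinarith
  intro g
  apply le_antisymm
  · have := key g 1
    rwa [mul_one] at this
  · have := key g⁻¹ g
    rwa [inv_mul_cancel] at this

end Lat2


theorem fg_of_compact_gen {G : Type} [Group G] [TopologicalSpace G] [IsTopologicalGroup G]
    [T2Space G] {Γ : Subgroup G} (hd : DiscreteTopology Γ) {K C : Set G} (hK : IsCompact K)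
    (hC : IsCompact C) (h1 : (1 : G) ∈ K) (h1C : (1 : G) ∈ C) (hCi : ∀ x ∈ C, x⁻¹ ∈ C)
    (hgen : Subgroup.closure C = ⊤) (hKΓ : ∀ g : G, ∃ k ∈ K, k⁻¹ * g ∈ Γ) : Γ.FG := by
  set S : Set G := {γ : G | γ ∈ Γ ∧ γ ∈ K⁻¹ * C * K} with hS
  have hfin : S.Finite := lat_fin hd ((hK.inv.mul hC).mul hK)
  rw [Subgroup.fg_iff]
  refine ⟨S, ?_, hfin⟩
  have hSΓ : Subgroup.closure S ≤ Γ := by
    rw [Subgroup.closure_le]
    intro γ hγ
    exact hγ.1
  apply le_antisymm hSΓ
  have hstep : ∀ x ∈ C, ∀ g : G, (∃ k ∈ K, k⁻¹ * g ∈ Subgroup.closure S) →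
      ∃ k ∈ K, k⁻¹ * (x * g) ∈ Subgroup.closure S := by
    rintro x hx g ⟨k, hk, hg⟩
    obtain ⟨k', hk', hk2⟩ := hKΓ (x * k)
    refine ⟨k', hk', ?_⟩
    have : k'⁻¹ * (x * g) = (k'⁻¹ * (x * k)) * (k⁻¹ * g) := by group
    rw [this]
    refine Subgroup.mul_mem _ (Subgroup.subset_closure ⟨hk2, ?_⟩) hg
    refine ⟨k'⁻¹ * x, ⟨k'⁻¹, by simpa using hk', x, hx, rfl⟩, k, hk, ?_⟩
    simp only [mul_assoc]
  have hall : ∀ g : G, ∃ k ∈ K, k⁻¹ * g ∈ Subgroup.closure S := by
    intro g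
    have hg : g ∈ Subgroup.closure C := by rw [hgen]; exact Subgroup.mem_top g
    induction hg using Subgroup.closure_induction_left with
    | one => exact ⟨1, h1, by simpa using Subgroup.one_mem _⟩
    | mul_left x hx y _ ih => exact hstep x hx y ih
    | inv_mul_cancel x hx y _ ih => exact hstep x⁻¹ (hCi x hx) y ih
  intro γ hγ
  obtain ⟨k, hk, hk2⟩ := hall γ
  have hkS : k ∈ Subgroup.closure S := by
    apply Subgroup.subset_closure
    refine ⟨?_, ?_⟩
    · have h3 := hSΓ hk2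
      have : k = γ * (k⁻¹ * γ)⁻¹ := by group
      rw [this]; exact Γ.mul_mem hγ (Γ.inv_mem h3)
    · exact ⟨1, ⟨1, by simpa using h1, 1, h1C, by simp⟩, k, hk, by simp⟩
  have : γ = k * (k⁻¹ * γ) := by group
  rw [this]
  exact Subgroup.mul_mem _ hkS hk2

/-- LAT2 -/
theorem t_LAT2 : S_LAT2 := by
  intro G _ _ _ _ _ Γ Λ H c hΓ hΛ hfg hH hHc hcount
  obtain ⟨hd, μ, h1, h2, hinv⟩ := hΓ
  obtain ⟨hdΛ, ν, h3, h4, hinv'⟩ := hΛ
  letI : MeasurableSpace (G ⧸ Γ) := borel _
  haveI : BorelSpace (G ⧸ Γ) := ⟨rfl⟩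
  haveI := h1
  haveI := h2
  letI : MeasurableSpace (G ⧸ Λ) := borel _
  haveI : BorelSpace (G ⧸ Λ) := ⟨rfl⟩
  haveI := h3
  haveI := h4
  have hinv : Inv Γ μ := hinv
  have hinv' : Inv Λ ν := hinv'
  -- finiteness of `K ∩ g Γ g⁻¹`
  have hfinst : ∀ g : G, {k : G | k ∈ H ∧ g⁻¹ * k * g ∈ Γ}.Finite := by
    intro g
    have hc : IsCompact ((fun k : G => g⁻¹ * k * g) '' (H : Set G)) := hHc.image (by fun_prop)
    have h5 := (lat_fin hd hc).image (fun k : G => g * k * g⁻¹)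
    apply h5.subset
    rintro k ⟨hk, hk'⟩
    exact ⟨g⁻¹ * k * g, ⟨hk', k, hk, rfl⟩, by simp [mul_assoc]⟩
  have hstb : ∀ g : G, stb Γ H g ≤ c := by
    intro g
    letI : MeasurableSpace G := ⊤
    haveI : MeasurableSingletonClass G := ⟨fun _ => trivial⟩
    have h6 := hcount g⁻¹
    rw [stb, Measure.count_apply_finite _ (hfinst g)]
    have h7 : {γ : G | γ ∈ Γ ∧ g⁻¹⁻¹ * γ * g⁻¹ ∈ H} =
        (fun k : G => g⁻¹ * k * g) '' {k : G | k ∈ H ∧ g⁻¹ * k * g ∈ Γ} := by
      ext z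
      simp only [Set.mem_ofPred_eq, mem_image]
      constructor
      · rintro ⟨hz, hz'⟩
        refine ⟨g * z * g⁻¹, ⟨by simpa using hz', ?_⟩, by group⟩
        have : g⁻¹ * (g * z * g⁻¹) * g = z := by group
        rw [this]; exact hz
      · rintro ⟨k, ⟨hk, hk'⟩, rfl⟩
        refine ⟨hk', ?_⟩
        have : g⁻¹⁻¹ * (g⁻¹ * k * g) * g⁻¹ = k := by group
        rw [this]; exact hk
    rw [h7, Set.ncard_image_of_injective _ (fun k k' h => by simpa using h),
      Set.ncard_eq_toFinset_card _ (hfinst g)] at h6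
    exact_mod_cast h6
  have hstb1 : ∀ g : G, stb Γ H g ≠ 0 := by
    intro g h
    letI : MeasurableSpace G := ⊤
    haveI : MeasurableSingletonClass G := ⟨fun _ => trivial⟩
    rw [stb, Measure.count_eq_zero_iff] at h
    have : (1 : G) ∈ {k : G | k ∈ H ∧ g⁻¹ * k * g ∈ Γ} := by
      refine ⟨H.one_mem, ?_⟩
      simpa using Γ.one_mem
    rw [h] at this
    exact this
  have hmu : ∀ g : G, 0 < μ (pim Γ (cst H 1 g)) := by
    intro g
    apply lat_pos hinv (pim_isOpen Γ (cst_isOpen hH 1 g))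
    refine ⟨_, g, ?_, rfl⟩
    change 1⁻¹ * g * g⁻¹ ∈ H
    simpa using H.one_mem
  have hpsi0 : ∀ g, psi Γ μ H g ≠ 0 := fun g => mul_ne_zero (hstb1 g) (hmu g).ne'
  have hpsic : ∀ g, psi Γ μ H g ≤ c := by
    intro g
    calc psi Γ μ H g ≤ c * 1 := mul_le_mul' (hstb g) prob_le_one
      _ = c := mul_one _
  have hpsit : ∀ g, psi Γ μ H g ≠ ⊤ := fun g => ne_top_of_le_ne_top (ENNReal.natCast_ne_top c)
    (hpsic g)
  have hconst : ∀ g, (psi Γ μ H g).toReal = (psi Γ μ H 1).toReal := by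
    apply const_of_bounded (fun g => (psi Γ μ H g).toReal)
      (fun g => ENNReal.toReal_pos (hpsi0 g) (hpsit g)) c
    · intro g
      have := ENNReal.toReal_mono (ENNReal.natCast_ne_top c) (hpsic g)
      simpa using this
    · intro x
      have hco : IsOpen ((cnj H x : Subgroup G) : Set G) :=
        hH.preimage (f := fun k : G => x * k * x⁻¹) (by fun_prop)
      have hcc : IsCompact ((cnj H x : Subgroup G) : Set G) := by
        have : ((cnj H x : Subgroup G) : Set G) = (fun k : G => x⁻¹ * k * x) '' (H : Set G) := by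
          ext z
          simp only [SetLike.mem_coe, mem_cnj, mem_image]
          constructor
          · intro hz
            exact ⟨_, hz, by group⟩
          · rintro ⟨k, hk, rfl⟩
            have : x * (x⁻¹ * k * x) * x⁻¹ = k := by group
            rw [this]; exact hk
        rw [this]
        exact hHc.image (by fun_prop)
      set V : Subgroup G := H ⊓ cnj H x with hV
      have hVo : IsOpen (V : Set G) := hH.inter hco
      have hf : ∀ K : Subgroup G, IsCompact (K : Set G) → Finite (K ⧸ V.subgroupOf K) := by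
        intro K hK
        haveI : CompactSpace K := isCompact_iff_compactSpace.1 hK
        apply Subgroup.quotient_finite_of_isOpen
        exact hVo.preimage continuous_subtype_val
      haveI := hf H hHc
      haveI := hf (cnj H x) hcc
      have hp : ∀ g, psi Γ μ H g = Nat.card (H ⧸ V.subgroupOf H) * psi Γ μ V g :=
        fun g => psi_index hinv H V inf_le_left hVo hH g
      have hq : ∀ g, psi Γ μ H (x * g) =
          Nat.card (cnj H x ⧸ V.subgroupOf (cnj H x)) * psi Γ μ V g := by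
        intro g
        rw [psi_cnj hinv H hH x g]
        exact psi_index hinv (cnj H x) V inf_le_right hVo hco g
      refine ⟨(Nat.card (cnj H x ⧸ V.subgroupOf (cnj H x)) : ℝ) /
        (Nat.card (H ⧸ V.subgroupOf H) : ℝ), ?_⟩
      intro g
      rw [hp g, hq g, ENNReal.toReal_mul, ENNReal.toReal_mul, ENNReal.toReal_natCast,
        ENNReal.toReal_natCast]
      have h8 : (Nat.card (H ⧸ V.subgroupOf H) : ℝ) ≠ 0 := by
        exact_mod_cast Nat.card_pos.ne'
      field_simp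
  -- the lower bound for the measure of an orbit
  have hc0 : (c : ℝ≥0∞) ≠ 0 := by
    intro h
    have := hpsic 1
    rw [h] at this
    exact hpsi0 1 (le_antisymm this bot_le)
  set ε : ℝ≥0∞ := psi Γ μ H 1 / c with hε
  have hε0 : 0 < ε := ENNReal.div_pos (hpsi0 1) (ENNReal.natCast_ne_top c)
  have hlow : ∀ g, ε ≤ μ (pim Γ (cst H 1 g)) := by
    intro g
    have h5 : psi Γ μ H g = psi Γ μ H 1 :=
      (ENNReal.toReal_eq_toReal_iff' (hpsit g) (hpsit 1)).1 (hconst g)
    rw [hε, ← h5]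
    apply ENNReal.div_le_of_le_mul
    rw [psi, mul_comm]
    gcongr
    exact hstb g
  set F : G → Set (G ⧸ Γ) := fun g => pim Γ (cst H 1 g) with hF
  have hFmem : ∀ g : G, (g : G ⧸ Γ) ∈ F g := by
    intro g
    refine ⟨g, ?_, rfl⟩
    change 1⁻¹ * g * g⁻¹ ∈ H
    simpa using H.one_mem
  have hFeq : ∀ a b : G, ¬ Disjoint (F a) (F b) → F a ⊆ F b := by
    intro a b hab
    rw [Set.not_disjoint_iff] at hab
    obtain ⟨y, ⟨e, he, rfl⟩, ⟨e', he', hee⟩⟩ := hab
    rintro _ ⟨z, hz, rfl⟩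
    have he1 : 1⁻¹ * e * a⁻¹ ∈ H := he
    have he2 : 1⁻¹ * e' * b⁻¹ ∈ H := he'
    have hz1 : 1⁻¹ * z * a⁻¹ ∈ H := hz
    refine ⟨z * e⁻¹ * e', ?_, ?_⟩
    · change 1⁻¹ * (z * e⁻¹ * e') * b⁻¹ ∈ H
      have h9 := H.mul_mem (H.mul_mem hz1 (H.inv_mem he1)) he2
      have : 1⁻¹ * (z * e⁻¹ * e') * b⁻¹ =
          (1⁻¹ * z * a⁻¹) * (1⁻¹ * e * a⁻¹)⁻¹ * (1⁻¹ * e' * b⁻¹) := by group
      rw [this]; exact h9
    · apply QuotientGroup.eq.2
      have h10 : e'⁻¹ * e ∈ Γ := QuotientGroup.eq.1 hee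
      have : (z * e⁻¹ * e')⁻¹ * z = e'⁻¹ * e := by group
      rw [this]; exact h10
  have hFfin : (range F).Finite := by
    have h5 := Measure.finite_const_le_meas_of_disjoint_iUnion μ hε0
      (As := fun s : range F => (s : Set (G ⧸ Γ))) ?_ ?_ (measure_ne_top μ _)
    · have h6 : {i : range F | ε ≤ μ (i : Set (G ⧸ Γ))} = univ := by
        rw [eq_univ_iff_forall]
        rintro ⟨_, g, rfl⟩
        exact hlow g
      rw [h6] at h5
      exact Set.finite_coe_iff.1 (Set.finite_univ_iff.1 h5)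
    · rintro ⟨_, g, rfl⟩
      exact (pim_isOpen Γ (cst_isOpen hH 1 g)).measurableSet
    · rintro ⟨_, a, rfl⟩ ⟨_, b, rfl⟩ hab
      by_contra hcon
      apply hab
      have h6 := hFeq a b hcon
      have h7 := hFeq b a (fun h => hcon h.symm)
      exact Subtype.ext (Subset.antisymm h6 h7)
  obtain ⟨T, hTfin, hT⟩ : ∃ T : Set G, T.Finite ∧ ∀ g : G, ∃ t ∈ T, F t = F g := by
    haveI := hFfin.to_subtype
    refine ⟨range (fun s : range F => s.2.choose), finite_range _, ?_⟩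
    intro g
    exact ⟨_, ⟨⟨F g, g, rfl⟩, rfl⟩, (⟨F g, g, rfl⟩ : range F).2.choose_spec⟩
  set K : Set G := {1} ∪ (H : Set G) * T with hK
  have hKc : IsCompact K := isCompact_singleton.union (hHc.mul hTfin.isCompact)
  have hKΓ : ∀ g : G, ∃ k ∈ K, k⁻¹ * g ∈ Γ := by
    intro g
    obtain ⟨t, ht, hFt⟩ := hT g
    have h5 := hFmem g
    rw [← hFt] at h5
    obtain ⟨e, he, hee⟩ := h5
    have he1 : 1⁻¹ * e * t⁻¹ ∈ H := he
    refine ⟨e, Or.inr ⟨1⁻¹ * e * t⁻¹, he1, t, ht, by simp⟩, ?_⟩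
    exact QuotientGroup.eq.1 hee
  -- compact generation
  set U : Subgroup G := H ⊔ Λ with hU
  have hUo : IsOpen (U : Set G) := Subgroup.isOpen_mono (le_sup_left : H ≤ U) hH
  have hfinU : Finite (G ⧸ U) := by
    have hAo : ∀ a : G, IsOpen (pim Λ (cst U a 1)) := fun a => pim_isOpen Λ (cst_isOpen hUo a 1)
    have hAm : ∀ a : G, ν (pim Λ (cst U a 1)) = ν (pim Λ (cst U 1 1)) := by
      intro a
      have := pim_smul Λ U a 1 1
      rw [mul_one] at this
      rw [this, hinv' _ _ (hAo 1).measurableSet]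
    have hp : 0 < ν (pim Λ (cst U 1 1)) := by
      apply lat_pos hinv' (hAo 1)
      refine ⟨_, 1, ?_, rfl⟩
      change (1 : G)⁻¹ * 1 * 1⁻¹ ∈ U
      simpa using U.one_mem
    have h5 := Measure.finite_const_le_meas_of_disjoint_iUnion ν hp
      (As := fun q : G ⧸ U => pim Λ (cst U (Quotient.out q) 1)) (fun q => (hAo _).measurableSet) ?_
      (measure_ne_top ν _)
    · have h6 : {q : G ⧸ U | ν (pim Λ (cst U 1 1)) ≤ ν (pim Λ (cst U (Quotient.out q) 1))}
          = univ := by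
        rw [eq_univ_iff_forall]
        intro q
        exact (hAm _).ge
      rw [h6] at h5
      exact Set.finite_univ_iff.1 h5
    · intro q q' hqq'
      rw [Function.onFun, Set.disjoint_left]
      rintro _ ⟨e, he, rfl⟩ ⟨e', he', hee⟩
      apply hqq'
      have he1 : (Quotient.out q)⁻¹ * e * 1⁻¹ ∈ U := he
      have he2 : (Quotient.out q')⁻¹ * e' * 1⁻¹ ∈ U := he'
      have he3 : e'⁻¹ * e ∈ U := (le_sup_right : Λ ≤ U) (QuotientGroup.eq.1 hee)
      rw [← Quotient.out_eq q, ← Quotient.out_eq q']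
      apply QuotientGroup.eq.2
      have h7 := U.mul_mem he1 (U.inv_mem (U.mul_mem he2 he3))
      have h8 : (Quotient.out q)⁻¹ * e * 1⁻¹ * ((Quotient.out q')⁻¹ * e' * 1⁻¹ * (e'⁻¹ * e))⁻¹ =
        (Quotient.out q)⁻¹ * Quotient.out q' := by group
      rw [h8] at h7
      exact h7
  obtain ⟨SΛ, hSΛ, hSΛf⟩ := (Subgroup.fg_iff Λ).1 hfg
  set C0 : Set G := (H : Set G) ∪ SΛ ∪ range (fun q : G ⧸ U => Quotient.out q) with hC0
  have hC0c : IsCompact C0 := (hHc.union hSΛf.isCompact).union (finite_range _).isCompact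
  have hC0g : Subgroup.closure C0 = ⊤ := by
    rw [eq_top_iff]
    intro g _
    have hUle : U ≤ Subgroup.closure C0 := by
      apply sup_le
      · intro h hh
        exact Subgroup.subset_closure (Or.inl (Or.inl hh))
      · rw [← hSΛ, Subgroup.closure_le]
        intro l hl
        exact Subgroup.subset_closure (Or.inl (Or.inr hl))
    have h5 : (Quotient.out (g : G ⧸ U))⁻¹ * g ∈ U := QuotientGroup.eq.1 (Quotient.out_eq _)
    have h6 : g = Quotient.out (g : G ⧸ U) * ((Quotient.out (g : G ⧸ U))⁻¹ * g) := by group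
    rw [h6]
    exact Subgroup.mul_mem _ (Subgroup.subset_closure (Or.inr ⟨_, rfl⟩)) (hUle h5)
  apply fg_of_compact_gen hd hKc (C := C0 ∪ C0⁻¹) (hC0c.union hC0c.inv) (Or.inl rfl)
    (Or.inl (Or.inl (Or.inl H.one_mem))) ?_ ?_ hKΓ
  · rintro x (hx | hx)
    · exact Or.inr (by simpa using hx)
    · exact Or.inl (by simpa using hx)
  · rw [eq_top_iff, ← hC0g]
    exact Subgroup.closure_mono subset_union_left

end Pool.Agent.H28.FF
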