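import Mathlib

/-!
# Groups measure equivalent to `F₂ × F₂` (problem MP_6c9f91_an)

Definitions and the statements of the parts of the disproof.
-/

namespace Pool.Agent.H28.FF

open MeasureTheory Topology

/-- `Γ` and `Λ` are measure equivalent: there is a standard Borel space with a nonzero `σ`-finite measure, with
commuting, (essentially) free, measure preserving actions of `Γ` and `Λ`, such that each of the two actions
has a measurable fundamental domain of finite measure. -/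
def MeasureEquivalent (Γ Λ : Type) [Group Γ] [Group Λ] : Prop :=
  ∃ (Ω : Type) (_ : MeasurableSpace Ω) (_ : StandardBorelSpace Ω) (m : Measure Ω)
    (_ : SigmaFinite m) (_ : MulAction Γ Ω) (_ : MulAction Λ Ω), m ≠ 0 ∧
    (∀ (g : Γ) (l : Λ) (x : Ω), g • l • x = l • g • x) ∧
    (∀ g : Γ, MeasurePreserving (fun x : Ω => g • x) m m) ∧
    (∀ l : Λ, MeasurePreserving (fun x : Ω => l • x) m m) ∧
    (∀ g : Γ, g ≠ 1 → ∀ᵐ x ∂m, g • x ≠ x) ∧
    (∀ l : Λ, l ≠ 1 → ∀ᵐ x ∂m, l • x ≠ x) ∧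
    (∃ s : Set Ω, MeasurableSet s ∧ IsFundamentalDomain Γ s m ∧ m s < ⊤) ∧
    (∃ t : Set Ω, MeasurableSet t ∧ IsFundamentalDomain Λ t m ∧ m t < ⊤)

/-- `Γ` and `Λ` are virtually isomorphic: there are subgroups of finite index with finite normal subgroups
such that the quotients are isomorphic. -/
def VirtuallyIsomorphic (Γ Λ : Type) [Group Γ] [Group Λ] : Prop :=
  ∃ (Γ₀ : Subgroup Γ) (Λ₀ : Subgroup Λ) (N : Subgroup Γ₀) (M : Subgroup Λ₀) (_ : N.Normal)
    (_ : M.Normal), Γ₀.FiniteIndex ∧ Λ₀.FiniteIndex ∧ Finite N ∧ Finite M ∧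
      Nonempty (Γ₀ ⧸ N ≃* Λ₀ ⧸ M)

/-- A lattice of a topological group `G`: a discrete subgroup `Λ` such that `G ⧸ Λ` carries a `G`-invariant
(Radon) Borel probability measure. -/
def IsLattice {G : Type} [Group G] [TopologicalSpace G] (Λ : Subgroup G) : Prop :=
  DiscreteTopology Λ ∧ ∃ μ : @Measure (G ⧸ Λ) (borel (G ⧸ Λ)),
    @IsProbabilityMeasure _ (borel (G ⧸ Λ)) μ ∧ @Measure.Regular _ (borel (G ⧸ Λ)) _ μ ∧
    ∀ (g : G) (s : Set (G ⧸ Λ)), MeasurableSet[borel (G ⧸ Λ)] s →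
      μ ((fun x : G ⧸ Λ => g • x) ⁻¹' s) = μ s

/-- The free group `F₂`. -/
abbrev F2 : Type := FreeGroup (Fin 2)

open Classical in
/-- Class 1: `Γ` is virtually isomorphic to a direct product of countable groups, each of which is measure
equivalent to a (countable) free group. Any set of factors is allowed, and the direct product may be the
unrestricted one, the restricted one, or any group between them. -/
def ClassOne (Γ : Type) [Group Γ] : Prop :=
  ∃ (ι : Type) (P : ι → Type) (_ : ∀ i, Group (P i)) (K : Subgroup (∀ i, P i)),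
    (∀ i, Countable (P i)) ∧
    (∀ i, ∃ X : Type, Countable X ∧ MeasureEquivalent (P i) (FreeGroup X)) ∧
    (∀ (i : ι) (x : P i), Pi.mulSingle i x ∈ K) ∧ VirtuallyIsomorphic Γ K

/-- Class 2: `Γ` is virtually isomorphic to a lattice of a locally compact group `G` which also contains a
lattice virtually isomorphic to `F₂ × F₂`. -/
def ClassTwo (Γ : Type) [Group Γ] : Prop :=
  ∃ (G : Type) (_ : Group G) (_ : TopologicalSpace G) (_ : IsTopologicalGroup G) (_ : T2Space G)
    (_ : LocallyCompactSpace G) (Γ' Λ' : Subgroup G), IsLattice Γ' ∧ IsLattice Λ' ∧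
    VirtuallyIsomorphic Γ Γ' ∧ VirtuallyIsomorphic (F2 × F2) Λ'

/-! ### The parts -/

/-- (LIE) The Lie part of a locally compact group. -/
def S_LIE : Prop := ∀ (G : Type) [Group G] [TopologicalSpace G] [IsTopologicalGroup G] [T2Space G]
  [LocallyCompactSpace G],
  ∃ (H N : Subgroup G) (E : Type) (_ : AddCommGroup E) (_ : Module ℝ E)
    (_ : FiniteDimensional ℝ E) (T : G →* (E →ₗ[ℝ] E)),
    IsOpen (H : Set G) ∧ IsCompact (N : Set G) ∧ N ≤ H ∧
    (∀ h ∈ H, ∀ r : G, ∃ k : ℕ, 0 < k ∧ r * h ^ k * r⁻¹ ∈ H) ∧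
    (∀ z ∈ H, T z = 1 → ∀ h ∈ H, z * h * z⁻¹ * h⁻¹ ∈ N)

/-- (LAT1) -/
def S_LAT1 : Prop := ∀ (G : Type) [Group G] [TopologicalSpace G] [IsTopologicalGroup G] [T2Space G]
  [LocallyCompactSpace G] (Γ H : Subgroup G), IsLattice Γ → IsOpen (H : Set G) →
  {g : G | g ∈ Γ ∧ g ∈ H}.Finite → IsCompact (H : Set G)

/-- (LAT2) -/
def S_LAT2 : Prop := ∀ (G : Type) [Group G] [TopologicalSpace G] [IsTopologicalGroup G] [T2Space G]
  [LocallyCompactSpace G] (Γ Λ H : Subgroup G) (c : ℕ), IsLattice Γ → IsLattice Λ → Λ.FG →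
  IsOpen (H : Set G) → IsCompact (H : Set G) →
  (∀ g : G, {γ : G | γ ∈ Γ ∧ g⁻¹ * γ * g ∈ H}.ncard ≤ c) → Γ.FG

/-- (NFREE) A group containing a direct product of an infinite cyclic group and a free group of rank two is not
measure equivalent to a free group. -/
def S_NFREE : Prop := ∀ (Q : Type) [Group Q] [Countable Q] (X : Type) [Countable X] (a b c : Q),
  (∀ n : ℕ, 0 < n → a ^ n ≠ 1) → a * b = b * a → a * c = c * a →
  Function.Injective (FreeGroup.lift (![b, c] : Fin 2 → Q)) →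
  ¬ MeasureEquivalent Q (FreeGroup X)

/-- (OEME) Orbit equivalence gives measure equivalence. -/
def S_OEME : Prop := ∀ (Γ Λ : Type) [Group Γ] [Group Λ] [Countable Γ] [Countable Λ] (Z : Type)
  [MeasurableSpace Z] [StandardBorelSpace Z] (μ : Measure Z) [IsProbabilityMeasure μ]
  [MulAction Γ Z] [MulAction Λ Z], (∀ g : Γ, MeasurePreserving (fun x : Z => g • x) μ μ) →
  (∀ l : Λ, Measurable (fun x : Z => l • x)) →
  (∀ g : Γ, g ≠ 1 → ∀ x : Z, g • x ≠ x) → (∀ l : Λ, l ≠ 1 → ∀ x : Z, l • x ≠ x) →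
  (∀ x y : Z, (∃ g : Γ, g • x = y) ↔ ∃ l : Λ, l • x = y) → MeasureEquivalent Γ Λ

end Pool.Agent.H28.FF
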