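import Pool.Agent.H28.FF.LieB
import Pool.Agent.H28.FF.Stm

/-!
Part LIE: the Lie part of a locally compact group.
-/

namespace Pool.Agent.H28.FF.Lie

open Pool.Agent.W660.GY Pool.Agent.W880.GY Pool.Agent.W660.FL
open Filter Topology
open scoped Pointwise

/-- charts of groups without small subgroups -/
theorem chart (L : Type) [Group L] [TopologicalSpace L] [IsTopologicalGroup L] [T2Space L]
    [LocallyCompactSpace L] (hL : NSS L) : ∃ (E : Type) (_ : NormedAddCommGroup E)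
    (_ : NormedSpace ℝ E), FiniteDimensional ℝ E ∧ Nonempty (CS L E) := by
  have hBASE : S_BASE := t_BASE
  have hCJ : S_CJ := t_CJ
  have hA2 : S_A2 := t_A2 hCJ
  have hA3 : S_A3 := t_A3 hA2
  have hGL : S_GL := t_GL hBASE
  have hN1 : S_N1 := t_N1 hBASE
  have hN2 : S_N2 := t_N2 hBASE hN1
  have hT1 : S_T1 := t_T1 hBASE hA3 hN1
  have hT2 : S_T2 := t_T2 hBASE hA2 hGL hN2
  have hTC : S_TC := t_TC hBASE hCJ hN1 hT1
  have hVS : S_VS := t_VS hBASE hN2 hT1 hT2 hTC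
  have hLE : S_LE := t_LE hBASE hN2 hT1 hT2
  have hBL : S_BL := t_BL hBASE hCJ hA3 hN2
  have hFD : S_FD := t_FD hBASE hN2 hBL
  have hSJ : S_SJ := t_SJ hBASE hGL hA3 hN2 hLE hBL hFD
  have hCS : S_CS := t_CS hBASE hN2 hLE hBL hSJ
  obtain ⟨ν, hν⟩ := gy2 L hL
  obtain ⟨E, i1, i2, ⟨S⟩⟩ := hVS L ν hν
  exact ⟨E, i1, i2, hFD L ν hν E S, hCS L ν hν E S⟩

/-- `G` has a model whose Lie algebra has dimension `n` -/
def HasMod (G : Type) [Group G] [TopologicalSpace G] (n : ℕ) : Prop :=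
  ∃ (L : Type) (_ : Group L) (_ : TopologicalSpace L) (_ : IsTopologicalGroup L) (_ : T2Space L)
    (_ : LocallyCompactSpace L) (E : Type) (_ : NormedAddCommGroup E) (_ : NormedSpace ℝ E)
    (_ : FiniteDimensional ℝ E), Nonempty (CS L E) ∧ Nonempty (Mod G L) ∧ Module.finrank ℝ E = n

theorem exMod (G : Type) [Group G] [TopologicalSpace G] [IsTopologicalGroup G] [T2Space G]
    [LocallyCompactSpace G] : ∃ n, HasMod G n := by
  obtain ⟨H, hH, hV⟩ := gy3 G
  obtain ⟨N, hN, hNc, -, hNSS⟩ := hV Set.univ univ_mem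
  have : LocallyCompactSpace H := hH.locallyCompactSpace
  have : IsClosed (N : Set H) := hNc.isClosed
  have : T2Space (H ⧸ N) := inferInstance
  obtain ⟨E, i1, i2, i3, hE⟩ := chart (H ⧸ N) hNSS
  exact ⟨Module.finrank ℝ E, H ⧸ N, inferInstance, inferInstance, inferInstance, inferInstance,
    inferInstance, E, i1, i2, i3, hE, ⟨(Mod.sub H hH).comp (Mod.quot N hNc)⟩, rfl⟩

/-- in a minimal model the kernels of any two homomorphisms agree near `1` -/
theorem comm {G L E : Type} [Group G] [TopologicalSpace G] [IsTopologicalGroup G] [T2Space G]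
    [LocallyCompactSpace G] [Group L] [TopologicalSpace L] [IsTopologicalGroup L] [T2Space L]
    [LocallyCompactSpace L] [NormedAddCommGroup E] [NormedSpace ℝ E] [FiniteDimensional ℝ E]
    (C : CS L E) (hmin : ∀ n, HasMod G n → Module.finrank ℝ E ≤ n) (M1 M2 : Mod G L) :
    ∀ᶠ h in 𝓝 (1 : G), M1.p h = 1 → M2.p h = 1 := by
  by_contra hcon
  obtain ⟨G1, hG1⟩ : ∃ G1 : Subgroup G, G1 = M1.H ⊓ M2.H := ⟨_, rfl⟩
  have hG1o : IsOpen (G1 : Set G) := by
    rw [hG1]
    exact M1.openH.inter M2.openH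
  have hG1c : IsClosed (G1 : Set G) := Subgroup.isClosed_of_isOpen _ hG1o
  have g1 : ∀ x ∈ G1, x ∈ M1.H := by
    intro x hx; rw [hG1] at hx; exact hx.1
  have g2 : ∀ x ∈ G1, x ∈ M2.H := by
    intro x hx; rw [hG1] at hx; exact hx.2
  -- the compact normal subgroup
  let K : Subgroup G1 :=
    { carrier := {h | ∃ k ∈ G1, M1.p k = 1 ∧ M2.p (h : G) = M2.p k}
      mul_mem' := by
        rintro ⟨a, ha⟩ ⟨b, hb⟩ ⟨k, hk, h1, h2⟩ ⟨l, hl, h3, h4⟩
        refine ⟨k * l, mul_mem hk hl, ?_, ?_⟩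
        · rw [M1.mul k (g1 k hk) l (g1 l hl), h1, h3, one_mul]
        · show M2.p (a * b) = _
          rw [M2.mul a (g2 a ha) b (g2 b hb), M2.mul k (g2 k hk) l (g2 l hl)]
          exact congrArg₂ (· * ·) h2 h4
      one_mem' := ⟨1, one_mem _, M1.p_one, rfl⟩
      inv_mem' := by
        rintro ⟨a, ha⟩ ⟨k, hk, h1, h2⟩
        refine ⟨k⁻¹, inv_mem hk, ?_, ?_⟩
        · rw [M1.p_inv k (g1 k hk), h1, inv_one]
        · show M2.p (a⁻¹) = _
          rw [M2.p_inv a (g2 a ha), M2.p_inv k (g2 k hk)]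
          exact congrArg (·⁻¹) h2 }
  have hKmem : ∀ x : G1, x ∈ K ↔ ∃ k ∈ G1, M1.p k = 1 ∧ M2.p (x : G) = M2.p k := fun x => Iff.rfl
  have hKn : K.Normal := by
    constructor
    rintro ⟨a, ha⟩ ⟨k, hk, h1, h2⟩ ⟨g, hg⟩
    refine ⟨g * k * g⁻¹, mul_mem (mul_mem hg hk) (inv_mem hg), ?_, ?_⟩
    · rw [M1.mul _ (mul_mem (g1 g hg) (g1 k hk)) _ (inv_mem (g1 g hg)),
        M1.mul _ (g1 g hg) _ (g1 k hk), M1.p_inv _ (g1 g hg), h1]
      simp
    · show M2.p (g * a * g⁻¹) = _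
      rw [M2.mul _ (mul_mem (g2 g hg) (g2 k hk)) _ (inv_mem (g2 g hg)),
        M2.mul _ (g2 g hg) _ (g2 k hk), M2.p_inv _ (g2 g hg),
        M2.mul _ (mul_mem (g2 g hg) (g2 a ha)) _ (inv_mem (g2 g hg)),
        M2.mul _ (g2 g hg) _ (g2 a ha), M2.p_inv _ (g2 g hg)]
      have h3 : M2.p a = M2.p k := h2
      rw [h3]
  have hKc : IsCompact (K : Set G1) := by
    have c1 : IsCompact {k : G | k ∈ G1 ∧ M1.p k = 1} := by
      have h1 : {k : G | k ∈ G1 ∧ M1.p k = 1} = {k : G | k ∈ M1.H ∧ M1.p k = 1} ∩ G1 := by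
        ext x
        simp only [Set.mem_ofPred_eq, Set.mem_inter_iff, SetLike.mem_coe]
        constructor
        · rintro ⟨h1, h2⟩
          exact ⟨⟨g1 x h1, h2⟩, h1⟩
        · rintro ⟨⟨h1, h2⟩, h3⟩
          exact ⟨h3, h2⟩
      rw [h1]
      exact M1.ker.inter_right hG1c
    have c2 : IsCompact (M2.p '' {k : G | k ∈ G1 ∧ M1.p k = 1}) := by
      apply c1.image_of_continuousOn
      intro x hx
      exact (M2.cont x (g2 x hx.1)).continuousWithinAt
    have c3 := (M2.proper _ c2).inter_right hG1c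
    have c4 : (K : Set G1) = Subtype.val ⁻¹'
        ({h : G | h ∈ M2.H ∧ M2.p h ∈ M2.p '' {k : G | k ∈ G1 ∧ M1.p k = 1}} ∩ G1) := by
      ext x
      constructor
      · rintro ⟨k, hk, h1, h2⟩
        exact ⟨⟨g2 x x.2, k, ⟨hk, h1⟩, h2.symm⟩, x.2⟩
      · rintro ⟨⟨-, k, ⟨hk, h1⟩, h2⟩, -⟩
        exact ⟨k, hk, h1, h2.symm⟩
    rw [c4]
    exact hG1c.isClosedEmbedding_subtypeVal.isCompact_preimage c3
  have : LocallyCompactSpace G1 := hG1o.locallyCompactSpace
  have : IsClosed (K : Set G1) := hKc.isClosed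
  have : T2Space (G1 ⧸ K) := inferInstance
  obtain ⟨n, L1, j1, j2, j3, j4, j5, E1, j6, j7, j8, ⟨C1⟩, ⟨M'⟩, hn⟩ := exMod (G1 ⧸ K)
  let M4 : Mod G (G1 ⧸ K) := (Mod.sub G1 hG1o).comp (Mod.quot K hKc)
  let M3 : Mod G L1 := M4.comp M'
  have hM3 : ∀ (g : G) (hg : g ∈ G1), M3.p g = M'.p (((⟨g, hg⟩ : G1) : G1 ⧸ K)) := by
    intro g hg
    show M'.p (((Mod.sub G1 hG1o).p g : G1 ⧸ K)) = _
    rw [Mod.sub_p G1 hG1o g hg]
  have hM3K : ∀ (g : G) (hg : g ∈ G1), (⟨g, hg⟩ : G1) ∈ K → M3.p g = 1 := by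
    intro g hg hgK
    rw [hM3 g hg, (QuotientGroup.eq_one_iff _).2 hgK]
    exact M'.p_one
  have hle : Module.finrank ℝ E ≤ Module.finrank ℝ E1 :=
    hmin _ ⟨L1, j1, j2, j3, j4, j5, E1, j6, j7, j8, ⟨C1⟩, ⟨M3⟩, rfl⟩
  have hk : ∀ᶠ h in 𝓝 (1 : G), M2.p h = 1 → M3.p h = 1 := by
    filter_upwards [hG1o.mem_nhds (one_mem G1)] with h hh h2
    refine hM3K h hh ⟨1, one_mem _, M1.p_one, ?_⟩
    show M2.p h = M2.p 1
    rw [h2, M2.p_one]
  obtain ⟨D, hD⟩ := der C C1 M2 M3 hk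
  -- surjective
  have hsurj : LinearMap.range (D : E →ₗ[ℝ] E1) = ⊤ := by
    have h1 : Filter.map (fun h => C1.κ (M3.p h)) (𝓝 1) = 𝓝 0 := by
      have := map_k C1
      rw [← M3.map_one, Filter.map_map] at this
      exact this
    have h2 : (LinearMap.range (D : E →ₗ[ℝ] E1) : Set E1) ∈ 𝓝 (0 : E1) := by
      rw [← h1, Filter.mem_map]
      filter_upwards [hD] with h hh
      show C1.κ (M3.p h) ∈ (LinearMap.range (D : E →ₗ[ℝ] E1) : Set E1)
      rw [hh]
      exact ⟨_, rfl⟩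
    exact Submodule.eq_top_of_nonempty_interior' _ ⟨0, mem_interior_iff_mem_nhds.2 h2⟩
  have hinj : LinearMap.ker (D : E →ₗ[ℝ] E1) = ⊥ := by
    have h1 := LinearMap.finrank_range_add_finrank_ker (D : E →ₗ[ℝ] E1)
    rw [hsurj, finrank_top] at h1
    have h2 : Module.finrank ℝ (LinearMap.ker (D : E →ₗ[ℝ] E1)) = 0 := by omega
    exact Submodule.finrank_eq_zero.1 h2
  apply hcon
  filter_upwards [hD, hG1o.mem_nhds (one_mem G1),
    M2.tendsto_one.eventually (C.κ.open_source.mem_nhds C.one_mem)] with h h1 h2 h3 h4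
  have h5 : M3.p h = 1 := hM3K h h2 ⟨h, h2, h4, rfl⟩
  rw [h5, C1.map_one] at h1
  have h6 : C.κ (M2.p h) ∈ LinearMap.ker (D : E →ₗ[ℝ] E1) := by
    rw [LinearMap.mem_ker]
    exact h1.symm
  rw [hinj, Submodule.mem_bot, ← C.map_one] at h6
  exact C.κ.injOn h3 C.one_mem h6

/-- an open subgroup contains the one-parameter subgroups -/
theorem mem_of_isOne {L : Type} [Group L] [TopologicalSpace L] [IsTopologicalGroup L]
    (V : Subgroup L) (hV : IsOpen (V : Set L)) (γ : ℝ → L) (hγ : IsOne γ) (t : ℝ) : γ t ∈ V := by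
  have h1 : IsClopen (γ ⁻¹' (V : Set L)) :=
    ⟨(Subgroup.isClosed_of_isOpen _ hV).preimage hγ.1, hV.preimage hγ.1⟩
  have h0 : γ 0 = 1 := by
    have := hγ.2 0 0
    simpa using this
  have h2 : γ ⁻¹' (V : Set L) = Set.univ := by
    rcases isClopen_iff.1 h1 with h | h
    · exfalso
      have : (0 : ℝ) ∈ γ ⁻¹' (V : Set L) := by
        show γ 0 ∈ V
        rw [h0]; exact one_mem _
      rw [h] at this
      exact this
    · exact h
  have h3 : t ∈ γ ⁻¹' (V : Set L) := by rw [h2]; trivial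
  exact h3

end Pool.Agent.H28.FF.Lie

namespace Pool.Agent.H28.FF

open Pool.Agent.W660.GY Pool.Agent.W880.GY Pool.Agent.W660.FL Pool.Agent.H28.FF.Lie
open Filter Topology
open scoped Pointwise

theorem t_LIE : S_LIE := by
  classical
  intro G _ _ _ _ _
  have hP := exMod G
  obtain ⟨L, i1, i2, i3, i4, i5, E, i6, i7, i8, ⟨C⟩, ⟨M⟩, hn⟩ := Nat.find_spec hP
  have hmin : ∀ n, HasMod G n → Module.finrank ℝ E ≤ n := by
    intro n hmn
    rw [hn]
    exact Nat.find_min' hP hmn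
  -- the adjoint representation
  have hex : ∀ r : G, ∃ D : E →L[ℝ] E, ∀ᶠ h in 𝓝 (1 : G),
      C.κ (M.p (r * h * r⁻¹)) = D (C.κ (M.p h)) := fun r =>
    der C C M (M.conj r) (comm C hmin M (M.conj r))
  choose T0 hT0 using hex
  have hmap : Filter.map (fun h => C.κ (M.p h)) (𝓝 1) = 𝓝 0 := by
    have := map_k C
    rw [← M.map_one, Filter.map_map] at this
    exact this
  have huniq : ∀ D D' : E →L[ℝ] E, (∀ᶠ h in 𝓝 (1 : G), D (C.κ (M.p h)) = D' (C.κ (M.p h))) →
      D = D' := by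
    intro D D' hDD
    have h1 : ∀ᶠ x in 𝓝 (0 : E), D x = D' x := by
      rw [← hmap, Filter.eventually_map]
      exact hDD
    ext x
    have h2 : Tendsto (fun n : ℕ => ((1 : ℝ) / (n + 1)) • x) atTop (𝓝 0) := by
      have := tendsto_one_div_add_atTop_nhds_zero_nat (𝕜 := ℝ)
      simpa using this.smul_const x
    obtain ⟨n, hn⟩ := (h2.eventually h1).exists
    rw [map_smul, map_smul] at hn
    have h3 : ((1 : ℝ) / (n + 1)) ≠ 0 := by positivity
    exact smul_right_injective _ h3 hn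
  have hconjt : ∀ r : G, Tendsto (fun h : G => r * h * r⁻¹) (𝓝 1) (𝓝 1) := by
    intro r
    have h1 : Continuous (fun h : G => r * h * r⁻¹) := by fun_prop
    have h2 := h1.tendsto 1
    simpa using h2
  have hT1 : T0 1 = 1 := by
    apply huniq
    filter_upwards [hT0 1] with h hh
    rw [← hh]
    simp
  have hTm : ∀ r s : G, T0 (r * s) = T0 r * T0 s := by
    intro r s
    apply huniq
    filter_upwards [hT0 (r * s), hT0 s, (hconjt s).eventually (hT0 r)] with h h1 h2 h3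
    rw [← h1, mul_apply_eq_comp, ← h2, ← h3]
    congr 2
    group
  let T : G →* (E →ₗ[ℝ] E) :=
    { toFun := fun r => (T0 r : E →ₗ[ℝ] E)
      map_one' := by rw [hT1]; rfl
      map_mul' := fun r s => by rw [hTm]; rfl }
  have hTeq : ∀ r, T r = 1 → T0 r = 1 := by
    intro r hr
    ext x
    have h1 : T r x = (1 : E →ₗ[ℝ] E) x := by rw [hr]
    exact h1
  -- the identity component
  obtain ⟨L0, hL0⟩ : ∃ L0 : Subgroup L, L0 = Subgroup.closure (Set.range C.e) := ⟨_, rfl⟩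
  have hL0o : IsOpen (L0 : Set L) := by
    refine Subgroup.isOpen_of_mem_nhds L0 (g := 1) ?_
    filter_upwards [ek_ev C] with a ha
    rw [hL0, SetLike.mem_coe, ← ha]
    exact Subgroup.subset_closure ⟨_, rfl⟩
  have hL0m : ∀ V : Subgroup L, IsOpen (V : Set L) → L0 ≤ V := by
    intro V hV
    rw [hL0, Subgroup.closure_le]
    rintro _ ⟨x, rfl⟩
    have := mem_of_isOne V hV _ (C.one x) 1
    simpa using this
  let M0 : Mod G L :=
    { M with
      H :=
        { carrier := {h | h ∈ M.H ∧ M.p h ∈ L0}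
          mul_mem' := by
            rintro a b ⟨h1, h2⟩ ⟨h3, h4⟩
            refine ⟨mul_mem h1 h3, ?_⟩
            rw [M.mul a h1 b h3]
            exact mul_mem h2 h4
          one_mem' := ⟨one_mem _, by rw [M.p_one]; exact one_mem _⟩
          inv_mem' := by
            rintro a ⟨h1, h2⟩
            refine ⟨inv_mem h1, ?_⟩
            rw [M.p_inv a h1]
            exact inv_mem h2 }
      openH := by
        have h1 : ContinuousOn M.p (M.H : Set G) := fun a ha => (M.cont a ha).continuousWithinAt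
        exact h1.isOpen_inter_preimage M.openH hL0o
      mul := fun a ha b hb => M.mul a ha.1 b hb.1
      cont := fun a ha => M.cont a ha.1
      opn := fun U hU hUH => M.opn U hU fun x hx => (hUH hx).1
      ker := by
        have h1 : {h : G | (h ∈ M.H ∧ M.p h ∈ L0) ∧ M.p h = 1} = {h : G | h ∈ M.H ∧ M.p h = 1} := by
          ext x
          simp only [Set.mem_ofPred_eq]
          constructor
          · rintro ⟨⟨h1, h2⟩, h3⟩
            exact ⟨h1, h3⟩
          · rintro ⟨h1, h2⟩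
            exact ⟨⟨h1, by rw [h2]; exact one_mem _⟩, h2⟩
        have h2 := M.ker
        rw [← h1] at h2
        exact h2 }
  have hM0H : ∀ x, x ∈ M0.H ↔ x ∈ M.H ∧ M.p x ∈ L0 := fun x => Iff.rfl
  have hM0p : ∀ x, M0.p x = M.p x := fun x => rfl
  let N : Subgroup G :=
    { carrier := {h | h ∈ M0.H ∧ M0.p h = 1}
      mul_mem' := by
        rintro a b ⟨h1, h2⟩ ⟨h3, h4⟩
        refine ⟨mul_mem h1 h3, ?_⟩
        rw [M0.mul a h1 b h3, h2, h4, one_mul]
      one_mem' := ⟨one_mem _, M0.p_one⟩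
      inv_mem' := by
        rintro a ⟨h1, h2⟩
        refine ⟨inv_mem h1, ?_⟩
        rw [M0.p_inv a h1, h2, inv_one] }
  have hNmem : ∀ x, x ∈ N ↔ x ∈ M0.H ∧ M0.p x = 1 := fun x => Iff.rfl
  have hNc : IsCompact (N : Set G) := M0.ker
  refine ⟨M0.H, N, E, inferInstance, inferInstance, i8, T, M0.openH, hNc,
    fun x hx => hx.1, ?_, ?_⟩
  · -- commensuration
    intro h hh r
    obtain ⟨H1, hH1⟩ : ∃ H1 : Subgroup G, H1 = M0.H ⊓ (M0.conj r).H := ⟨_, rfl⟩
    have hH1o : IsOpen (H1 : Set G) := by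
      rw [hH1]
      exact M0.openH.inter (M0.conj r).openH
    have k1 : ∀ x ∈ H1, x ∈ M0.H := by
      intro x hx; rw [hH1] at hx; exact hx.1
    have k2 : ∀ x ∈ H1, r * x * r⁻¹ ∈ M0.H := by
      intro x hx; rw [hH1] at hx; exact hx.2
    -- the image of `H1`
    let V : Subgroup L :=
      { carrier := M0.p '' H1
        mul_mem' := by
          rintro _ _ ⟨a, ha, rfl⟩ ⟨b, hb, rfl⟩
          exact ⟨a * b, mul_mem ha hb, M0.mul a (k1 a ha) b (k1 b hb)⟩
        one_mem' := ⟨1, one_mem _, M0.p_one⟩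
        inv_mem' := by
          rintro _ ⟨a, ha, rfl⟩
          exact ⟨a⁻¹, inv_mem ha, M0.p_inv a (k1 a ha)⟩ }
    have hVo : IsOpen (V : Set L) := M0.opn _ hH1o k1
    have hVL := hL0m V hVo
    have hdec : ∀ x ∈ M0.H, ∃ a ∈ H1, a⁻¹ * x ∈ N := by
      intro x hx
      obtain ⟨a, ha, hax⟩ := hVL ((hM0H x).1 hx).2
      refine ⟨a, ha, mul_mem (inv_mem (k1 a ha)) hx, ?_⟩
      rw [M0.mul _ (inv_mem (k1 a ha)) _ hx, M0.p_inv _ (k1 a ha), hax, hM0p]
      simp
    choose! A hA hAN using hdec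
    -- cover of N by right cosets of H1
    obtain ⟨t, ht⟩ : ∃ t : Finset G, (N : Set G) ⊆ ⋃ c ∈ t, {x | x * c⁻¹ ∈ H1} := by
      obtain ⟨t, -, ht⟩ := hNc.elim_nhds_subcover (fun c => {x : G | x * c⁻¹ ∈ H1}) (by
        intro c _
        have h1 : Continuous (fun x : G => x * c⁻¹) := by fun_prop
        refine (hH1o.preimage h1).mem_nhds ?_
        show c * c⁻¹ ∈ H1
        rw [mul_inv_cancel]
        exact one_mem _)
      exact ⟨t, ht⟩
    have hc : ∀ i : ℕ, ∃ c ∈ t, ((A (h ^ i))⁻¹ * h ^ i) * c⁻¹ ∈ H1 := by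
      intro i
      have h1 := ht (hAN (h ^ i) (pow_mem hh i))
      obtain ⟨c, hc, hc2⟩ := Set.mem_iUnion₂.1 h1
      exact ⟨c, hc, hc2⟩
    choose c hct hcH using hc
    obtain ⟨i, j, hij, hcij⟩ : ∃ i j : ℕ, i < j ∧ c i = c j := by
      have hni : ¬ Function.Injective (fun i => (⟨c i, hct i⟩ : t)) :=
        not_injective_infinite_finite _
      rw [Function.not_injective_iff] at hni
      obtain ⟨a, b, hab, hne⟩ := hni
      have hab' : c a = c b := congrArg Subtype.val hab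
      rcases lt_or_gt_of_ne hne with h | h
      · exact ⟨a, b, h, hab'⟩
      · exact ⟨b, a, h, hab'.symm⟩
    refine ⟨j - i, by omega, k2 _ ?_⟩
    have e1 : h ^ (j - i) = h ^ j * (h ^ i)⁻¹ := by
      rw [eq_mul_inv_iff_mul_eq, ← pow_add]
      congr 1
      omega
    have e2 : h ^ j * (h ^ i)⁻¹ = A (h ^ j) * (((A (h ^ j))⁻¹ * h ^ j) * (c j)⁻¹) *
        (((A (h ^ i))⁻¹ * h ^ i) * (c i)⁻¹)⁻¹ * (A (h ^ i))⁻¹ := by
      rw [hcij]
      group
    rw [e1, e2]
    exact mul_mem (mul_mem (mul_mem (hA _ (pow_mem hh j)) (hcH j)) (inv_mem (hcH i)))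
      (inv_mem (hA _ (pow_mem hh i)))
  · -- centralizer
    intro z hz hTz h hh
    have hz1 := (hM0H z).1 hz
    have hTz' := hTeq z hTz
    have h1 : ∀ᶠ g in 𝓝 (1 : G), M.p (z * g * z⁻¹) = M.p g := by
      have hs := M.tendsto_one.eventually (C.κ.open_source.mem_nhds C.one_mem)
      filter_upwards [hT0 z, hs, (hconjt z).eventually hs] with g h1 h2 h3
      rw [hTz'] at h1
      exact C.κ.injOn h3 h2 h1
    have h2 : ∀ᶠ a in 𝓝 (1 : L), M.p z * a = a * M.p z := by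
      rw [← M.map_one, Filter.eventually_map]
      filter_upwards [h1, M.mem_nhds] with g hg1 hg2
      rw [M.mul _ (mul_mem hz1.1 hg2) _ (inv_mem hz1.1), M.mul _ hz1.1 _ hg2,
        M.p_inv _ hz1.1] at hg1
      exact mul_inv_eq_iff_eq_mul.1 hg1
    have h3 : IsOpen ((Subgroup.centralizer {M.p z} : Subgroup L) : Set L) := by
      refine Subgroup.isOpen_of_mem_nhds _ (g := 1) ?_
      filter_upwards [h2] with a ha
      rw [SetLike.mem_coe, Subgroup.mem_centralizer_iff]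
      intro b hb
      rw [Set.mem_singleton_iff] at hb
      rw [hb]
      exact ha
    have h4 := hL0m _ h3 ((hM0H h).1 hh).2
    rw [Subgroup.mem_centralizer_iff] at h4
    have h5 := h4 (M.p z) rfl
    refine ⟨mul_mem (mul_mem (mul_mem hz hh) (inv_mem hz)) (inv_mem hh), ?_⟩
    rw [M0.mul _ (mul_mem (mul_mem hz hh) (inv_mem hz)) _ (inv_mem hh),
      M0.mul _ (mul_mem hz hh) _ (inv_mem hz), M0.mul _ hz _ hh, M0.p_inv _ hz, M0.p_inv _ hh]
    simp only [hM0p]
    rw [h5]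
    group

end Pool.Agent.H28.FF
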