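import Pool.Graph.R_seed8.W660.GY.M1x
import Pool.Graph.R_seed8.W660.GY.Main2
import Pool.Graph.R_seed8.W660.GY.Main3

/-!
Part LIE, first file: the derivative of a local homomorphism between groups with exponential charts.
-/

namespace Pool.Agent.H28.FF.Lie

open Pool.Agent.W660.GY Pool.Agent.W880.GY Pool.Agent.W660.FL
open Filter Topology

section Chart

variable {L : Type} [Group L] [TopologicalSpace L] {E : Type} [NormedAddCommGroup E]
  [NormedSpace ℝ E] (C : CS L E)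

include C

theorem e_zero : C.e 0 = 1 := by
  rw [← C.symm, ← C.map_one]
  exact C.κ.left_inv C.one_mem

theorem zero_mem_target : (0 : E) ∈ C.κ.target := by
  rw [← C.map_one]
  exact C.κ.map_source C.one_mem

theorem e_two (x : E) : C.e ((2 : ℝ) • x) = C.e x * C.e x := by
  have h := (C.one x).2 1 1
  simp only [one_smul] at h
  rw [← h]
  norm_num

theorem ke_ev : ∀ᶠ x in 𝓝 (0 : E), C.κ (C.e x) = x := by
  filter_upwards [C.κ.open_target.mem_nhds (zero_mem_target C)] with x hx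
  rw [← C.symm]
  exact C.κ.right_inv hx

theorem ek_ev : ∀ᶠ a in 𝓝 (1 : L), C.e (C.κ a) = a := by
  filter_upwards [C.κ.open_source.mem_nhds C.one_mem] with x hx
  rw [← C.symm]
  exact C.κ.left_inv hx

theorem e_contAt : ∀ᶠ x in 𝓝 (0 : E), ContinuousAt C.e x := by
  filter_upwards [C.κ.open_target.mem_nhds (zero_mem_target C)] with x hx
  have h : (C.κ.symm : E → L) = C.e := funext C.symm
  rw [← h]
  exact C.κ.continuousAt_symm hx

theorem k_contAt : ∀ᶠ a in 𝓝 (1 : L), ContinuousAt C.κ a := by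
  filter_upwards [C.κ.open_source.mem_nhds C.one_mem] with x hx
  exact C.κ.continuousAt hx

theorem e_tendsto : Tendsto C.e (𝓝 0) (𝓝 1) := by
  have h := (e_contAt C).self_of_nhds
  unfold ContinuousAt at h
  rwa [e_zero C] at h

theorem k_tendsto : Tendsto C.κ (𝓝 1) (𝓝 0) := by
  have h := (k_contAt C).self_of_nhds
  unfold ContinuousAt at h
  rwa [C.map_one] at h

theorem map_k : Filter.map C.κ (𝓝 1) = 𝓝 0 := by
  rw [C.κ.map_nhds_eq C.one_mem, C.map_one]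

end Chart

/-- the derivative of a local homomorphism -/
theorem der0 {L L1 : Type} [Group L] [TopologicalSpace L] [Group L1] [TopologicalSpace L1]
    {E E1 : Type} [NormedAddCommGroup E] [NormedSpace ℝ E] [NormedAddCommGroup E1]
    [NormedSpace ℝ E1] (C : CS L E) (C1 : CS L1 E1) (φ : L → L1)
    (hm : ∀ᶠ q in 𝓝 ((1 : L), (1 : L)), φ (q.1 * q.2) = φ q.1 * φ q.2)
    (hc : ∀ᶠ a in 𝓝 (1 : L), ContinuousAt φ a) :
    ∃ D : E →L[ℝ] E1, ∀ᶠ a in 𝓝 (1 : L), C1.κ (φ a) = D (C.κ a) := by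
  have h1 : φ 1 = 1 := by
    have h := hm.self_of_nhds
    simpa using h
  have hφ : Tendsto φ (𝓝 1) (𝓝 1) := by
    have h := hc.self_of_nhds
    unfold ContinuousAt at h
    rwa [h1] at h
  have hφe : Tendsto (fun x => φ (C.e x)) (𝓝 0) (𝓝 1) := hφ.comp (e_tendsto C)
  obtain ⟨Φ, hΦ⟩ : ∃ Φ : E → E1, ∀ x, Φ x = C1.κ (φ (C.e x)) := ⟨_, fun _ => rfl⟩
  have hΦt : Tendsto Φ (𝓝 0) (𝓝 0) := by
    have h : Φ = fun x => C1.κ (φ (C.e x)) := funext hΦ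
    rw [h]
    exact (k_tendsto C1).comp hφe
  have hΦ0 : Φ 0 = 0 := by rw [hΦ, e_zero C, h1, C1.map_one]
  have hhalf : Tendsto (fun x : E => (1 / 2 : ℝ) • x) (𝓝 0) (𝓝 0) := by
    have h : Continuous (fun x : E => (1 / 2 : ℝ) • x) := continuous_const_smul _
    have h2 := h.tendsto 0
    simpa using h2
  -- eventually facts
  have fA : ∀ᶠ x in 𝓝 (0 : E), C1.e (Φ x) = φ (C.e x) := by
    filter_upwards [hφe.eventually (ek_ev C1)] with x hx
    rw [hΦ, hx]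
  have fB : ∀ᶠ x in 𝓝 (0 : E), Φ x = (2 : ℝ) • Φ ((1 / 2 : ℝ) • x) := by
    have hp : Tendsto (fun x : E => (C.e ((1 / 2 : ℝ) • x), C.e ((1 / 2 : ℝ) • x))) (𝓝 0)
        (𝓝 ((1 : L), (1 : L))) := by
      rw [nhds_prod_eq]
      exact Tendsto.prodMk ((e_tendsto C).comp hhalf) ((e_tendsto C).comp hhalf)
    have h2 : Tendsto (fun x : E => (2 : ℝ) • Φ ((1 / 2 : ℝ) • x)) (𝓝 0) (𝓝 0) := by
      have h := (hΦt.comp hhalf).const_smul (2 : ℝ)
      simpa using h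
    filter_upwards [hp.eventually hm, fA, hhalf.eventually fA, h2.eventually (ke_ev C1),
      hΦt.eventually (ke_ev C1)] with x h1 h2 h3 h4 h5
    rw [← h4, e_two C1, h3, ← h1, ← e_two C, ← h5, h2]
    simp
  have fC : ∀ᶠ x in 𝓝 (0 : E), ContinuousAt Φ x := by
    filter_upwards [e_contAt C, (e_tendsto C).eventually hc,
      hφe.eventually (k_contAt C1)] with x h1 h2 h3
    have h : Φ = fun x => C1.κ (φ (C.e x)) := funext hΦ
    rw [h]
    have e1 : ContinuousAt (fun x => φ (C.e x)) x := ContinuousAt.comp (f := C.e) (g := φ) h2 h1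
    exact ContinuousAt.comp (f := fun x => φ (C.e x)) (g := C1.κ) h3 e1
  have fD : ∀ᶠ q in 𝓝 ((0 : E), (0 : E)), φ (C.e q.1 * C.e q.2) = φ (C.e q.1) * φ (C.e q.2) := by
    have hp : Tendsto (fun q : E × E => (C.e q.1, C.e q.2)) (𝓝 ((0 : E), (0 : E)))
        (𝓝 ((1 : L), (1 : L))) := by
      rw [nhds_prod_eq, nhds_prod_eq]
      exact Tendsto.prodMap (e_tendsto C) (e_tendsto C)
    exact hp.eventually hm
  obtain ⟨δ1, hδ1, K1, hK1, hest1⟩ := C.est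
  obtain ⟨δ2, hδ2, K2, hK2, hest2⟩ := C1.est
  have fE : ∀ᶠ x in 𝓝 (0 : E), ‖Φ x‖ < δ2 := by
    have h : Tendsto (fun x => ‖Φ x‖) (𝓝 0) (𝓝 0) := by
      have := hΦt.norm
      simpa using this
    exact h.eventually (gt_mem_nhds hδ2)
  obtain ⟨δ3, hδ3, hA⟩ := Metric.eventually_nhds_iff.1 (fA.and (fB.and (fC.and fE)))
  obtain ⟨δ4, hδ4, hD⟩ := Metric.eventually_nhds_iff.1 fD
  obtain ⟨δ, hδ, hδa, hδb, hδc⟩ : ∃ δ > 0, δ ≤ δ1 ∧ δ ≤ δ3 ∧ δ ≤ δ4 :=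
    ⟨min δ1 (min δ3 δ4), by positivity, min_le_left _ _, (min_le_right _ _).trans (min_le_left _ _),
      (min_le_right _ _).trans (min_le_right _ _)⟩
  have gA : ∀ x, ‖x‖ < δ → C1.e (Φ x) = φ (C.e x) := fun x hx =>
    (hA (by simpa using hx.trans_le hδb)).1
  have gB : ∀ x, ‖x‖ < δ → Φ x = (2 : ℝ) • Φ ((1 / 2 : ℝ) • x) := fun x hx =>
    (hA (by simpa using hx.trans_le hδb)).2.1
  have gC : ∀ x, ‖x‖ < δ → ContinuousAt Φ x := fun x hx =>
    (hA (by simpa using hx.trans_le hδb)).2.2.1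
  have gE : ∀ x, ‖x‖ < δ → ‖Φ x‖ < δ2 := fun x hx =>
    (hA (by simpa using hx.trans_le hδb)).2.2.2
  have gD : ∀ x y, ‖x‖ < δ → ‖y‖ < δ → φ (C.e x * C.e y) = φ (C.e x) * φ (C.e y) := by
    intro x y hx hy
    have h := @hD (x, y) (by
      rw [Prod.dist_eq]
      simp only [dist_zero_right]
      exact max_lt (hx.trans_le hδc) (hy.trans_le hδc))
    exact h
  have hsm : ∀ (x : E) (k : ℕ), ‖x‖ < δ → ‖(1 / 2 : ℝ) ^ k • x‖ < δ := by
    intro x k hx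
    rw [norm_smul, norm_pow]
    have h : ‖(1 / 2 : ℝ)‖ ^ k ≤ 1 := pow_le_one₀ (norm_nonneg _) (by norm_num)
    calc ‖(1 / 2 : ℝ)‖ ^ k * ‖x‖ ≤ 1 * ‖x‖ := by gcongr
      _ < δ := by simpa using hx
  have hpow : ∀ (k : ℕ) (x : E), ‖x‖ < δ → (2 : ℝ) ^ k • Φ ((1 / 2 : ℝ) ^ k • x) = Φ x := by
    intro k
    induction k with
    | zero => intro x _; simp
    | succ k ih =>
      intro x hx
      rw [← ih x hx, gB _ (hsm x k hx), smul_smul, smul_smul]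
      congr 2
      ring_nf
  have hpow' : ∀ (k : ℕ) (x : E), ‖x‖ < δ → Φ ((1 / 2 : ℝ) ^ k • x) = (1 / 2 : ℝ) ^ k • Φ x := by
    intro k x hx
    rw [← hpow k x hx, smul_smul, ← mul_pow]
    norm_num
  have hlim : Tendsto (fun k : ℕ => (1 / 2 : ℝ) ^ k) atTop (𝓝 0) :=
    tendsto_pow_atTop_nhds_zero_of_lt_one (by norm_num) (by norm_num)
  have hadd : ∀ x y, ‖x‖ < δ / 2 → ‖y‖ < δ / 2 → Φ (x + y) = Φ x + Φ y := by
    intro x y hx hy
    have hxy : ‖x + y‖ < δ := (norm_add_le x y).trans_lt (by linarith)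
    have hx' : ‖x‖ < δ := by linarith
    have hy' : ‖y‖ < δ := by linarith
    obtain ⟨w, hw⟩ : ∃ w : ℕ → E, ∀ k, w k = (2 : ℝ) ^ k •
      C.κ (C.e ((1 / 2 : ℝ) ^ k • x) * C.e ((1 / 2 : ℝ) ^ k • y)) := ⟨_, fun _ => rfl⟩
    have hw' : ∀ k, (1 / 2 : ℝ) ^ k • w k =
        C.κ (C.e ((1 / 2 : ℝ) ^ k • x) * C.e ((1 / 2 : ℝ) ^ k • y)) := by
      intro k
      rw [hw, smul_smul, ← mul_pow]
      norm_num
    have hwl : Tendsto w atTop (𝓝 (x + y)) := by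
      rw [tendsto_iff_norm_sub_tendsto_zero]
      have hb : ∀ k, ‖w k - (x + y)‖ ≤ (1 / 2 : ℝ) ^ k * (K1 * ‖x‖ * ‖y‖) := by
        intro k
        have he := (hest1 ((1 / 2 : ℝ) ^ k • x) ((1 / 2 : ℝ) ^ k • y)
          ((hsm x k hx').trans_le hδa) ((hsm y k hy').trans_le hδa)).2
        rw [← hw', ← smul_add, ← smul_sub, norm_smul, norm_smul, norm_smul] at he
        have hp : 0 < (1 / 2 : ℝ) ^ k := by positivity
        have hp2 : ‖((1 / 2 : ℝ)) ^ k‖ = (1 / 2 : ℝ) ^ k := by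
          rw [Real.norm_of_nonneg (by positivity)]
        rw [hp2] at he
        have : (1 / 2 : ℝ) ^ k * ‖w k - (x + y)‖ ≤
            (1 / 2 : ℝ) ^ k * ((1 / 2 : ℝ) ^ k * (K1 * ‖x‖ * ‖y‖)) := by
          calc _ ≤ _ := he
            _ = _ := by ring
        exact le_of_mul_le_mul_left this hp
      have hz : Tendsto (fun k : ℕ => (1 / 2 : ℝ) ^ k * (K1 * ‖x‖ * ‖y‖)) atTop (𝓝 0) := by
        simpa using hlim.mul_const (K1 * ‖x‖ * ‖y‖)
      exact squeeze_zero (fun k => norm_nonneg _) hb hz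
    have hΦw : ∀ k, ‖(2 : ℝ) ^ k • Φ ((1 / 2 : ℝ) ^ k • w k) - (Φ x + Φ y)‖ ≤
        (1 / 2 : ℝ) ^ k * (K2 * ‖Φ x‖ * ‖Φ y‖) := by
      intro k
      have hs := (hest1 ((1 / 2 : ℝ) ^ k • x) ((1 / 2 : ℝ) ^ k • y)
          ((hsm x k hx').trans_le hδa) ((hsm y k hy').trans_le hδa)).1
      have e1 : C.e ((1 / 2 : ℝ) ^ k • w k) =
          C.e ((1 / 2 : ℝ) ^ k • x) * C.e ((1 / 2 : ℝ) ^ k • y) := by
        rw [hw', ← C.symm, C.κ.left_inv hs]
      have e2 : Φ ((1 / 2 : ℝ) ^ k • w k) = C1.κ (C1.e ((1 / 2 : ℝ) ^ k • Φ x) *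
          C1.e ((1 / 2 : ℝ) ^ k • Φ y)) := by
        rw [hΦ, e1, gD _ _ (hsm x k hx') (hsm y k hy'), ← gA _ (hsm x k hx'),
          ← gA _ (hsm y k hy'), hpow' k x hx', hpow' k y hy']
      have b1 : ‖(1 / 2 : ℝ) ^ k • Φ x‖ < δ2 := by
        rw [← hpow' k x hx']; exact gE _ (hsm x k hx')
      have b2 : ‖(1 / 2 : ℝ) ^ k • Φ y‖ < δ2 := by
        rw [← hpow' k y hy']; exact gE _ (hsm y k hy')
      have he := (hest2 _ _ b1 b2).2
      rw [← e2] at he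
      have e3 : (2 : ℝ) ^ k • Φ ((1 / 2 : ℝ) ^ k • w k) - (Φ x + Φ y) =
          (2 : ℝ) ^ k • (Φ ((1 / 2 : ℝ) ^ k • w k) - ((1 / 2 : ℝ) ^ k • Φ x +
            (1 / 2 : ℝ) ^ k • Φ y)) := by
        rw [smul_sub, ← smul_add, smul_smul ((2 : ℝ) ^ k) ((1 / 2 : ℝ) ^ k), ← mul_pow]
        norm_num
      rw [e3, norm_smul]
      have hp2 : ‖((1 / 2 : ℝ)) ^ k‖ = (1 / 2 : ℝ) ^ k := by
        rw [Real.norm_of_nonneg (by positivity)]
      have hp3 : ‖((2 : ℝ)) ^ k‖ = (2 : ℝ) ^ k := by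
        rw [Real.norm_of_nonneg (by positivity)]
      rw [norm_smul, norm_smul, hp2] at he
      rw [hp3]
      calc (2 : ℝ) ^ k * _ ≤ (2 : ℝ) ^ k * (K2 * ((1 / 2 : ℝ) ^ k * ‖Φ x‖) *
            ((1 / 2 : ℝ) ^ k * ‖Φ y‖)) := by gcongr
        _ = ((2 : ℝ) * (1 / 2 : ℝ)) ^ k * ((1 / 2 : ℝ) ^ k * (K2 * ‖Φ x‖ * ‖Φ y‖)) := by
          rw [mul_pow]; ring
        _ = _ := by norm_num
    have l1 : Tendsto (fun k => Φ (w k)) atTop (𝓝 (Φ (x + y))) := (gC _ hxy).tendsto.comp hwl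
    have l2 : Tendsto (fun k => Φ (w k)) atTop (𝓝 (Φ x + Φ y)) := by
      have l3 : Tendsto (fun k : ℕ => (2 : ℝ) ^ k • Φ ((1 / 2 : ℝ) ^ k • w k)) atTop
          (𝓝 (Φ x + Φ y)) := by
        rw [tendsto_iff_norm_sub_tendsto_zero]
        have hz : Tendsto (fun k : ℕ => (1 / 2 : ℝ) ^ k * (K2 * ‖Φ x‖ * ‖Φ y‖)) atTop (𝓝 0) := by
          simpa using hlim.mul_const (K2 * ‖Φ x‖ * ‖Φ y‖)
        exact squeeze_zero (fun k => norm_nonneg _) hΦw hz
      refine l3.congr' ?_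
      have hev : ∀ᶠ k in atTop, ‖w k‖ < δ := by
        have := hwl.norm
        exact this.eventually (gt_mem_nhds hxy)
      filter_upwards [hev] with k hk
      exact hpow k _ hk
    exact tendsto_nhds_unique l1 l2
  -- extension
  have hsmall : ∀ (x : E) (ε : ℝ), 0 < ε → ∀ᶠ k : ℕ in atTop, ‖(1 / 2 : ℝ) ^ k • x‖ < ε := by
    intro x ε hε
    have h : Tendsto (fun k : ℕ => ‖(1 / 2 : ℝ) ^ k • x‖) atTop (𝓝 0) := by
      have := (hlim.smul_const x).norm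
      simpa using this
    exact h.eventually (gt_mem_nhds hε)
  have hex : ∀ x : E, ∃ v : E1, ∀ᶠ k : ℕ in atTop, (2 : ℝ) ^ k • Φ ((1 / 2 : ℝ) ^ k • x) = v := by
    intro x
    obtain ⟨n, hn⟩ := (hsmall x δ hδ).exists
    refine ⟨(2 : ℝ) ^ n • Φ ((1 / 2 : ℝ) ^ n • x), ?_⟩
    filter_upwards [eventually_ge_atTop n] with k hk
    obtain ⟨m, rfl⟩ := Nat.exists_eq_add_of_le hk
    rw [← hpow m _ hn, smul_smul, smul_smul, ← pow_add, ← pow_add, add_comm m n]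
  choose D0 hD0 using hex
  have hD0a : ∀ x y, D0 (x + y) = D0 x + D0 y := by
    intro x y
    obtain ⟨k, h1, h2, h3, h4, h5⟩ := ((hD0 x).and ((hD0 y).and ((hD0 (x + y)).and
      ((hsmall x (δ / 2) (by linarith)).and (hsmall y (δ / 2) (by linarith)))))).exists
    rw [← h1, ← h2, ← h3, smul_add ((1 / 2 : ℝ) ^ k), hadd _ _ h4 h5, smul_add]
  have hD0Φ : ∀ x, ‖x‖ < δ → D0 x = Φ x := by
    intro x hx
    obtain ⟨k, hk⟩ := (hD0 x).exists
    rw [← hk, hpow k x hx]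
  have hD0ev : D0 =ᶠ[𝓝 0] Φ := by
    rw [Filter.EventuallyEq, Metric.eventually_nhds_iff]
    exact ⟨δ, hδ, fun y hy => hD0Φ y (by simpa using hy)⟩
  let D1 : E →+ E1 := ⟨⟨D0, by
    have := hD0Φ 0 (by simpa using hδ)
    rw [this, hΦ0]⟩, hD0a⟩
  have hD1c : Continuous D1 := by
    apply continuous_of_continuousAt_zero D1
    have hh : ContinuousAt Φ 0 := gC 0 (by simpa using hδ)
    exact hh.congr hD0ev.symm
  refine ⟨D1.toRealLinearMap hD1c, ?_⟩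
  have hk := k_tendsto C
  filter_upwards [ek_ev C, hk.eventually hD0ev] with a ha hb
  have : (D1.toRealLinearMap hD1c) (C.κ a) = D0 (C.κ a) := rfl
  rw [this, hb, hΦ, ha]

end Pool.Agent.H28.FF.Lie
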