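import Pool.Agent.H28.FF.LieA

/-!
Part LIE, second file: open homomorphisms with compact kernel defined on open subgroups.
-/

namespace Pool.Agent.H28.FF.Lie

open Pool.Agent.W660.GY Pool.Agent.W880.GY Pool.Agent.W660.FL
open Filter Topology
open scoped Pointwise

/-- an open continuous homomorphism with compact kernel from an open subgroup of `G` to `L` -/
structure Mod (G L : Type) [Group G] [TopologicalSpace G] [Group L] [TopologicalSpace L] where
  H : Subgroup G
  p : G → L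
  openH : IsOpen (H : Set G)
  mul : ∀ a ∈ H, ∀ b ∈ H, p (a * b) = p a * p b
  cont : ∀ a ∈ H, ContinuousAt p a
  opn : ∀ U : Set G, IsOpen U → U ⊆ H → IsOpen (p '' U)
  ker : IsCompact {h : G | h ∈ H ∧ p h = 1}

namespace Mod

section Basic

variable {G L : Type} [Group G] [TopologicalSpace G] [Group L] [TopologicalSpace L] (M : Mod G L)

include M

theorem p_one : M.p 1 = 1 := by
  have h := M.mul 1 (one_mem _) 1 (one_mem _)
  simpa using h

theorem p_inv (a : G) (ha : a ∈ M.H) : M.p a⁻¹ = (M.p a)⁻¹ := by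
  have h := M.mul a⁻¹ (inv_mem ha) a ha
  rw [inv_mul_cancel, M.p_one] at h
  exact eq_inv_of_mul_eq_one_left h.symm

theorem mem_nhds : (M.H : Set G) ∈ 𝓝 (1 : G) := M.openH.mem_nhds (one_mem _)

theorem map_nhds (a : G) (ha : a ∈ M.H) : Filter.map M.p (𝓝 a) = 𝓝 (M.p a) := by
  apply le_antisymm (M.cont a ha)
  intro s hs
  rw [Filter.mem_map] at hs
  obtain ⟨t, ht, hto, hta⟩ := mem_nhds_iff.1 hs
  have h1 : IsOpen (M.p '' (t ∩ M.H)) := M.opn _ (hto.inter M.openH) Set.inter_subset_right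
  refine mem_of_superset (h1.mem_nhds ⟨a, ⟨hta, ha⟩, rfl⟩) ?_
  rintro _ ⟨x, hx, rfl⟩
  exact ht hx.1

theorem map_one : Filter.map M.p (𝓝 1) = 𝓝 1 := by
  rw [M.map_nhds 1 (one_mem _), M.p_one]

theorem tendsto_one : Tendsto M.p (𝓝 1) (𝓝 1) := M.map_one.le

theorem isClosed [IsTopologicalGroup G] : IsClosed (M.H : Set G) :=
  Subgroup.isClosed_of_isOpen _ M.openH

theorem proper [IsTopologicalGroup G] [LocallyCompactSpace G] [IsTopologicalGroup L] [T2Space L]
    (C : Set L) (hC : IsCompact C) : IsCompact {h : G | h ∈ M.H ∧ M.p h ∈ C} := by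
  classical
  have hcl : IsClosed {h : G | h ∈ M.H ∧ M.p h ∈ C} := by
    have h1 : ContinuousOn M.p (M.H : Set G) := fun a ha => (M.cont a ha).continuousWithinAt
    exact h1.preimage_isClosed_of_isClosed M.isClosed hC.isClosed
  obtain ⟨U, hU, hUH, hUc⟩ := local_compact_nhds M.mem_nhds
  have hpU : M.p '' (interior U) ∈ 𝓝 (1 : L) := by
    have h1 : IsOpen (M.p '' (interior U)) := M.opn _ isOpen_interior
      (interior_subset.trans hUH)
    exact h1.mem_nhds ⟨1, mem_interior_iff_mem_nhds.2 hU, M.p_one⟩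
  have hx : ∀ c : L, ∃ x : G, (∃ y ∈ M.H, M.p y = c) → x ∈ M.H ∧ M.p x = c := by
    intro c
    by_cases h : ∃ y ∈ M.H, M.p y = c
    · obtain ⟨y, h1, h2⟩ := h
      exact ⟨y, fun _ => ⟨h1, h2⟩⟩
    · exact ⟨1, fun h' => absurd h' h⟩
  choose x hx using hx
  obtain ⟨t, ht, htC⟩ := hC.elim_nhds_subcover (fun c => (fun y => c⁻¹ * y) ⁻¹' (M.p '' interior U))
    (by
      intro c _
      have h1 : Tendsto (fun y => c⁻¹ * y) (𝓝 c) (𝓝 1) := by
        have h2 : Continuous (fun y : L => c⁻¹ * y) := continuous_const_mul _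
        have h3 := h2.tendsto c
        simpa using h3
      exact h1 hpU)
  have hcomp : IsCompact (⋃ c ∈ t, (fun g => x c * g) '' (U * {h : G | h ∈ M.H ∧ M.p h = 1})) := by
    apply t.isCompact_biUnion
    intro c _
    exact (hUc.mul M.ker).image (continuous_const_mul _)
  refine hcomp.of_isClosed_subset hcl ?_
  rintro h ⟨hh, hhC⟩
  obtain ⟨c, hc, hc2⟩ := Set.mem_iUnion₂.1 (htC hhC)
  obtain ⟨u, hu, hu2⟩ := hc2
  have huH : u ∈ M.H := hUH (interior_subset hu)
  have hc3 : ∃ y ∈ M.H, M.p y = c := by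
    refine ⟨h * u⁻¹, mul_mem hh (inv_mem huH), ?_⟩
    rw [M.mul h hh _ (inv_mem huH), M.p_inv u huH, hu2]
    simp
  obtain ⟨hx1, hx2⟩ := hx c hc3
  refine Set.mem_iUnion₂.2 ⟨c, hc, u * (u⁻¹ * (x c)⁻¹ * h), ?_, by group⟩
  have hm : (x c)⁻¹ ∈ M.H := inv_mem hx1
  refine Set.mul_mem_mul (interior_subset hu) ⟨mul_mem (mul_mem (inv_mem huH) hm) hh, ?_⟩
  rw [M.mul _ (mul_mem (inv_mem huH) hm) h hh, M.mul _ (inv_mem huH) _ hm, M.p_inv _ huH,
    M.p_inv _ hx1, hu2, hx2]
  simp

end Basic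

/-- composition -/
def comp {G G' L : Type} [Group G] [TopologicalSpace G] [IsTopologicalGroup G]
    [LocallyCompactSpace G] [Group G'] [TopologicalSpace G'] [IsTopologicalGroup G'] [T2Space G']
    [Group L] [TopologicalSpace L] (M : Mod G G') (M' : Mod G' L) : Mod G L where
  H :=
    { carrier := {h | h ∈ M.H ∧ M.p h ∈ M'.H}
      mul_mem' := by
        rintro a b ⟨h1, h2⟩ ⟨h3, h4⟩
        refine ⟨mul_mem h1 h3, ?_⟩
        rw [M.mul a h1 b h3]
        exact mul_mem h2 h4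
      one_mem' := ⟨one_mem _, by rw [M.p_one]; exact one_mem _⟩
      inv_mem' := by
        rintro a ⟨h1, h2⟩
        refine ⟨inv_mem h1, ?_⟩
        rw [M.p_inv a h1]
        exact inv_mem h2 }
  p := fun g => M'.p (M.p g)
  openH := by
    have h1 : ContinuousOn M.p (M.H : Set G) := fun a ha => (M.cont a ha).continuousWithinAt
    exact h1.isOpen_inter_preimage M.openH M'.openH
  mul := by
    rintro a ⟨h1, h2⟩ b ⟨h3, h4⟩
    rw [M.mul a h1 b h3, M'.mul _ h2 _ h4]
  cont := by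
    rintro a ⟨h1, h2⟩
    exact ContinuousAt.comp (f := M.p) (g := M'.p) (M'.cont _ h2) (M.cont a h1)
  opn := by
    intro U hU hUH
    have h1 : (fun g => M'.p (M.p g)) '' U = M'.p '' (M.p '' U) := by
      rw [Set.image_image]
    rw [h1]
    refine M'.opn _ (M.opn U hU fun x hx => (hUH hx).1) ?_
    rintro _ ⟨x, hx, rfl⟩
    exact (hUH hx).2
  ker := by
    have h1 := M.proper _ M'.ker
    have h2 : {h : G | h ∈ M.H ∧ M.p h ∈ {g | g ∈ M'.H ∧ M'.p g = 1}} =
      {h : G | (h ∈ M.H ∧ M.p h ∈ M'.H) ∧ M'.p (M.p h) = 1} := by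
      ext h
      simp only [Set.mem_ofPred_eq]
      tauto
    rw [h2] at h1
    exact h1

/-- open subgroups -/
noncomputable def sub {G : Type} [Group G] [TopologicalSpace G] [IsTopologicalGroup G]
    (H : Subgroup G) (ho : IsOpen (H : Set G)) : Mod G H where
  H := H
  p := by classical exact fun g => if h : g ∈ H then ⟨g, h⟩ else 1
  openH := ho
  mul := by
    intro a ha b hb
    simp only [dif_pos ha, dif_pos hb, dif_pos (mul_mem ha hb)]
    rfl
  cont := by
    classical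
    intro a ha
    have h1 : IsOpenEmbedding (Subtype.val : H → G) := ho.isOpenEmbedding_subtypeVal
    have h2 := h1.continuousAt_iff (f := (Subtype.val : H → G))
      (g := fun g => if h : g ∈ H then (⟨g, h⟩ : H) else 1) (x := ⟨a, ha⟩)
    refine h2.1 ?_
    have h3 : ((fun g => if h : g ∈ H then (⟨g, h⟩ : H) else 1) ∘ (Subtype.val : H → G)) = id := by
      funext x
      simp
    rw [h3]
    exact continuousAt_id
  opn := by
    classical
    intro U hU hUH
    have h1 : (fun g => if h : g ∈ H then (⟨g, h⟩ : H) else 1) '' U = Subtype.val ⁻¹' U := by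
      ext x
      constructor
      · rintro ⟨g, hg, rfl⟩
        have : g ∈ H := hUH hg
        simp only [dif_pos this]
        exact hg
      · intro hx
        exact ⟨x, hx, by simp⟩
    have h2 : IsOpen (Subtype.val ⁻¹' U : Set H) := hU.preimage continuous_subtype_val
    rw [← h1] at h2
    exact h2
  ker := by
    classical
    have h1 : {h : G | h ∈ H ∧ (fun g => if h : g ∈ H then (⟨g, h⟩ : H) else 1) h = 1} = {1} := by
      ext x
      simp only [Set.mem_ofPred_eq, Set.mem_singleton_iff]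
      constructor
      · rintro ⟨h1, h2⟩
        rw [dif_pos h1] at h2
        exact congrArg Subtype.val h2
      · rintro rfl
        exact ⟨one_mem _, by rw [dif_pos (one_mem H)]; rfl⟩
    have h2 : IsCompact ({1} : Set G) := isCompact_singleton
    rw [← h1] at h2
    exact h2

theorem sub_p {G : Type} [Group G] [TopologicalSpace G] [IsTopologicalGroup G]
    (H : Subgroup G) (ho : IsOpen (H : Set G)) (g : G) (hg : g ∈ H) :
    (sub H ho).p g = ⟨g, hg⟩ := by
  classical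
  show (if h : g ∈ H then (⟨g, h⟩ : H) else 1) = _
  rw [dif_pos hg]

/-- quotients by compact normal subgroups -/
def quot {G : Type} [Group G] [TopologicalSpace G] [IsTopologicalGroup G]
    (N : Subgroup G) [N.Normal] (hN : IsCompact (N : Set G)) : Mod G (G ⧸ N) where
  H := ⊤
  p := fun g => (g : G ⧸ N)
  openH := isOpen_univ
  mul := fun a _ b _ => rfl
  cont := fun a _ => continuous_quotient_mk'.continuousAt
  opn := fun U hU _ => QuotientGroup.isOpenMap_coe U hU
  ker := by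
    have h1 : {h : G | h ∈ (⊤ : Subgroup G) ∧ ((h : G ⧸ N)) = 1} = N := by
      ext h
      simp
    rw [h1]
    exact hN

/-- conjugation -/
def conj {G L : Type} [Group G] [TopologicalSpace G] [IsTopologicalGroup G] [Group L]
    [TopologicalSpace L] (M : Mod G L) (r : G) : Mod G L where
  H :=
    { carrier := {g | r * g * r⁻¹ ∈ M.H}
      mul_mem' := by
        intro a b h1 h2
        have h3 : r * (a * b) * r⁻¹ = (r * a * r⁻¹) * (r * b * r⁻¹) := by group
        show r * (a * b) * r⁻¹ ∈ M.H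
        rw [h3]
        exact mul_mem h1 h2
      one_mem' := by
        show r * 1 * r⁻¹ ∈ M.H
        simp
      inv_mem' := by
        intro a h1
        have h3 : r * a⁻¹ * r⁻¹ = (r * a * r⁻¹)⁻¹ := by group
        show r * a⁻¹ * r⁻¹ ∈ M.H
        rw [h3]
        exact inv_mem h1 }
  p := fun g => M.p (r * g * r⁻¹)
  openH := by
    have h1 : Continuous (fun g : G => r * g * r⁻¹) := by fun_prop
    exact M.openH.preimage h1
  mul := by
    intro a ha b hb
    have h3 : r * (a * b) * r⁻¹ = (r * a * r⁻¹) * (r * b * r⁻¹) := by group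
    show M.p (r * (a * b) * r⁻¹) = _
    rw [h3]
    exact M.mul _ ha _ hb
  cont := by
    intro a ha
    have h1 : Continuous (fun g : G => r * g * r⁻¹) := by fun_prop
    exact ContinuousAt.comp (f := fun g : G => r * g * r⁻¹) (g := M.p) (M.cont _ ha)
      h1.continuousAt
  opn := by
    intro U hU hUH
    have h1 : (fun g => M.p (r * g * r⁻¹)) '' U = M.p '' ((fun g : G => r⁻¹ * g * r) ⁻¹' U) := by
      ext x
      constructor
      · rintro ⟨g, hg, rfl⟩
        refine ⟨r * g * r⁻¹, ?_, rfl⟩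
        show r⁻¹ * (r * g * r⁻¹) * r ∈ U
        have : r⁻¹ * (r * g * r⁻¹) * r = g := by group
        rw [this]; exact hg
      · rintro ⟨g, hg, rfl⟩
        refine ⟨r⁻¹ * g * r, hg, ?_⟩
        show M.p (r * (r⁻¹ * g * r) * r⁻¹) = M.p g
        congr 1
        group
    rw [h1]
    have h2 : Continuous (fun g : G => r⁻¹ * g * r) := by fun_prop
    refine M.opn _ (hU.preimage h2) ?_
    intro g hg
    have h3 : r * (r⁻¹ * g * r) * r⁻¹ ∈ M.H := hUH hg
    have h4 : r * (r⁻¹ * g * r) * r⁻¹ = g := by group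
    rw [h4] at h3
    exact h3
  ker := by
    have h1 : {h : G | r * h * r⁻¹ ∈ M.H ∧ M.p (r * h * r⁻¹) = 1} =
        (fun g => r⁻¹ * g * r) '' {h : G | h ∈ M.H ∧ M.p h = 1} := by
      ext x
      constructor
      · intro hx
        exact ⟨r * x * r⁻¹, hx, by group⟩
      · rintro ⟨g, hg, rfl⟩
        have h4 : r * (r⁻¹ * g * r) * r⁻¹ = g := by group
        show r * (r⁻¹ * g * r) * r⁻¹ ∈ M.H ∧ M.p (r * (r⁻¹ * g * r) * r⁻¹) = 1
        rw [h4]
        exact hg
    have h2 : Continuous (fun g : G => r⁻¹ * g * r) := by fun_prop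
    have h3 := M.ker.image h2
    rw [← h1] at h3
    exact h3

end Mod

/-- the derivative of one homomorphism with respect to another one -/
theorem der {G L L1 : Type} [Group G] [TopologicalSpace G] [IsTopologicalGroup G]
    [Group L] [TopologicalSpace L] [Group L1] [TopologicalSpace L1]
    {E E1 : Type} [NormedAddCommGroup E] [NormedSpace ℝ E] [NormedAddCommGroup E1]
    [NormedSpace ℝ E1] (C : CS L E) (C1 : CS L1 E1) (M : Mod G L) (M1 : Mod G L1)
    (hk : ∀ᶠ h in 𝓝 (1 : G), M.p h = 1 → M1.p h = 1) :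
    ∃ D : E →L[ℝ] E1, ∀ᶠ h in 𝓝 (1 : G), C1.κ (M1.p h) = D (C.κ (M.p h)) := by
  classical
  obtain ⟨U, hUo, hU1, hUH, hUH1, hUk⟩ : ∃ U : Set G, IsOpen U ∧ 1 ∈ U ∧ U ⊆ M.H ∧ U ⊆ M1.H ∧
      ∀ a ∈ U, ∀ b ∈ U, M.p (a⁻¹ * b) = 1 → M1.p (a⁻¹ * b) = 1 := by
    have h1 : Tendsto (fun q : G × G => q.1⁻¹ * q.2) (𝓝 ((1 : G), (1 : G))) (𝓝 1) := by
      have h2 : Continuous (fun q : G × G => q.1⁻¹ * q.2) := by fun_prop
      have h3 := h2.tendsto ((1 : G), (1 : G))
      simpa using h3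
    have h2 := h1.eventually hk
    obtain ⟨u, hu, v, hv, huv⟩ := mem_nhds_prod_iff.1 h2
    obtain ⟨W, hW, hWo, hW1⟩ := mem_nhds_iff.1 (inter_mem (inter_mem hu hv)
      (inter_mem M.mem_nhds M1.mem_nhds))
    refine ⟨W, hWo, hW1, fun x hx => (hW hx).2.1, fun x hx => (hW hx).2.2, ?_⟩
    intro a ha b hb
    exact huv (Set.mk_mem_prod (hW ha).1.1 (hW hb).1.2)
  obtain ⟨V, hVo, hV1, hVU⟩ := exists_open_nhds_one_mul_subset (hUo.mem_nhds hU1)
  have hVU' : V ⊆ U := fun x hx => hVU ⟨x, hx, 1, hV1, by simp⟩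
  obtain ⟨φ, hφ⟩ : ∃ φ : L → L1, ∀ g ∈ U, φ (M.p g) = M1.p g := by
    have hex : ∀ a : L, ∃ b : L1, ∀ g ∈ U, M.p g = a → M1.p g = b := by
      intro a
      by_cases h : ∃ g ∈ U, M.p g = a
      · obtain ⟨g0, hg0, hg0a⟩ := h
        refine ⟨M1.p g0, ?_⟩
        intro g hg hga
        have h1 : M.p (g0⁻¹ * g) = 1 := by
          rw [M.mul _ (inv_mem (hUH hg0)) _ (hUH hg), M.p_inv _ (hUH hg0), hg0a, hga]
          simp
        have h2 := hUk g0 hg0 g hg h1
        rw [M1.mul _ (inv_mem (hUH1 hg0)) _ (hUH1 hg), M1.p_inv _ (hUH1 hg0)] at h2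
        exact (inv_mul_eq_one.1 h2).symm
      · exact ⟨1, fun g hg hga => absurd ⟨g, hg, hga⟩ h⟩
    choose φ hφ using hex
    exact ⟨φ, fun g hg => (hφ _ g hg rfl).symm⟩
  have hVn : M.p '' V ∈ 𝓝 (1 : L) := by
    rw [← M.map_one]
    exact image_mem_map (hVo.mem_nhds hV1)
  have hm : ∀ᶠ q in 𝓝 ((1 : L), (1 : L)), φ (q.1 * q.2) = φ q.1 * φ q.2 := by
    rw [nhds_prod_eq]
    filter_upwards [prod_mem_prod hVn hVn]
    rintro ⟨_, _⟩ ⟨⟨a, ha, rfl⟩, ⟨b, hb, rfl⟩⟩
    have ha' := hVU' ha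
    have hb' := hVU' hb
    show φ (M.p a * M.p b) = φ (M.p a) * φ (M.p b)
    rw [← M.mul a (hUH ha') b (hUH hb'), hφ _ (hVU ⟨a, ha, b, hb, rfl⟩), hφ a ha', hφ b hb',
      M1.mul a (hUH1 ha') b (hUH1 hb')]
  have hc : ∀ᶠ a in 𝓝 (1 : L), ContinuousAt φ a := by
    filter_upwards [hVn]
    rintro _ ⟨a, ha, rfl⟩
    have ha' := hVU' ha
    have h1 : φ ∘ M.p =ᶠ[𝓝 a] M1.p := by
      filter_upwards [hUo.mem_nhds ha'] with x hx
      exact hφ x hx
    unfold ContinuousAt
    rw [← M.map_nhds a (hUH ha'), hφ a ha', Filter.tendsto_map'_iff]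
    exact (M1.cont a (hUH1 ha')).congr' h1.symm
  obtain ⟨D, hD⟩ := der0 C C1 φ hm hc
  refine ⟨D, ?_⟩
  filter_upwards [M.tendsto_one.eventually hD, hUo.mem_nhds hU1] with h h1 h2
  rw [← h1, hφ h h2]

end Pool.Agent.H28.FF.Lie
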