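import Pool.Agent.H28.FF.OEM

/-!
# The measure equivalence
-/

namespace Pool.Agent.H28.FF

open MeasureTheory Measure Set

/-! ### the shift -/

/-- the space of the shift -/
abbrev YY : Type := CC MM

/-- the shift -/
noncomputable def shG (g : MM) (y : YY) : YY := fun h => y (g⁻¹ * h)

theorem shG_one (y : YY) : shG 1 y = y := by
  funext h; simp [shG]

theorem shG_mul (g g' : MM) (y : YY) : shG (g * g') y = shG g (shG g' y) := by
  funext h; simp [shG, mul_assoc]

theorem mp_shG (g : MM) : MeasurePreserving (shG g) (hm MM) (hm MM) :=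
  mp_perm (Equiv.mulLeft g⁻¹)

/-- fixed points -/
def fixG (g : MM) : AddSubgroup YY where
  carrier := {y | shG g y = y}
  zero_mem' := rfl
  add_mem' := fun {a b} ha hb => by
    have h1 : shG g (a + b) = shG g a + shG g b := rfl
    change shG g (a + b) = a + b
    rw [h1, ha, hb]
  neg_mem' := fun {a} ha => by
    have h1 : shG g (-a) = - shG g a := rfl
    change shG g (-a) = - a
    rw [h1, ha]

theorem null_fixG (g : MM) (hg : g ≠ 1) : hm MM (fixG g : Set YY) = 0 := by
  classical
  have hinj : ∀ m n : ℕ, g ^ m = g ^ n → m = n := by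
    have key : ∀ m n : ℕ, m < n → g ^ m ≠ g ^ n := by
      intro m n hmn h
      apply hg
      refine tf_MM g (n - m) (by omega) ?_
      rw [pow_sub _ hmn.le, h, mul_inv_cancel]
    intro m n h
    rcases lt_trichotomy m n with h1 | h1 | h1
    · exact absurd h (key m n h1)
    · exact h1
    · exact absurd h.symm (key n m h1)
  refine null_of_seq _ ?_ (fun k => Pi.single (g ^ k) 1) ?_
  · exact measurableSet_eq_fun (mp_shG g).measurable measurable_id
  · intro m n hmn h
    set y : YY := Pi.single (g ^ m) 1 - Pi.single (g ^ n) 1 with hy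
    have h1 : ∀ x, y (g⁻¹ * x) = y x := fun x => congrFun h x
    have h2 : ∀ k : ℕ, y (g ^ (m + k)) = y (g ^ m) := by
      intro k
      induction k with
      | zero => rfl
      | succ k ih =>
        rw [← ih, ← h1 (g ^ (m + (k + 1)))]
        congr 1
        rw [← add_assoc, pow_succ', inv_mul_cancel_left]
    have h3 : y (g ^ m) = 1 := by
      rw [hy, Pi.sub_apply, Pi.single_eq_same, Pi.single_eq_of_ne, sub_zero]
      intro h4
      exact hmn (hinj _ _ h4)
    have h4 : y (g ^ (m + (n + 1))) = 0 := by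
      rw [hy, Pi.sub_apply, Pi.single_eq_of_ne, Pi.single_eq_of_ne, sub_zero]
      · intro h5
        have := hinj _ _ h5
        omega
      · intro h5
        have := hinj _ _ h5
        omega
    rw [h2, h3] at h4
    exact absurd h4 (by decide)

/-- free part -/
def YS : Set YY := {y | ∀ g : MM, g ≠ 1 → shG g y ≠ y}

theorem measurableSet_YS : MeasurableSet YS := by
  unfold YS
  simp only [setOf_forall]
  refine MeasurableSet.iInter fun g => MeasurableSet.iInter fun _ => ?_
  exact (measurableSet_eq_fun (mp_shG g).measurable measurable_id).compl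

theorem null_YS : hm MM YSᶜ = 0 := by
  have h1 : YSᶜ ⊆ ⋃ g : MM, ⋃ _ : g ≠ 1, (fixG g : Set YY) := by
    intro y hy
    unfold YS at hy
    simp only [mem_compl_iff, mem_setOf_eq, not_forall, not_not] at hy
    obtain ⟨g, hg, h⟩ := hy
    exact mem_iUnion₂.2 ⟨g, hg, h⟩
  refine measure_mono_null h1 ?_
  refine measure_iUnion_null fun g => measure_iUnion_null fun hg => null_fixG g hg

theorem YS_iff (g : MM) (y : YY) : y ∈ YS ↔ shG g y ∈ YS := by
  have key : ∀ (g : MM) (y : YY), y ∈ YS → shG g y ∈ YS := by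
    intro g y hy k hk h
    refine hy (g⁻¹ * k * g) ?_ ?_
    · intro h1
      apply hk
      have : k = g * (g⁻¹ * k * g) * g⁻¹ := by group
      rw [this, h1]; group
    · rw [shG_mul, shG_mul, h, ← shG_mul, inv_mul_cancel, shG_one]
  constructor
  · exact key g y
  · intro h
    have := key g⁻¹ _ h
    rwa [← shG_mul, inv_mul_cancel, shG_one] at this

/-! ### the space `Z₀` -/

/-- the subset -/
def ZS : Set (XX × YY) := {p | p.1 ∈ XS ∧ p.2 ∈ YS}

theorem measurableSet_ZS : MeasurableSet ZS :=
  (measurable_fst measurableSet_XS).inter (measurable_snd measurableSet_YS)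

theorem null_ZS : ((hm (ℕ × Bool × ℕ)).prod (hm MM)) ZSᶜ = 0 := by
  have h1 : ZSᶜ ⊆ (XSᶜ ×ˢ univ) ∪ (univ ×ˢ YSᶜ) := by
    rintro ⟨x, y⟩ h
    by_cases hx : x ∈ XS
    · right
      refine ⟨mem_univ _, fun hy => h ⟨hx, hy⟩⟩
    · left
      exact ⟨hx, mem_univ _⟩
  refine measure_mono_null h1 (measure_union_null ?_ ?_)
  · rw [Measure.prod_prod, null_XS, zero_mul]
  · rw [Measure.prod_prod, null_YS, mul_zero]

/-- the space -/
abbrev Z0 : Type := ZS

/-- its measure -/
noncomputable def mu0 : Measure Z0 := ((hm (ℕ × Bool × ℕ)).prod (hm MM)).comap Subtype.val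

instance : IsProbabilityMeasure mu0 := prob_restrict measurableSet_ZS null_ZS

instance : StandardBorelSpace Z0 := measurableSet_ZS.standardBorel

/-- the action upstairs -/
noncomputable def smP (m : MM) (p : XX × YY) : XX × YY := (m.right • p.1, shG m p.2)

theorem smP_iff (m : MM) (p : XX × YY) : p ∈ ZS ↔ smP m p ∈ ZS :=
  and_congr (smul_mem_XS_iff _ _) (YS_iff _ _)

theorem mp_smP (m : MM) : MeasurePreserving (smP m) ((hm (ℕ × Bool × ℕ)).prod (hm MM))
    ((hm (ℕ × Bool × ℕ)).prod (hm MM)) :=
  (mp_smX m.right).prod (mp_shG m)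

noncomputable instance actZ : MulAction MM Z0 where
  smul m z := ⟨smP m z.1, (smP_iff m z.1).1 z.2⟩
  one_smul z := by
    refine Subtype.ext ?_
    change smP 1 z.1 = z.1
    unfold smP
    rw [shG_one, SemidirectProduct.one_right, one_smul]
  mul_smul m m' z := by
    refine Subtype.ext ?_
    change smP (m * m') z.1 = smP m (smP m' z.1)
    unfold smP
    rw [shG_mul, SemidirectProduct.mul_right, mul_smul]

theorem mp_Z0 (m : MM) : MeasurePreserving (fun z : Z0 => m • z) mu0 mu0 :=
  mp_restrict measurableSet_ZS (smP m) (mp_smP m) (smP_iff m)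

/-- the projection -/
def piZ (z : Z0) : XX := z.1.1

theorem ext_Z0 : Ext Z0 piZ where
  free := by
    intro g hg z h
    have h1 : shG g z.1.2 = z.1.2 := congrArg (fun z : Z0 => z.1.2) h
    exact z.2.2 g hg h1
  mem := fun z => z.2.1
  equi := fun m z => rfl

theorem measurable_piZ : Measurable piZ := measurable_fst.comp measurable_subtype_coe

/-! ### the space `V = P × Z₀` -/

/-- the space -/
structure VV where
  /-- the first coordinate -/
  q : CC ℕ
  /-- the second coordinate -/
  z : Z0

/-- equivalence with pairs -/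
def eqV : VV ≃ CC ℕ × Z0 where
  toFun v := (v.q, v.z)
  invFun p := ⟨p.1, p.2⟩
  left_inv _ := rfl
  right_inv _ := rfl

/-- an abbreviation -/
abbrev V2 : Type := CC ℕ × Z0

/-- the translation -/
noncomputable def tr (s : MM) : CC ℕ := Multiplicative.toAdd (pM s)

noncomputable instance actV : MulAction MM V2 where
  smul s v := (v.1 + tr s, s • v.2)
  one_smul v := by
    change (v.1 + tr 1, (1 : MM) • v.2) = v
    unfold tr
    rw [map_one, toAdd_one, add_zero, one_smul]
  mul_smul s s' v := by
    change (v.1 + tr (s * s'), (s * s') • v.2) = ((v.1 + tr s') + tr s, s • s' • v.2)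
    unfold tr
    rw [map_mul, toAdd_mul, mul_smul, add_assoc, add_comm (Multiplicative.toAdd (pM s))]

theorem smulV (s : MM) (v : V2) : s • v = (v.1 + tr s, s • v.2) := rfl

/-- its measure -/
noncomputable def muV : Measure V2 := (hm ℕ).prod mu0

instance : IsProbabilityMeasure muV := by unfold muV; infer_instance

theorem mp_V (s : MM) : MeasurePreserving (fun v : V2 => s • v) muV muV :=
  (mp_add (tr s)).prod (mp_Z0 s)

/-- the projection -/
def piV (v : V2) : XX := piZ v.2

theorem ext_V : Ext V2 piV where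
  free := by
    intro g hg z h
    exact ext_Z0.free g hg z.2 (congrArg Prod.snd h)
  mem := fun z => ext_Z0.mem z.2
  equi := fun m z => rfl

theorem measurable_piV : Measurable piV := measurable_piZ.comp measurable_snd

/-! ### the action of `Γ` -/

/-- the twisted element -/
noncomputable def twi (n : MM) (q : CC ℕ) : MM := (actM (Multiplicative.ofAdd q))⁻¹ n

theorem measurable_actA (a : KA) : Measurable (fun q : CC ℕ => actA (Multiplicative.ofAdd q) a) := by
  refine measurable_to_countable' fun b => ?_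
  have : (fun q : CC ℕ => actA (Multiplicative.ofAdd q) a) ⁻¹' {b} =
      ⋂ i, {q : CC ℕ | (sz (q i) : ℤ) * a.v i = b.v i ∧ a.w i = b.w i} := by
    ext q
    simp only [mem_preimage, mem_singleton_iff, mem_iInter, mem_setOf_eq]
    constructor
    · rintro rfl i
      exact ⟨rfl, rfl⟩
    · intro h
      ext i
      · exact (h i).1
      · exact (h i).2
  rw [this]
  refine MeasurableSet.iInter fun i => ?_
  have h2 : {q : CC ℕ | (sz (q i) : ℤ) * a.v i = b.v i ∧ a.w i = b.w i} =
    (fun q : CC ℕ => q i) ⁻¹' {z | (sz z : ℤ) * a.v i = b.v i ∧ a.w i = b.w i} := rfl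
  rw [h2]
  exact (measurable_pi_apply i) (MeasurableSet.of_discrete)

theorem measurable_twi (n : MM) : Measurable (twi n) := by
  have h1 : Measurable (fun q : CC ℕ => actM (Multiplicative.ofAdd q) n) := by
    have h2 : Measurable (fun q : CC ℕ => FreeGroup.map (fun a => actA (Multiplicative.ofAdd q) a) n.left) :=
      measurable_map (fun (q : CC ℕ) (a : KA) => actA (Multiplicative.ofAdd q) a)
        (fun a => measurable_actA a) n.left
    have h3 := measurable_actA n.right
    have h4 := (Measurable.of_discrete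
      (f := fun p : FreeGroup KA × KA => (⟨p.1, p.2⟩ : MM))).comp (h2.prodMk h3)
    exact h4
  have h5 : twi n = (fun q : CC ℕ => actM (Multiplicative.ofAdd q) n) ∘ (fun q => -q) := by
    funext q
    unfold twi
    rw [← map_inv]
    rfl
  rw [h5]
  exact h1.comp measurable_neg

/-- the space -/
abbrev ZZ : Type := V2 × Z0

/-- the action -/
noncomputable def smG (g : GG) (p : ZZ) : ZZ := (g.right • p.1, twi g.left (g.right • p.1).1 • p.2)

theorem twi_mul (n n' : MM) (s : MM) (q : CC ℕ) :
    twi (n * (actM.comp pM) s n') (q + tr s) = twi n (q + tr s) * twi n' q := by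
  have e1 : (Multiplicative.ofAdd (q + tr s) : PP) = pM s * Multiplicative.ofAdd q := by
    rw [ofAdd_add, mul_comm]; rfl
  have e2 : (actM (Multiplicative.ofAdd (q + tr s)))⁻¹ * actM (pM s) =
      (actM (Multiplicative.ofAdd q))⁻¹ := by
    rw [e1, map_mul, mul_inv_rev, mul_assoc, inv_mul_cancel, mul_one]
  have e3 : twi ((actM.comp pM) s n') (q + tr s) = twi n' q := by
    unfold twi
    rw [MonoidHom.comp_apply, ← e2]
    rfl
  rw [← e3]
  exact map_mul ((actM (Multiplicative.ofAdd (q + tr s)))⁻¹) n _

theorem smG_one (p : ZZ) : smG 1 p = p := by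
  unfold smG
  rw [SemidirectProduct.one_right, SemidirectProduct.one_left, one_smul]
  have : ∀ q, twi 1 q = 1 := fun q => by unfold twi; rw [map_one]
  rw [this, one_smul]

theorem smG_mul (g g' : GG) (p : ZZ) : smG (g * g') p = smG g (smG g' p) := by
  unfold smG
  refine Prod.ext ?_ ?_
  · simp only [SemidirectProduct.mul_right, mul_smul]
  · simp only [SemidirectProduct.mul_right, SemidirectProduct.mul_left, mul_smul]
    have h1 : (g.right • g'.right • p.1).1 = (g'.right • p.1).1 + tr g.right := rfl
    rw [h1, twi_mul, mul_smul]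

/-- the action as an instance -/
noncomputable def actG : MulAction GG ZZ where
  smul := smG
  one_smul := smG_one
  mul_smul := smG_mul

theorem mp_smG (g : GG) : MeasurePreserving (smG g) (muV.prod mu0) (muV.prod mu0) := by
  refine MeasurePreserving.skew_product (g := fun (v : V2) (z : Z0) => twi g.left (g.right • v).1 • z)
    (mp_V g.right) ?_ ?_
  · refine measurable_smul_fun (G := MM) (fun m => (mp_Z0 m).measurable) ?_ measurable_snd
    exact (measurable_twi g.left).comp (measurable_fst.comp ((mp_V g.right).measurable.comp measurable_fst))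
  · exact Filter.Eventually.of_forall fun v => (mp_Z0 _).map_eq

theorem smG_free (g : GG) (hg : g ≠ 1) (p : ZZ) : smG g p ≠ p := by
  intro h
  apply hg
  have h1 : g.right • p.1 = p.1 := congrArg Prod.fst h
  have h2 : g.right = 1 := by
    by_contra h3
    exact ext_V.free _ h3 _ h1
  have h3 : twi g.left (g.right • p.1).1 • p.2 = p.2 := congrArg Prod.snd h
  have h4 : twi g.left (g.right • p.1).1 = 1 := by
    by_contra h5
    exact ext_Z0.free _ h5 _ h3
  have h5 : g.left = 1 := by
    unfold twi at h4
    exact (map_eq_one_iff _ (MulEquiv.injective _)).1 h4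
  exact SemidirectProduct.ext h5 h2

theorem smG_orb (p r : ZZ) : (∃ g : GG, smG g p = r) ↔
    (∃ s : MM, s • p.1 = r.1) ∧ (∃ n : MM, n • p.2 = r.2) := by
  constructor
  · rintro ⟨g, rfl⟩
    exact ⟨⟨g.right, rfl⟩, ⟨_, rfl⟩⟩
  · rintro ⟨⟨s, hs⟩, ⟨n, hn⟩⟩
    refine ⟨⟨actM (Multiplicative.ofAdd (s • p.1).1) n, s⟩, ?_⟩
    refine Prod.ext hs ?_
    change twi (actM (Multiplicative.ofAdd (s • p.1).1) n) (s • p.1).1 • p.2 = r.2
    unfold twi
    rw [← hn]
    congr 1
    exact MulAut.inv_apply_self _ _ _

theorem me_GG : MeasureEquivalent GG (F2 × F2) := by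
  obtain ⟨a1, hm1, hf1, ho1⟩ := oem ext_V (fun g => (mp_V g).measurable) measurable_piV
  obtain ⟨a2, hm2, hf2, ho2⟩ := oem ext_Z0 (fun g => (mp_Z0 g).measurable) measurable_piZ
  letI := actG
  letI aP : MulAction (F2 × F2) ZZ :=
    { smul := fun l p => (l.1 • p.1, l.2 • p.2)
      one_smul := fun p => by
        change ((1 : F2) • p.1, (1 : F2) • p.2) = p
        rw [one_smul, one_smul]
      mul_smul := fun l l' p => by
        change ((l.1 * l'.1) • p.1, (l.2 * l'.2) • p.2) = (l.1 • l'.1 • p.1, l.2 • l'.2 • p.2)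
        rw [mul_smul, mul_smul] }
  refine t_OEME GG (F2 × F2) ZZ (muV.prod mu0) mp_smG ?_ smG_free ?_ ?_
  · intro l
    exact ((hm1 l.1).comp measurable_fst).prodMk ((hm2 l.2).comp measurable_snd)
  · intro l hl p h
    apply hl
    have h1 : l.1 = 1 := by
      by_contra h2
      exact hf1 _ h2 p.1 (congrArg Prod.fst h)
    have h2 : l.2 = 1 := by
      by_contra h3
      exact hf2 _ h3 p.2 (congrArg Prod.snd h)
    exact Prod.ext h1 h2
  · intro p r
    refine (smG_orb p r).trans ?_
    rw [ho1, ho2]
    constructor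
    · rintro ⟨⟨l, hl⟩, ⟨l', hl'⟩⟩
      exact ⟨(l, l'), Prod.ext hl hl'⟩
    · rintro ⟨l, rfl⟩
      exact ⟨⟨l.1, rfl⟩, ⟨l.2, rfl⟩⟩

end Pool.Agent.H28.FF
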