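import Mathlib

/-!
# The groups `Mg A = F(A) ⋊ A`

`A` acts on the free group `F(A)` by left multiplications of the generators. (So `Mg A` is the free product of
`A` and an infinite cyclic group.)
-/

namespace Pool.Agent.H28.FF

open FreeGroup hiding map_one map_mul map_inv

variable {A : Type} [Group A]

/-- the last letter of the reduced word -/
noncomputable def lst {α : Type} [DecidableEq α] (x : FreeGroup α) : Option (α × Bool) :=
  x.toWord.getLast?

section word
variable {α : Type} [DecidableEq α]

theorem toWord_mk_cons_mul (a : α × Bool) (y : FreeGroup α) :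
    (mk [a] * y).toWord = reduce (a :: y.toWord) := by
  rw [toWord_mul, toWord_mk, reduce_singleton, List.singleton_append]

theorem step (a : α × Bool) (y : FreeGroup α) (hy : y ≠ 1) (h : mk [a] * y ≠ 1) :
    lst (mk [a] * y) = lst y ∧ y.toWord.length ≤ (mk [a] * y).toWord.length + 1 := by
  have h1 := toWord_mk_cons_mul a y
  rw [reduce.cons, reduce_toWord] at h1
  have hyw : y.toWord ≠ [] := fun h => hy (toWord_eq_nil_iff.1 h)
  have hw : (mk [a] * y).toWord ≠ [] := fun h' => h (toWord_eq_nil_iff.1 h')
  unfold lst
  generalize (mk [a] * y).toWord = t at h1 hw ⊢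
  generalize y.toWord = s at h1 hyw ⊢
  cases s with
  | nil => exact absurd rfl hyw
  | cons hd tl =>
    simp only at h1
    split_ifs at h1 with hc
    · subst h1
      constructor
      · cases t with
        | nil => exact absurd rfl hw
        | cons x t => simp
      · simp
    · subst h1
      constructor
      · simp
      · simp

theorem lst_mk_mul (L : List (α × Bool)) : ∀ y : FreeGroup α, L.length ≤ y.toWord.length →
    mk L * y ≠ 1 → lst (mk L * y) = lst y := by
  induction L using List.reverseRecOn with
  | nil => intro y _ _; rw [← one_eq_mk, one_mul]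
  | append_singleton L a ih =>
    intro y hl hne
    have e : mk (L ++ [a]) * y = mk L * (mk [a] * y) := by
      rw [← mul_assoc, mul_mk]
    rw [e] at hne ⊢
    simp only [List.length_append, List.length_singleton] at hl
    have hy : y ≠ 1 := by
      rintro rfl
      simp at hl
    by_cases h1 : mk [a] * y = 1
    · have hy' : y = (mk [a])⁻¹ := by
        exact (inv_eq_of_mul_eq_one_right h1).symm
      have hl' : y.toWord.length = 1 := by
        rw [hy', toWord_inv]
        simp [invRev]
      have hL : L = [] := by
        rw [← List.length_eq_zero_iff]; omega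
      rw [hL, h1, mul_one, ← one_eq_mk] at hne
      exact absurd rfl hne
    · obtain ⟨h2, h3⟩ := step a y hy h1
      rw [ih _ (by omega) hne, h2]

theorem lst_mul (x y : FreeGroup α) (h : x.toWord.length ≤ y.toWord.length) (hne : x * y ≠ 1) :
    lst (x * y) = lst y := by
  have := lst_mk_mul x.toWord y h (by rwa [mk_toWord])
  rwa [mk_toWord] at this

theorem toWord_map_equiv (f : α ≃ α) (x : FreeGroup α) :
    (FreeGroup.map f x).toWord = x.toWord.map (fun p => (f p.1, p.2)) := by
  have h1 : FreeGroup.map f x = mk (x.toWord.map (fun p => (f p.1, p.2))) := by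
    conv_lhs => rw [← mk_toWord (x := x)]
    rw [map.mk]
  rw [h1, toWord_mk]
  refine FreeGroup.IsReduced.reduce_eq ?_
  have h2 : FreeGroup.IsReduced x.toWord := isReduced_toWord
  unfold FreeGroup.IsReduced at h2 ⊢
  rw [List.isChain_map]
  refine h2.imp ?_
  intro a b hab h3
  exact hab (f.injective h3)

end word

/-- `A` acts on `F(A)` -/
noncomputable def lm (A : Type) [Group A] : A →* MulAut (FreeGroup A) where
  toFun a := freeGroupCongr (Equiv.mulLeft a)
  map_one' := by
    ext x
    simp
  map_mul' a b := by
    ext x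
    induction x using FreeGroup.induction_on with
    | C1 => simp
    | of x => simp [MulAut.mul_apply, mul_assoc]
    | inv_of x h => simp [MulAut.mul_apply, mul_assoc]
    | mul x y hx hy => rw [map_mul, hx, hy, map_mul]

theorem lm_apply (a : A) (x : FreeGroup A) : lm A a x = FreeGroup.map (Equiv.mulLeft a) x := rfl

@[simp] theorem lm_of (a x : A) : lm A a (of x) = of (a * x) := by
  rw [lm_apply]; simp

open Classical in
theorem lst_lm (a : A) (x : FreeGroup A) :
    lst (lm A a x) = (lst x).map (fun p => (a * p.1, p.2)) := by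
  rw [lm_apply]
  unfold lst
  rw [toWord_map_equiv, List.getLast?_map]
  rfl

open Classical in
theorem len_lm (a : A) (x : FreeGroup A) :
    (lm A a x).toWord.length = x.toWord.length := by
  rw [lm_apply, toWord_map_equiv, List.length_map]

/-- `lm` is free on nontrivial elements -/
theorem lm_free (a : A) (x : FreeGroup A) (hx : x ≠ 1) (h : lm A a x = x) : a = 1 := by
  classical
  have h1 := lst_lm a x
  rw [h] at h1
  have hw : x.toWord ≠ [] := fun h => hx (toWord_eq_nil_iff.1 h)
  obtain ⟨p, hp⟩ : ∃ p, lst x = some p := by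
    refine ⟨x.toWord.getLast hw, ?_⟩
    exact List.getLast?_eq_some_getLast hw
  rw [hp] at h1
  simp only [Option.map_some, Option.some.injEq] at h1
  have := congrArg Prod.fst h1
  simp only at this
  exact (mul_eq_right.1 this.symm)

/-- `F(A) ⋊ A` -/
abbrev Mg (A : Type) [Group A] : Type := FreeGroup A ⋊[lm A] A

/-- torsion-free -/
def TF (A : Type) [Group A] : Prop := ∀ (a : A) (n : ℕ), 0 < n → a ^ n = 1 → a = 1

theorem tf_mg (hA : TF A) : TF (Mg A) := by
  intro g n hn h
  have h1 : g.right = 1 := by
    refine hA _ n hn ?_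
    have := congrArg SemidirectProduct.rightHom h
    rwa [map_pow, map_one] at this
  have h2 : g = SemidirectProduct.inl g.left := by
    ext
    · simp
    · simp [h1]
  rw [h2, ← map_pow] at h
  have h3 : g.left ^ n = 1 := SemidirectProduct.inl_injective (by rw [h, map_one])
  have h4 : g.left = 1 := by
    have : g.left ^ n = 1 ^ n := by rw [h3, one_pow]
    exact pow_left_injective (by omega) this
  rw [h2, h4, map_one]

/-- if `g` commutes with its conjugate by `y ∈ A`, `y ≠ 1`, then `g ∈ A` -/
theorem mem_A (hA : TF A) (g : Mg A) (y : A) (hy : y ≠ 1)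
    (h : g * (SemidirectProduct.inr y * g * (SemidirectProduct.inr y)⁻¹) =
      (SemidirectProduct.inr y * g * (SemidirectProduct.inr y)⁻¹) * g) : g.left = 1 := by
  classical
  by_contra hw
  set v : FreeGroup A := g.left⁻¹ with hv
  have hv1 : v ≠ 1 := by rw [hv]; simpa using hw
  set c : A := g.right with hc
  have h1 : lm A (c * y) v * v = lm A (y * c * y⁻¹) v * lm A y v := by
    have h2 := congrArg SemidirectProduct.left h
    simp only [SemidirectProduct.mul_left, SemidirectProduct.left_inr, SemidirectProduct.mul_right,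
      SemidirectProduct.right_inr, SemidirectProduct.inv_left, SemidirectProduct.inv_right,
      one_mul, inv_one, map_one, mul_one] at h2
    have h3 := congrArg (fun x => x⁻¹) h2
    simp only [mul_inv_rev] at h3
    rw [map_mul (lm A) c y, MulAut.mul_apply, hv, hc, map_inv, map_inv, map_inv]
    exact h3
  by_cases h2 : lm A (c * y) v * v = 1
  · have h3 : lm A (c * y) v = v⁻¹ := eq_inv_of_mul_eq_one_left h2
    have h4 : lm A (y * c * y⁻¹) v = lm A (y * c * y) v := by
      rw [h2] at h1
      have h5 := eq_inv_of_mul_eq_one_left h1.symm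
      rw [h5, ← map_inv, ← h3, ← MulAut.mul_apply, ← map_mul, mul_assoc]
    have h5 : lm A ((y * c * y)⁻¹ * (y * c * y⁻¹)) v = v := by
      rw [map_mul, MulAut.mul_apply, h4, ← MulAut.mul_apply, ← map_mul, inv_mul_cancel, map_one,
        MulAut.one_apply]
    have h6 := lm_free _ _ hv1 h5
    have h7 : y⁻¹ ^ 2 = 1 := by
      rw [← h6]; group
    have h8 := hA _ 2 (by norm_num) h7
    exact hy (inv_eq_one.1 h8)
  · have h3 : lst (lm A (c * y) v * v) = lst v := lst_mul _ _ (by rw [len_lm]) h2
    have h4 : lst (lm A (y * c * y⁻¹) v * lm A y v) = lst (lm A y v) :=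
      lst_mul _ _ (by rw [len_lm, len_lm]) (by rw [← h1]; exact h2)
    rw [← h1, h3, lst_lm] at h4
    have hw : v.toWord ≠ [] := fun h => hv1 (toWord_eq_nil_iff.1 h)
    obtain ⟨p, hp⟩ : ∃ p, lst v = some p := ⟨v.toWord.getLast hw, List.getLast?_eq_some_getLast hw⟩
    rw [hp] at h4
    simp only [Option.map_some, Option.some.injEq] at h4
    have := congrArg Prod.fst h4
    simp only at this
    exact hy (mul_eq_right.1 this.symm)

/-- the second generator -/
noncomputable def bb (A : Type) [Group A] : Mg A := SemidirectProduct.inl (of 1)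

theorem bb_conj_left (g : Mg A) (hg : g.left = 1) (m : ℕ) (hm : 0 < m)
    (h : (((bb A) ^ m)⁻¹ * g * (bb A) ^ m).left = 1) : g = 1 := by
  classical
  have h1 : ((bb A) ^ m) = SemidirectProduct.inl ((of (1 : A)) ^ m) := by
    rw [bb, ← map_pow]
  have h2 : g = SemidirectProduct.inr g.right := by
    ext
    · simp [hg]
    · simp
  rw [h1, h2] at h
  simp only [SemidirectProduct.mul_left, SemidirectProduct.left_inr, SemidirectProduct.mul_right,
      SemidirectProduct.right_inr, SemidirectProduct.inv_left, SemidirectProduct.inv_right,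
      SemidirectProduct.left_inl, SemidirectProduct.right_inl, one_mul, inv_one, map_one, mul_one,
      MulAut.one_apply] at h
  rw [map_pow, lm_of, mul_one] at h
  have h3 : (of (g.right) : FreeGroup A) ^ m = of 1 ^ m := by
    have := (inv_mul_eq_one.1 h).symm
    exact this
  have h4 : (of (g.right) : FreeGroup A) = of 1 := pow_left_injective (by omega) h3
  have h5 := of_injective h4
  rw [h2, h5, map_one]

theorem mem_A_conj (hA : TF A) (g : Mg A) (y : A) (hy : y ≠ 1) (m : ℕ)
    (h : g * (((bb A) ^ m * SemidirectProduct.inr y * ((bb A) ^ m)⁻¹) * g *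
        ((bb A) ^ m * SemidirectProduct.inr y * ((bb A) ^ m)⁻¹)⁻¹) =
      (((bb A) ^ m * SemidirectProduct.inr y * ((bb A) ^ m)⁻¹) * g *
        ((bb A) ^ m * SemidirectProduct.inr y * ((bb A) ^ m)⁻¹)⁻¹) * g) :
    (((bb A) ^ m)⁻¹ * g * (bb A) ^ m).left = 1 := by
  refine mem_A hA _ y hy ?_
  have h1 := congrArg (fun x => ((bb A) ^ m)⁻¹ * x * (bb A) ^ m) h
  calc _ = ((bb A) ^ m)⁻¹ * (g * (((bb A) ^ m * SemidirectProduct.inr y * ((bb A) ^ m)⁻¹) * g *
        ((bb A) ^ m * SemidirectProduct.inr y * ((bb A) ^ m)⁻¹)⁻¹)) * (bb A) ^ m := by group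
    _ = _ := by rw [h1]; group

end Pool.Agent.H28.FF
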