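import Pool.Agent.H28.FF.Stm

/-!
# A group containing `ℤ × F₂` is not measure equivalent to a free group

The module NFREE of the disproof of MP_6c9f91_an (plan: helper28).
-/

namespace Pool.Agent.H28.FF.NF

open Set Filter MeasureTheory Topology
open scoped ENNReal Pointwise

section Tree

variable {X : Type} [DecidableEq X]

/-- The first letter of a word, if it is a positive letter. -/
def hdw : List (X × Bool) → Option X
  | (s, true) :: _ => some s
  | _ => none

/-- The first letter of a group element, if it is a positive letter. -/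
def hd (g : FreeGroup X) : Option X := hdw g.toWord

/-- The weights. -/
noncomputable def wt (w : X → ℕ) : Option X → ℝ≥0∞
  | none => 0
  | some s => (w s : ℝ≥0∞) + 1

/-- The weighted number of edges issuing from the base vertex which separate `x` and `y`. -/
noncomputable def NN (w : X → ℕ) (x y : FreeGroup X) : ℝ≥0∞ :=
  if hd x = hd y then 0 else wt w (hd x) + wt w (hd y)

/-- The weighted distance of `x` and `y`. -/
noncomputable def ll (w : X → ℕ) (x y : FreeGroup X) : ℝ≥0∞ := ∑' f : FreeGroup X, NN w (f * x) (f * y)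

variable (w : X → ℕ)

theorem NN_self (x : FreeGroup X) : NN w x x = 0 := by simp [NN]

theorem NN_comm (x y : FreeGroup X) : NN w x y = NN w y x := by
  unfold NN
  by_cases h : hd x = hd y
  · simp [h]
  · rw [if_neg h, if_neg (fun h' => h h'.symm), add_comm]

theorem NN_triangle (x y z : FreeGroup X) : NN w x z ≤ NN w x y + NN w y z := by
  unfold NN
  by_cases h : hd x = hd z
  · simp [h]
  · by_cases h1 : hd x = hd y
    · rw [h1]; simp
    · by_cases h2 : hd y = hd z
      · rw [h2]; simp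
      · rw [if_neg h, if_neg h1, if_neg h2]
        calc wt w (hd x) + wt w (hd z) ≤ wt w (hd x) + wt w (hd z) + (wt w (hd y) + wt w (hd y)) :=
              le_self_add
          _ = _ := by ring

theorem ll_self (x : FreeGroup X) : ll w x x = 0 := by simp [ll, NN_self]

theorem ll_comm (x y : FreeGroup X) : ll w x y = ll w y x := by
  unfold ll
  exact tsum_congr fun f => NN_comm w _ _

theorem ll_triangle (x y z : FreeGroup X) : ll w x z ≤ ll w x y + ll w y z := by
  unfold ll
  rw [← ENNReal.tsum_add]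
  exact ENNReal.tsum_le_tsum fun f => NN_triangle w _ _ _

theorem ll_smul (g x y : FreeGroup X) : ll w (g * x) (g * y) = ll w x y := by
  unfold ll
  rw [← (Equiv.mulRight g).tsum_eq (fun f => NN w (f * x) (f * y))]
  exact tsum_congr fun f => by simp [mul_assoc]

omit [DecidableEq X] in
theorem hdw_append (L : List (X × Bool)) (hL : L ≠ []) (M : List (X × Bool)) :
    hdw (L ++ M) = hdw L := by
  match L, hL with
  | (s, true) :: L, _ => rfl
  | (s, false) :: L, _ => rfl

/-- Right multiplication by a generator does not change the first letter of a nontrivial element. -/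
theorem hd_mul_of (f : FreeGroup X) (hf : f ≠ 1) (s : X) : hd (f * FreeGroup.of s) = hd f := by
  have hne : f.toWord ≠ [] := by rwa [Ne, FreeGroup.toWord_eq_nil_iff]
  obtain ⟨L, p, hL⟩ : ∃ L p, f.toWord = L ++ [p] := by
    rcases List.eq_nil_or_concat f.toWord with h | ⟨L, p, h⟩
    · exact absurd h hne
    · exact ⟨L, p, by simpa using h⟩
  have hred : FreeGroup.IsReduced (L ++ [p]) := by rw [← hL]; exact FreeGroup.isReduced_toWord
  have hfm : f = FreeGroup.mk (L ++ [p]) := by rw [← hL, FreeGroup.mk_toWord]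
  by_cases hp : p = (s, false)
  · have h1 : f * FreeGroup.of s = FreeGroup.mk L := by
      rw [hfm, FreeGroup.of, hp]
      rw [show (FreeGroup.mk (L ++ [(s, false)]) : FreeGroup X) * FreeGroup.mk [(s, true)]
        = FreeGroup.mk (L ++ [(s, false)] ++ [(s, true)]) from rfl]
      apply Quot.sound
      have := @FreeGroup.Red.Step.not X L [] s false
      simpa using this
    have hredL : FreeGroup.IsReduced L := (List.isChain_append.1 hred).1
    unfold hd
    rw [h1, FreeGroup.toWord_mk, hredL.reduce_eq, hL]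
    by_cases hLe : L = []
    · subst hLe; rw [hp]; rfl
    · rw [hdw_append L hLe]
  · have h1 : (f * FreeGroup.of s).toWord = f.toWord ++ [(s, true)] := by
      rw [FreeGroup.toWord_mul, FreeGroup.toWord_of]
      apply FreeGroup.IsReduced.reduce_eq
      rw [hL]
      unfold FreeGroup.IsReduced at hred ⊢
      refine List.isChain_append.mpr ⟨hred, List.isChain_singleton _, ?_⟩
      intro x hx y hy
      simp only [List.getLast?_append, List.getLast?_singleton, Option.some_or, Option.mem_def,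
        Option.some.injEq, List.head?_cons] at hx hy
      subst hx; subst hy
      intro h1
      by_contra h2
      apply hp
      ext
      · exact h1
      · simpa using h2
    unfold hd
    rw [h1, hdw_append _ hne]


theorem hd_one : hd (1 : FreeGroup X) = none := by simp [hd, hdw]

theorem hd_of (s : X) : hd (FreeGroup.of s) = some s := by simp [hd, hdw]

/-- The edge from the base vertex to a generator is the only edge separating the two. -/
theorem ll_one_of_le (s : X) : ll w 1 (FreeGroup.of s) ≤ (w s : ℝ≥0∞) + 1 := by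
  unfold ll
  rw [tsum_eq_single (1 : FreeGroup X)]
  · simp [NN, hd_one, hd_of, wt]
  · intro f hf
    rw [mul_one]
    simp [NN, hd_mul_of f hf s]

theorem ll_one_mk_ne_top (L : List (X × Bool)) : ll w 1 (FreeGroup.mk L) ≠ ⊤ := by
  induction L with
  | nil =>
    have : (FreeGroup.mk [] : FreeGroup X) = 1 := rfl
    rw [this, ll_self]; exact ENNReal.zero_ne_top
  | cons p L ih =>
    have h1 : (FreeGroup.mk (p :: L) : FreeGroup X) = FreeGroup.mk [p] * FreeGroup.mk L := rfl
    have h2 : ll w 1 (FreeGroup.mk [p]) ≠ ⊤ := by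
      obtain ⟨s, b⟩ := p
      cases b with
      | true => exact ne_top_of_le_ne_top (by finiteness) (ll_one_of_le w s)
      | false =>
        have h3 : (FreeGroup.mk [(s, false)] : FreeGroup X) = (FreeGroup.of s)⁻¹ := by
          simp [FreeGroup.of, FreeGroup.invRev]
        rw [h3, ← ll_smul w (FreeGroup.of s), mul_one, mul_inv_cancel, ll_comm]
        exact ne_top_of_le_ne_top (by finiteness) (ll_one_of_le w s)
    rw [h1]
    refine ne_top_of_le_ne_top ?_ (ll_triangle w 1 (FreeGroup.mk [p]) _)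
    refine ENNReal.add_ne_top.mpr ⟨h2, ?_⟩
    have h4 := ll_smul w (FreeGroup.mk [p]) 1 (FreeGroup.mk L)
    rw [mul_one] at h4
    rw [h4]; exact ih

theorem ll_ne_top (x y : FreeGroup X) : ll w x y ≠ ⊤ := by
  rw [← ll_smul w x⁻¹, inv_mul_cancel]
  rw [← FreeGroup.mk_toWord (x := x⁻¹ * y)]
  exact ll_one_mk_ne_top w _

theorem hd_mk {L : List (X × Bool)} (hL : FreeGroup.IsReduced L) :
    hd (FreeGroup.mk L) = hdw L := by
  rw [hd, FreeGroup.toWord_mk, hL.reduce_eq]

/-- The distances along a reduced word add up. -/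
theorem NN_add (p : X × Bool) (L : List (X × Bool)) (hL : FreeGroup.IsReduced (p :: L))
    (f : FreeGroup X) :
    NN w (f * 1) (f * FreeGroup.mk (p :: L)) = NN w (f * 1) (f * FreeGroup.mk [p]) +
      NN w (f * FreeGroup.mk [p]) (f * FreeGroup.mk (p :: L)) := by
  have hL' : FreeGroup.IsReduced L := List.IsChain.tail hL
  rw [mul_one]
  obtain ⟨s, b⟩ := p
  cases b with
  | true =>
    change _ = NN w f (f * FreeGroup.of s) + NN w (f * FreeGroup.of s) _
    by_cases hf : f = 1
    · subst hf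
      simp only [one_mul]
      have h1 : hd (FreeGroup.mk ((s, true) :: L)) = some s := by rw [hd_mk hL]; rfl
      simp [NN, h1, hd_one, hd_of]
    · have h1 := hd_mul_of f hf s
      simp [NN, h1]
  | false =>
    have h3 : (FreeGroup.mk [(s, false)] : FreeGroup X) = (FreeGroup.of s)⁻¹ := by
      simp [FreeGroup.of, FreeGroup.invRev]
    rw [h3]
    by_cases hf : f = FreeGroup.of s
    · subst hf
      have h4 : (FreeGroup.mk ((s, false) :: L) : FreeGroup X) = (FreeGroup.of s)⁻¹ * FreeGroup.mk L := by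
        rw [← h3]; rfl
      rw [h4, mul_inv_cancel, mul_inv_cancel_left]
      have h5 : hd (FreeGroup.mk L) ≠ some s := by
        rw [hd_mk hL']
        match L, hL with
        | [], _ => simp [hdw]
        | (t, false) :: L, _ => simp [hdw]
        | (t, true) :: L, hL =>
          rw [FreeGroup.isReduced_cons_cons] at hL
          intro h
          have : s = t := by simpa [hdw, eq_comm] using h
          simpa using hL.1 this
      simp only [NN, hd_of, hd_one]
      by_cases h6 : hd (FreeGroup.mk L) = none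
      · rw [h6]; simp [wt]
      · rw [if_neg (fun h => h5 h.symm), if_neg (by simp), if_neg (fun h => h6 h.symm)]
        simp [wt]
    · have h7 : f * (FreeGroup.of s)⁻¹ ≠ 1 := fun h => hf (mul_inv_eq_one.mp h)
      have h8 := hd_mul_of _ h7 s
      rw [inv_mul_cancel_right] at h8
      simp [NN, h8]

theorem wt_le_ll (p : X × Bool) : (w p.1 : ℝ≥0∞) + 1 ≤ ll w 1 (FreeGroup.mk [p]) := by
  obtain ⟨s, b⟩ := p
  cases b with
  | true =>
    change _ ≤ ll w 1 (FreeGroup.of s)
    unfold ll
    refine le_trans ?_ (ENNReal.le_tsum (1 : FreeGroup X))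
    simp [NN, hd_one, hd_of, wt]
  | false =>
    have h3 : (FreeGroup.mk [(s, false)] : FreeGroup X) = (FreeGroup.of s)⁻¹ := by
      simp [FreeGroup.of, FreeGroup.invRev]
    rw [h3, ← ll_smul w (FreeGroup.of s), mul_one, mul_inv_cancel, ll_comm]
    unfold ll
    refine le_trans ?_ (ENNReal.le_tsum (1 : FreeGroup X))
    simp [NN, hd_one, hd_of, wt]

/-- Lower bound of the distance by the weighted word length. -/
theorem sum_le_ll (L : List (X × Bool)) (hL : FreeGroup.IsReduced L) :
    (((L.map fun p => w p.1 + 1).sum : ℕ) : ℝ≥0∞) ≤ ll w 1 (FreeGroup.mk L) := by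
  induction L with
  | nil => simp
  | cons p L ih =>
    have hL' : FreeGroup.IsReduced L := List.IsChain.tail hL
    have h1 : ll w 1 (FreeGroup.mk (p :: L)) = ll w 1 (FreeGroup.mk [p]) +
        ll w (FreeGroup.mk [p]) (FreeGroup.mk (p :: L)) := by
      unfold ll
      rw [← ENNReal.tsum_add]
      exact tsum_congr fun f => NN_add w p L hL f
    have h2 : ll w (FreeGroup.mk [p]) (FreeGroup.mk (p :: L)) = ll w 1 (FreeGroup.mk L) := by
      have h4 := ll_smul w (FreeGroup.mk [p]) 1 (FreeGroup.mk L)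
      rw [mul_one] at h4
      exact h4
    rw [h1, h2, List.map_cons, List.sum_cons, Nat.cast_add]
    refine add_le_add ?_ (ih hL')
    have := wt_le_ll w p
    simpa using this

omit [DecidableEq X] in
theorem finite_words (hw : Function.Injective w) (n : ℕ) :
    {L : List (X × Bool) | (L.map fun p => w p.1 + 1).sum ≤ n}.Finite := by
  induction n with
  | zero =>
    refine (Set.finite_singleton ([] : List (X × Bool))).subset ?_
    intro L hL
    match L with
    | [] => rfl
    | p :: L => simp at hL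
  | succ n ih =>
    have h1 : {p : X × Bool | w p.1 ≤ n}.Finite := by
      have h2 : {s : X | w s ≤ n}.Finite := (Set.finite_Iic n).preimage hw.injOn
      refine (h2.prod (Set.finite_univ (α := Bool))).subset ?_
      intro p hp
      exact ⟨hp, Set.mem_univ _⟩
    refine ((Set.finite_singleton ([] : List (X × Bool))).union (Set.Finite.image2 List.cons h1 ih)).subset ?_
    intro L hL
    match L with
    | [] => exact Or.inl rfl
    | p :: L =>
      right
      simp only [Set.mem_ofPred_eq, List.map_cons, List.sum_cons] at hL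
      exact ⟨p, by simp only [Set.mem_ofPred_eq]; omega, L, by simp only [Set.mem_ofPred_eq]; omega, rfl⟩

/-- Balls are finite. -/
theorem finite_ball (hw : Function.Injective w) (n : ℕ) (x : FreeGroup X) :
    {y : FreeGroup X | ll w x y ≤ n}.Finite := by
  have h1 : {g : FreeGroup X | ll w 1 g ≤ n}.Finite := by
    refine Set.Finite.subset ((finite_words w hw n).preimage (f := FreeGroup.toWord)
      FreeGroup.toWord_injective.injOn) ?_
    intro g hg
    have h2 := sum_le_ll w g.toWord FreeGroup.isReduced_toWord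
    rw [FreeGroup.mk_toWord] at h2
    have h3 := h2.trans hg
    exact_mod_cast h3
  refine Set.Finite.subset (h1.preimage (f := fun y => x⁻¹ * y) (mul_right_injective x⁻¹).injOn) ?_
  intro y hy
  have h4 := ll_smul w x⁻¹ x y
  rw [inv_mul_cancel] at h4
  simpa [h4] using hy

/-- The weighted number of separating edges at the base vertex, plus one if `x` is the base vertex. -/
noncomputable def NP (x y : FreeGroup X) : ℝ≥0∞ := NN w x y + if x = 1 then 1 else 0

/-- The total mass of `NP`. -/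
noncomputable def KK (x y : FreeGroup X) : ℝ≥0∞ := ll w x y + 1

theorem KK_ne_top (x y : FreeGroup X) : KK w x y ≠ ⊤ :=
  ENNReal.add_ne_top.mpr ⟨ll_ne_top w x y, ENNReal.one_ne_top⟩

theorem KK_ne_zero (x y : FreeGroup X) : KK w x y ≠ 0 := by simp [KK]

theorem KK_smul (g x y : FreeGroup X) : KK w (g * x) (g * y) = KK w x y := by
  simp [KK, ll_smul]

theorem tsum_ite_one (x : FreeGroup X) :
    ∑' f : FreeGroup X, (if f * x = 1 then (1 : ℝ≥0∞) else 0) = 1 := by
  rw [tsum_eq_single x⁻¹]
  · simp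
  · intro f hf
    rw [if_neg]
    intro h
    exact hf (mul_eq_one_iff_eq_inv.mp h)

theorem tsum_NP (x y : FreeGroup X) : ∑' f : FreeGroup X, NP w (f * x) (f * y) = KK w x y := by
  unfold NP KK ll
  rw [ENNReal.tsum_add, tsum_ite_one]

/-- The normalised mass at the base vertex of the geodesic from `x` to `y`. -/
noncomputable def GG (x y : FreeGroup X) : ℝ≥0∞ := NP w x y * (KK w x y)⁻¹

theorem tsum_GG (x y : FreeGroup X) : ∑' f : FreeGroup X, GG w (f * x) (f * y) = 1 := by
  unfold GG
  simp only [KK_smul]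
  rw [ENNReal.tsum_mul_right, tsum_NP, ENNReal.mul_inv_cancel (KK_ne_zero w x y) (KK_ne_top w x y)]

theorem tsum_GG_sub_le (x y x' y' : FreeGroup X) :
    ∑' f : FreeGroup X, (GG w (f * x) (f * y) - GG w (f * x') (f * y')) ≤
      (2 * (ll w x x' + ll w y y') + 1) * (KK w x y)⁻¹ := by
  set K := KK w x y with hK
  set K' := KK w x' y' with hK'
  have hK0 : K ≠ 0 := KK_ne_zero w x y
  have hKt : K ≠ ⊤ := KK_ne_top w x y
  have hK'0 : K' ≠ 0 := KK_ne_zero w x' y'
  have hK't : K' ≠ ⊤ := KK_ne_top w x' y'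
  have h1 : ∀ f : FreeGroup X, GG w (f * x) (f * y) - GG w (f * x') (f * y') ≤
      NP w (f * x') (f * y') * (K⁻¹ - K'⁻¹) +
        (NN w (f * x) (f * x') + NN w (f * y) (f * y') + if f * x = 1 then 1 else 0) * K⁻¹ := by
    intro f
    rw [tsub_le_iff_right]
    unfold GG
    rw [KK_smul, KK_smul, ← hK, ← hK']
    have h2 : NP w (f * x) (f * y) ≤ NP w (f * x') (f * y') +
        (NN w (f * x) (f * x') + NN w (f * y) (f * y') + if f * x = 1 then 1 else 0) := by
      unfold NP
      have h3 := (NN_triangle w (f * x) (f * x') (f * y)).trans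
        (add_le_add le_rfl (NN_triangle w (f * x') (f * y') (f * y)))
      rw [NN_comm w (f * y') (f * y)] at h3
      calc NN w (f * x) (f * y) + (if f * x = 1 then 1 else 0)
          ≤ (NN w (f * x) (f * x') + (NN w (f * x') (f * y') + NN w (f * y) (f * y')))
            + (if f * x = 1 then 1 else 0) + (if f * x' = 1 then 1 else 0) :=
              le_trans (add_le_add h3 le_rfl) le_self_add
        _ = _ := by ring
    calc NP w (f * x) (f * y) * K⁻¹ ≤ (NP w (f * x') (f * y') +
        (NN w (f * x) (f * x') + NN w (f * y) (f * y') + if f * x = 1 then 1 else 0)) * K⁻¹ := by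
          gcongr
      _ = NP w (f * x') (f * y') * K⁻¹ +
        (NN w (f * x) (f * x') + NN w (f * y) (f * y') + if f * x = 1 then 1 else 0) * K⁻¹ := by
          rw [add_mul]
      _ ≤ NP w (f * x') (f * y') * ((K⁻¹ - K'⁻¹) + K'⁻¹) +
        (NN w (f * x) (f * x') + NN w (f * y) (f * y') + if f * x = 1 then 1 else 0) * K⁻¹ := by
          gcongr
          exact le_tsub_add
      _ = _ := by ring
  refine (ENNReal.tsum_le_tsum h1).trans ?_
  rw [ENNReal.tsum_add, ENNReal.tsum_mul_right, ENNReal.tsum_mul_right, ENNReal.tsum_add,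
    ENNReal.tsum_add, tsum_NP, tsum_ite_one, ← hK']
  change K' * (K⁻¹ - K'⁻¹) + (ll w x x' + ll w y y' + 1) * K⁻¹ ≤ _
  have h4 : K' ≤ K + (ll w x x' + ll w y y') := by
    rw [hK, hK']
    unfold KK
    have h5 := (ll_triangle w x' x y').trans (add_le_add le_rfl (ll_triangle w x y y'))
    rw [ll_comm w x' x] at h5
    calc ll w x' y' + 1 ≤ (ll w x x' + (ll w x y + ll w y y')) + 1 := add_le_add h5 le_rfl
      _ = _ := by ring
  have h6 : K' * (K⁻¹ - K'⁻¹) ≤ (ll w x x' + ll w y y') * K⁻¹ := by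
    rw [ENNReal.mul_sub (fun _ _ => hK't), ENNReal.mul_inv_cancel hK'0 hK't, tsub_le_iff_right]
    calc K' * K⁻¹ ≤ (K + (ll w x x' + ll w y y')) * K⁻¹ := by gcongr
      _ = (ll w x x' + ll w y y') * K⁻¹ + 1 := by
        rw [add_mul, ENNReal.mul_inv_cancel hK0 hKt, add_comm]
  calc K' * (K⁻¹ - K'⁻¹) + (ll w x x' + ll w y y' + 1) * K⁻¹
      ≤ (ll w x x' + ll w y y') * K⁻¹ + (ll w x x' + ll w y y' + 1) * K⁻¹ := by gcongr
    _ = _ := by ring

end Tree

section Meas

variable {Ω : Type} [MeasurableSpace Ω] {m : Measure Ω}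

/-- The measurable equivariant map defined by a fundamental domain. -/
theorem exists_equivariant {F : Type} [Group F] [Countable F] [MeasurableSpace F]
    [MulAction F Ω] [MeasurableConstSMul F Ω] {D : Set Ω} (hDm : MeasurableSet D)
    (hD : IsFundamentalDomain F D m) :
    ∃ φ : Ω → F, Measurable φ ∧ (∀ᵐ ω ∂m, (φ ω)⁻¹ • ω ∈ D) ∧
      ∀ᵐ ω ∂m, ∀ g : F, φ (g • ω) = g * φ ω := by
  classical
  obtain ⟨e, he⟩ := exists_surjective_nat F
  have hex : ∀ ω : Ω, ∃ n, ((e n)⁻¹ • ω ∈ D ∨ ∀ k, (e k)⁻¹ • ω ∉ D) := by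
    intro ω
    by_cases h : ∃ n, (e n)⁻¹ • ω ∈ D
    · obtain ⟨n, hn⟩ := h; exact ⟨n, Or.inl hn⟩
    · push Not at h; exact ⟨0, Or.inr h⟩
  have hms : ∀ n, MeasurableSet {ω : Ω | (e n)⁻¹ • ω ∈ D} := fun n =>
    (measurable_const_smul (e n)⁻¹) hDm
  refine ⟨fun ω => e (Nat.find (hex ω)), ?_, ?_⟩
  · refine Measurable.comp (g := e) (measurable_from_nat) (measurable_find hex ?_)
    intro n
    have h0 : {ω : Ω | ∀ k, (e k)⁻¹ • ω ∉ D} = ⋂ k, {ω : Ω | (e k)⁻¹ • ω ∈ D}ᶜ := by
      ext ω; simp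
    have h1 : MeasurableSet {ω : Ω | ∀ k, (e k)⁻¹ • ω ∉ D} := by
      rw [h0]
      exact MeasurableSet.iInter fun k => (hms k).compl
    exact (hms n).union h1
  have hkey : ∀ ω : Ω, (∃! g : F, g⁻¹ • ω ∈ D) → ∀ g : F, g⁻¹ • ω ∈ D →
      e (Nat.find (hex ω)) = g := by
    intro ω hω g hg
    have h1 := Nat.find_spec (hex ω)
    rcases h1 with h1 | h1
    · exact hω.unique h1 hg
    · obtain ⟨k, hk⟩ := he g
      exact absurd (hk ▸ hg) (h1 k)
  have hae : ∀ᵐ ω ∂m, ∃! g : F, g⁻¹ • ω ∈ D := by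
    have h1 := hD.ae_covers
    have h2 : ∀ᵐ ω ∂m, ∀ g₁ g₂ : F, g₁ ≠ g₂ → ¬ (ω ∈ g₁ • D ∩ g₂ • D) := by
      rw [ae_all_iff]; intro g₁
      rw [ae_all_iff]; intro g₂
      by_cases hg : g₁ = g₂
      · simp [hg]
      · have := hD.aedisjoint hg
        filter_upwards [measure_eq_zero_iff_ae_notMem.mp this] with ω hω _
        exact hω
    filter_upwards [h1, h2] with ω h1 h2
    obtain ⟨g, hg⟩ := h1
    refine ⟨g⁻¹, by simpa using hg, ?_⟩
    intro g' hg'
    by_contra hne
    refine h2 g' g⁻¹ hne ⟨?_, ?_⟩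
    · rwa [Set.mem_smul_set_iff_inv_smul_mem]
    · rw [Set.mem_smul_set_iff_inv_smul_mem]; simpa using hg
  constructor
  · filter_upwards [hae] with ω hω
    obtain ⟨g, hg, _⟩ := id hω
    rw [hkey ω hω g hg]; exact hg
  · filter_upwards [hae] with ω hω g
    obtain ⟨g₀, hg₀, hu⟩ := id hω
    have hg₀' : g₀⁻¹ • ω ∈ D := hg₀
    have h1 : ∃! g' : F, g'⁻¹ • (g • ω) ∈ D := by
      refine ⟨g * g₀, by simpa [smul_smul, mul_assoc] using hg₀', ?_⟩
      intro g' hg'
      have : (g⁻¹ * g')⁻¹ • ω ∈ D := by simpa [smul_smul] using hg'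
      have := hu _ this
      rw [← this]; group
    rw [hkey ω hω g₀ hg₀, hkey (g • ω) h1 (g * g₀) (by simpa [smul_smul, mul_assoc] using hg₀')]

/-- Almost every orbit meets a set of finite measure only finitely often. -/
theorem ae_finite_visits {Q : Type} [Group Q] [Countable Q] [MulAction Q Ω] [MeasurableConstSMul Q Ω]
    [SMulInvariantMeasure Q Ω m] {E : Set Ω} (hE : IsFundamentalDomain Q E m) {W : Set Ω}
    (hW : MeasurableSet W) (hWf : m W ≠ ⊤) : ∀ᵐ ω ∂m, {q : Q | q • ω ∈ W}.Finite := by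
  classical
  set H : Ω → ℝ≥0∞ := fun ω => ∑' q : Q, W.indicator 1 (q • ω) with hH
  have hmeas : ∀ q : Q, Measurable fun ω : Ω => (W.indicator 1 (q • ω) : ℝ≥0∞) := fun q =>
    (measurable_const.indicator hW).comp (measurable_const_smul q)
  have hHm : Measurable H := Measurable.tsum hmeas
  have hinv : ∀ (g : Q) (ω : Ω), H (g • ω) = H ω := by
    intro g ω
    simp only [hH]
    rw [← (Equiv.mulRight g).tsum_eq (fun q => (W.indicator 1 (q • ω) : ℝ≥0∞))]
    exact tsum_congr fun q => by simp [smul_smul]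
  have h1 : ∫⁻ ω in E, H ω ∂m = m W := by
    rw [← lintegral_indicator_one hW, hE.lintegral_eq_tsum'' (W.indicator 1)]
    simp only [hH]
    rw [lintegral_tsum fun q => (hmeas q).aemeasurable]
  have h2 : ∀ᵐ ω ∂(m.restrict E), H ω < ⊤ :=
    ae_lt_top hHm (by rw [h1]; exact hWf)
  have h3 : m {ω | H ω = ⊤} = 0 := by
    refine hE.measure_zero_of_invariant _ ?_ ?_
    · intro g
      ext ω
      rw [Set.mem_smul_set_iff_inv_smul_mem]
      simp [hinv]
    · rw [ae_iff] at h2
      have h4 : MeasurableSet {ω | ¬ H ω < ⊤} := (measurableSet_lt hHm measurable_const).compl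
      rw [Measure.restrict_apply h4] at h2
      simpa using h2
  have h5 : ∀ᵐ ω ∂m, H ω ≠ ⊤ := by
    rw [ae_iff]; simpa using h3
  filter_upwards [h5] with ω hω
  have h6 := ENNReal.finite_const_le_of_tsum_ne_top hω (one_ne_zero)
  refine h6.subset ?_
  intro q hq
  have : q • ω ∈ W := hq
  simp [Set.indicator_of_mem this]

/-- The integrals of an almost everywhere invariant function over two fundamental domains agree. -/
theorem setLIntegral_eq_of_ae {F : Type} [Group F] [Countable F] [MulAction F Ω]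
    [MeasurableConstSMul F Ω] [SMulInvariantMeasure F Ω m] {s t : Set Ω}
    (hs : IsFundamentalDomain F s m) (ht : IsFundamentalDomain F t m) (h : Ω → ℝ≥0∞)
    (hh : ∀ᵐ ω ∂m, ∀ g : F, h (g • ω) = h ω) : ∫⁻ ω in s, h ω ∂m = ∫⁻ ω in t, h ω ∂m := by
  set h' : Ω → ℝ≥0∞ := fun ω => ⨆ g : F, h (g • ω) with hh'
  have h1 : h' =ᵐ[m] h := by
    filter_upwards [hh] with ω hω
    simp only [hh', hω, iSup_const]
  have h2 : ∀ (g : F) (ω : Ω), h' (g • ω) = h' ω := by
    intro g ω
    simp only [hh']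
    rw [← (Equiv.mulRight g).iSup_comp (g := fun q => h (q • ω))]
    simp [smul_smul]
  rw [← lintegral_congr_ae (ae_restrict_of_ae h1 : _ =ᵐ[m.restrict s] _),
    ← lintegral_congr_ae (ae_restrict_of_ae h1 : _ =ᵐ[m.restrict t] _)]
  exact hs.setLIntegral_eq ht h' h2

theorem exists_retract {B Q : Type} [Group B] [Group Q] (j : B →* Q) (hj : Function.Injective j) :
    ∃ π : Q → B, ∀ (u : B) (q : Q), π (j u * q) = u * π q := by
  classical
  have h : ∀ q : Q, ∃ u : B, j u = q * ((Quotient.mk (QuotientGroup.rightRel j.range) q).out)⁻¹ := by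
    intro q
    have h1 : (QuotientGroup.rightRel j.range) (Quotient.mk (QuotientGroup.rightRel j.range) q).out q :=
      Quotient.mk_out (s := QuotientGroup.rightRel j.range) q
    rw [QuotientGroup.rightRel_apply] at h1
    obtain ⟨u, hu⟩ := h1
    exact ⟨u, hu⟩
  choose π hπ using h
  refine ⟨π, fun u q => hj ?_⟩
  rw [map_mul, hπ, hπ]
  have h2 : Quotient.mk (QuotientGroup.rightRel j.range) (j u * q) =
      Quotient.mk (QuotientGroup.rightRel j.range) q := by
    apply Quotient.sound
    show (QuotientGroup.rightRel j.range) _ _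
    rw [QuotientGroup.rightRel_apply]
    refine ⟨u⁻¹, ?_⟩
    rw [map_inv]; group
  rw [h2, mul_assoc]

end Meas

section Main

variable {Ω : Type} [MeasurableSpace Ω] {m : Measure Ω}
  {X : Type} [DecidableEq X] [Countable X] {Q : Type} [Group Q] [Countable Q]
  [MulAction Q Ω] [MeasurableConstSMul Q Ω] [SMulInvariantMeasure Q Ω m]
  [MeasurableSpace (FreeGroup X)] [DiscreteMeasurableSpace (FreeGroup X)]

instance countable_freeGroup' : Countable (FreeGroup X) :=
  FreeGroup.toWord_injective.countable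

theorem tendsto_KK (w : X → ℕ) (hw : Function.Injective w) {E : Set Ω}
    (hE : IsFundamentalDomain Q E m) (φ : Ω → FreeGroup X) (hφm : Measurable φ)
    (hφf : ∀ f, m {ω | φ ω = f} ≠ ⊤) (q : ℕ → Q) (hq : Function.Injective q) :
    ∀ᵐ ω ∂m, Tendsto (fun k => KK w (φ ω) (φ (q k • ω))) atTop (𝓝 ⊤) := by
  have h1 : ∀ᵐ ω ∂m, ∀ f : FreeGroup X, {g : Q | g • ω ∈ {ω | φ ω = f}}.Finite := by
    rw [ae_all_iff]
    intro f
    exact ae_finite_visits hE (measurableSet_eq_fun hφm measurable_const) (hφf f)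
  filter_upwards [h1] with ω hω
  rw [ENNReal.tendsto_nhds_top_iff_nat]
  intro n
  have h2 : {k | ¬ (n : ℝ≥0∞) < KK w (φ ω) (φ (q k • ω))}.Finite := by
    refine Set.Finite.subset ((finite_ball w hw n (φ ω)).biUnion (t := fun y => {k | φ (q k • ω) = y})
      ?_) ?_
    · intro y _
      exact (hω y).preimage hq.injOn
    · intro k hk
      have hk' : KK w (φ ω) (φ (q k • ω)) ≤ n := not_lt.mp hk
      simp only [Set.mem_iUnion]
      exact ⟨φ (q k • ω), le_trans le_self_add hk', rfl⟩
  have h3 := h2.eventually_cofinite_notMem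
  rw [Nat.cofinite_eq_atTop] at h3
  filter_upwards [h3] with k hk
  simpa using hk

theorem tendsto_min_integral (w : X → ℕ) (hw : Function.Injective w) {E D : Set Ω}
    (hE : IsFundamentalDomain Q E m) (hDf : m D ≠ ⊤) (φ : Ω → FreeGroup X) (hφm : Measurable φ)
    (hφf : ∀ f, m {ω | φ ω = f} ≠ ⊤) (q : ℕ → Q) (hq : Function.Injective q)
    (L : Ω → ℝ≥0∞) (hL : Measurable L) (hLf : ∀ ω, L ω ≠ ⊤) :
    Tendsto (fun k => ∫⁻ ω in D, min 1 (L ω * (KK w (φ ω) (φ (q k • ω)))⁻¹) ∂m) atTop (𝓝 0) := by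
  have hKm : ∀ k, Measurable fun ω => KK w (φ ω) (φ (q k • ω)) := by
    intro k
    have h1 : Measurable fun p : FreeGroup X × FreeGroup X => KK w p.1 p.2 := Measurable.of_discrete
    exact h1.comp (hφm.prodMk (hφm.comp (measurable_const_smul (q k))))
  have h0 : (0 : ℝ≥0∞) = ∫⁻ ω in D, 0 ∂m := by simp
  rw [h0]
  refine tendsto_lintegral_of_dominated_convergence (fun _ => 1) ?_ ?_ ?_ ?_
  · intro k
    exact measurable_const.min (hL.mul (hKm k).inv)
  · intro k
    exact Eventually.of_forall fun ω => min_le_left _ _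
  · simpa using hDf
  · have h1 := ae_restrict_of_ae (s := D) (tendsto_KK w hw hE φ hφm hφf q hq)
    filter_upwards [h1] with ω hω
    have h2 : Tendsto (fun k => L ω * (KK w (φ ω) (φ (q k • ω)))⁻¹) atTop (𝓝 (L ω * ⊤⁻¹)) := by
      refine ENNReal.Tendsto.const_mul ?_ (Or.inr (hLf ω))
      exact tendsto_inv_iff.mpr hω
    rw [ENNReal.inv_top, mul_zero] at h2
    have h3 := (tendsto_const_nhds (x := (1 : ℝ≥0∞)) (f := atTop (α := ℕ))).min h2
    simpa using h3

variable [MulAction (FreeGroup X) Ω] [MeasurableConstSMul (FreeGroup X) Ω]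
  [SMulInvariantMeasure (FreeGroup X) Ω m]

omit [Countable X] [MeasurableSpace (FreeGroup X)] [DiscreteMeasurableSpace (FreeGroup X)] in
theorem KK_comm (w : X → ℕ) (x y : FreeGroup X) : KK w x y = KK w y x := by
  simp [KK, ll_comm w x y]

theorem tendsto_sub (w : X → ℕ) (hw : Function.Injective w)
    (hcomm : ∀ (q : Q) (f : FreeGroup X) (ω : Ω), q • f • ω = f • q • ω) {E D : Set Ω}
    (hE : IsFundamentalDomain Q E m) (hD : IsFundamentalDomain (FreeGroup X) D m) (hDf : m D ≠ ⊤)
    (φ : Ω → FreeGroup X) (hφm : Measurable φ) (hφf : ∀ f, m {ω | φ ω = f} ≠ ⊤)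
    (hφ : ∀ᵐ ω ∂m, ∀ (q : Q) (f : FreeGroup X), φ (f • q • ω) = f * φ (q • ω))
    (a d : Q) (ha : Function.Injective (fun n : ℕ => a ^ n)) (had : a * d = d * a) :
    Tendsto (fun k : ℕ => ∫⁻ ω, (GG w (φ ω) (φ (a ^ k • ω)) -
      GG w (φ (d • ω)) (φ (a ^ k • d • ω))) ∂m) atTop (𝓝 0) := by
  have hadk : ∀ k : ℕ, a ^ k * d = d * a ^ k := fun k => (Commute.pow_left had k)
  have hG : Measurable fun p : FreeGroup X × FreeGroup X => GG w p.1 p.2 := Measurable.of_discrete
  have hK : Measurable fun p : FreeGroup X × FreeGroup X => KK w p.1 p.2 := Measurable.of_discrete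
  have hl : Measurable fun p : FreeGroup X × FreeGroup X => ll w p.1 p.2 := Measurable.of_discrete
  have hφq : ∀ q : Q, Measurable fun ω => φ (q • ω) := fun q => hφm.comp (measurable_const_smul q)
  set L : Ω → ℝ≥0∞ := fun ω => ll w (φ ω) (φ (d • ω)) with hLdef
  have hLm : Measurable L := hl.comp (hφm.prodMk (hφq d))
  have hLf : ∀ ω, L ω ≠ ⊤ := fun ω => ll_ne_top w _ _
  have hA := tendsto_min_integral w hw hE hDf φ hφm hφf (fun k => a ^ k) ha
    (fun ω => 2 * L ω + 1) ((hLm.const_mul 2).add_const 1) (fun ω => by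
      have := hLf ω; finiteness)
  have hB := tendsto_min_integral w hw hE hDf φ hφm hφf (fun k => (a ^ k)⁻¹)
    (inv_injective.comp ha) (fun ω => 2 * L ω) (hLm.const_mul 2) (fun ω => by
      have := hLf ω; finiteness)
  have hAB := hA.add hB
  rw [add_zero] at hAB
  refine tendsto_of_tendsto_of_tendsto_of_le_of_le tendsto_const_nhds hAB (fun _ => zero_le) ?_
  intro k
  dsimp only
  -- unfold over the fundamental domain
  have hem : ∀ f : FreeGroup X, Measurable fun ω : Ω => (GG w (φ (f • ω)) (φ (a ^ k • f • ω)) -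
      GG w (φ (d • f • ω)) (φ (a ^ k • d • f • ω))) := by
    intro f
    have h1 : Measurable fun ω : Ω => GG w (φ ω) (φ (a ^ k • ω)) :=
      hG.comp (hφm.prodMk (hφq _))
    have h2 : Measurable fun ω : Ω => GG w (φ (d • ω)) (φ (a ^ k • d • ω)) :=
      h1.comp (measurable_const_smul d)
    exact (h1.sub h2).comp (measurable_const_smul f)
  rw [hD.lintegral_eq_tsum'' fun ω => (GG w (φ ω) (φ (a ^ k • ω)) -
      GG w (φ (d • ω)) (φ (a ^ k • d • ω))), ← lintegral_tsum fun f => (hem f).aemeasurable]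
  have hpt : ∀ᵐ ω ∂(m.restrict D), ∑' f : FreeGroup X, (GG w (φ (f • ω)) (φ (a ^ k • f • ω)) -
      GG w (φ (d • f • ω)) (φ (a ^ k • d • f • ω))) ≤
      min 1 ((2 * L ω + 1) * (KK w (φ ω) (φ (a ^ k • ω)))⁻¹) +
      min 1 (2 * L (a ^ k • ω) * (KK w (φ ω) (φ (a ^ k • ω)))⁻¹) := by
    filter_upwards [ae_restrict_of_ae (s := D) hφ] with ω hω
    have e1 : ∀ f : FreeGroup X, φ (f • ω) = f * φ ω := by
      intro f; simpa using hω 1 f
    have e2 : ∀ f : FreeGroup X, φ (a ^ k • f • ω) = f * φ (a ^ k • ω) := by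
      intro f; rw [hcomm]; exact hω (a ^ k) f
    have e3 : ∀ f : FreeGroup X, φ (d • f • ω) = f * φ (d • ω) := by
      intro f; rw [hcomm]; exact hω d f
    have e4 : ∀ f : FreeGroup X, φ (a ^ k • d • f • ω) = f * φ (a ^ k • d • ω) := by
      intro f; rw [hcomm d, hcomm (a ^ k)]
      have := hω (a ^ k * d) f
      rwa [mul_smul] at this
    simp only [e1, e2, e3, e4]
    have b1 : ∑' f : FreeGroup X, (GG w (f * φ ω) (f * φ (a ^ k • ω)) -
        GG w (f * φ (d • ω)) (f * φ (a ^ k • d • ω))) ≤ 1 := by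
      rw [← tsum_GG w (φ ω) (φ (a ^ k • ω))]
      exact ENNReal.tsum_le_tsum fun f => tsub_le_self
    have b2 := tsum_GG_sub_le w (φ ω) (φ (a ^ k • ω)) (φ (d • ω)) (φ (a ^ k • d • ω))
    have e5 : ll w (φ (a ^ k • ω)) (φ (a ^ k • d • ω)) = L (a ^ k • ω) := by
      simp only [hLdef]
      rw [smul_smul (a ^ k) d, hadk, ← smul_smul]
    rw [e5] at b2
    have e6 : ll w (φ ω) (φ (d • ω)) = L ω := rfl
    rw [e6] at b2
    have b3 := le_min b1 b2
    refine b3.trans ?_
    have e7 : (2 * (L ω + L (a ^ k • ω)) + 1) * (KK w (φ ω) (φ (a ^ k • ω)))⁻¹ =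
        (2 * L ω + 1) * (KK w (φ ω) (φ (a ^ k • ω)))⁻¹ +
          2 * L (a ^ k • ω) * (KK w (φ ω) (φ (a ^ k • ω)))⁻¹ := by ring
    rw [e7]
    rcases le_total 1 ((2 * L ω + 1) * (KK w (φ ω) (φ (a ^ k • ω)))⁻¹) with h | h
    · rw [min_eq_left h]; exact (min_le_left _ _).trans le_self_add
    · rcases le_total 1 (2 * L (a ^ k • ω) * (KK w (φ ω) (φ (a ^ k • ω)))⁻¹) with h' | h'
      · rw [min_eq_left h']; exact (min_le_left _ _).trans le_add_self
      · rw [min_eq_right h, min_eq_right h']; exact min_le_right _ _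
  refine (lintegral_mono_ae hpt).trans ?_
  have hAm : Measurable fun ω => min 1 ((2 * L ω + 1) * (KK w (φ ω) (φ (a ^ k • ω)))⁻¹) :=
    measurable_const.min (((hLm.const_mul 2).add_const 1).mul (hK.comp (hφm.prodMk (hφq _))).inv)
  rw [lintegral_add_left hAm]
  refine add_le_add le_rfl (le_of_eq ?_)
  -- change of variables
  set h : Ω → ℝ≥0∞ := fun ω => min 1 (2 * L ω * (KK w (φ ω) (φ ((a ^ k)⁻¹ • ω)))⁻¹) with hh
  have e8 : ∀ ω, min 1 (2 * L (a ^ k • ω) * (KK w (φ ω) (φ (a ^ k • ω)))⁻¹) = h (a ^ k • ω) := by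
    intro ω
    simp only [hh]
    rw [inv_smul_smul, KK_comm w (φ (a ^ k • ω))]
  simp only [e8]
  have e9 : ∫⁻ ω in D, h (a ^ k • ω) ∂m = ∫⁻ ω in (a ^ k • D), h ω ∂m :=
    (measurePreserving_smul (a ^ k) m).setLIntegral_comp_emb (measurableEmbedding_const_smul _) _ _
  rw [e9]
  have : SMulCommClass Q (FreeGroup X) Ω := ⟨fun q f ω => hcomm q f ω⟩
  refine setLIntegral_eq_of_ae (hD.smul_of_comm (a ^ k)) hD h ?_
  filter_upwards [hφ] with ω hω f
  have e1 : φ (f • ω) = f * φ ω := by simpa using hω 1 f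
  have e2 : φ (d • f • ω) = f * φ (d • ω) := by rw [hcomm]; exact hω d f
  have e3 : φ ((a ^ k)⁻¹ • f • ω) = f * φ ((a ^ k)⁻¹ • ω) := by
    rw [hcomm]; exact hω (a ^ k)⁻¹ f
  simp only [hh, hLdef, e1, e2, e3, ll_smul, KK_smul]

theorem no_coupling (hcomm : ∀ (q : Q) (f : FreeGroup X) (ω : Ω), q • f • ω = f • q • ω)
    {E D : Set Ω} (hEm : MeasurableSet E) (hE : IsFundamentalDomain Q E m) (hDm : MeasurableSet D)
    (hD : IsFundamentalDomain (FreeGroup X) D m) (hDf : m D ≠ ⊤) (hm : m ≠ 0)
    (a : Q) (ha : Function.Injective (fun n : ℕ => a ^ n)) (j : FreeGroup (Fin 2) →* Q)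
    (hj : Function.Injective j) (haj : ∀ u, a * j u = j u * a) : False := by
  classical
  obtain ⟨w, hw⟩ := exists_injective_nat X
  let _ : MeasurableSpace Q := ⊤
  have : DiscreteMeasurableSpace Q := ⟨fun _ => trivial⟩
  obtain ⟨φ, hφm, hφD, hφ0⟩ := exists_equivariant hDm hD
  obtain ⟨β, hβm, -, hβ0⟩ := exists_equivariant hEm hE
  obtain ⟨π, hπ⟩ := exists_retract j hj
  have hφ : ∀ᵐ ω ∂m, ∀ (q : Q) (f : FreeGroup X), φ (f • q • ω) = f * φ (q • ω) := by
    rw [ae_all_iff]
    intro q
    exact (measurePreserving_smul q m).quasiMeasurePreserving.ae hφ0 |>.mono fun ω hω f => hω f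
  have hφf : ∀ f, m {ω | φ ω = f} ≠ ⊤ := by
    intro f
    have h1 : m {ω | φ ω = f} ≤ m (f • D) := by
      refine measure_mono_ae ?_
      filter_upwards [hφD] with ω hω h
      have h' : φ ω = f := h
      show ω ∈ f • D
      rw [Set.mem_smul_set_iff_inv_smul_mem, ← h']
      exact hω
    rw [measure_smul] at h1
    exact ne_top_of_le_ne_top hDf h1
  set g : ℕ → Ω → ℝ≥0∞ := fun k ω => GG w (φ ω) (φ (a ^ k • ω)) with hg
  have hG : Measurable fun p : FreeGroup X × FreeGroup X => GG w p.1 p.2 := Measurable.of_discrete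
  have hφq : ∀ q : Q, Measurable fun ω => φ (q • ω) := fun q => hφm.comp (measurable_const_smul q)
  have hgm : ∀ k, Measurable (g k) := fun k => hG.comp (hφm.prodMk (hφq _))
  have htot : ∀ k, ∫⁻ ω, g k ω ∂m = m D := by
    intro k
    have hgf : ∀ f : FreeGroup X, AEMeasurable (fun ω => g k (f • ω)) (m.restrict D) := fun f =>
      ((hgm k).comp (measurable_const_smul f)).aemeasurable
    rw [hD.lintegral_eq_tsum'' (g k), ← lintegral_tsum hgf]
    have h1 : ∀ᵐ ω ∂(m.restrict D), ∑' f : FreeGroup X, g k (f • ω) = 1 := by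
      filter_upwards [ae_restrict_of_ae (s := D) hφ] with ω hω
      have e1 : ∀ f : FreeGroup X, φ (f • ω) = f * φ ω := by
        intro f; simpa using hω 1 f
      have e2 : ∀ f : FreeGroup X, φ (a ^ k • f • ω) = f * φ (a ^ k • ω) := by
        intro f; rw [hcomm]; exact hω (a ^ k) f
      simp only [hg, e1, e2]
      exact tsum_GG w _ _
    rw [lintegral_congr_ae h1]
    simp
  have hβ : ∀ᵐ ω ∂m, ∀ u : FreeGroup (Fin 2), π (β (j u • ω)) = u * π (β ω) := by
    filter_upwards [hβ0] with ω hω u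
    rw [hω, hπ]
  set I : Fin 2 → Bool → Ω → ℝ≥0∞ := fun i b ω =>
    if (π (β ω)) ∈ FreeGroup.startsWith (i, b) then 1 else 0 with hI
  have hIm : ∀ i b, Measurable (I i b) := by
    intro i b
    have h1 : Measurable fun q : Q => (if (π q) ∈ FreeGroup.startsWith (i, b) then (1 : ℝ≥0∞) else 0) :=
      Measurable.of_discrete
    exact h1.comp hβm
  set ε : ℕ → Fin 2 → ℝ≥0∞ := fun k i => ∫⁻ ω, (g k ω - g k (j (FreeGroup.of i)⁻¹ • ω)) ∂m with hε
  have hεt : ∀ i, Tendsto (fun k => ε k i) atTop (𝓝 0) := fun i =>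
    tendsto_sub w hw hcomm hE hD hDf φ hφm hφf hφ a (j (FreeGroup.of i)⁻¹) ha (haj _)
  have hIgm : ∀ k i b, Measurable fun ω => I i b ω * g k ω := fun k i b => (hIm i b).mul (hgm k)
  have hkey : ∀ k i, m D ≤ ∫⁻ ω, I i true ω * g k ω ∂m + (∫⁻ ω, I i false ω * g k ω ∂m + ε k i) := by
    intro k i
    set d : Q := j (FreeGroup.of i)⁻¹ with hd
    have h1 : ∀ᵐ ω ∂m, g k ω ≤ I i true ω * g k ω +
        (I i false (d • ω) * g k (d • ω) + (g k ω - g k (d • ω))) := by
      filter_upwards [hβ] with ω hω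
      have h2 : I i false (d • ω) =
          if (FreeGroup.of i)⁻¹ * π (β ω) ∈ FreeGroup.startsWith (i, false) then 1 else 0 := by
        simp only [hI, hd]
        rw [hω]
      by_cases h3 : π (β ω) ∈ FreeGroup.startsWith (i, true)
      · have : I i true ω = 1 := by simp only [hI]; rw [if_pos h3]
        rw [this, one_mul]
        exact le_self_add
      · have h4 := FreeGroup.startsWith_mk_mul (w := (i, false)) (π (β ω)) (by simpa using h3)
        have h5 : (FreeGroup.mk [(i, false)] : FreeGroup (Fin 2)) = (FreeGroup.of i)⁻¹ := by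
          simp [FreeGroup.of, FreeGroup.invRev]
        rw [h5] at h4
        rw [h2, if_pos h4, one_mul]
        exact le_trans le_add_tsub le_add_self
    calc m D = ∫⁻ ω, g k ω ∂m := (htot k).symm
      _ ≤ ∫⁻ ω, (I i true ω * g k ω +
        (I i false (d • ω) * g k (d • ω) + (g k ω - g k (d • ω)))) ∂m := lintegral_mono_ae h1
      _ = ∫⁻ ω, I i true ω * g k ω ∂m + (∫⁻ ω, I i false (d • ω) * g k (d • ω) ∂m +
          ∫⁻ ω, (g k ω - g k (d • ω)) ∂m) := by
        rw [lintegral_add_left (hIgm k i true), lintegral_add_left]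
        exact (hIgm k i false).comp (measurable_const_smul d)
      _ = _ := by
        rw [(measurePreserving_smul d m).lintegral_comp (hIgm k i false)]
  have hsum : ∀ k, (∫⁻ ω, I 0 true ω * g k ω ∂m + ∫⁻ ω, I 0 false ω * g k ω ∂m) +
      (∫⁻ ω, I 1 true ω * g k ω ∂m + ∫⁻ ω, I 1 false ω * g k ω ∂m) ≤ m D := by
    intro k
    have hs0 : Measurable fun ω => I 0 true ω * g k ω + I 0 false ω * g k ω :=
      (hIgm k 0 true).add (hIgm k 0 false)
    rw [← lintegral_add_left (hIgm k 0 true), ← lintegral_add_left (hIgm k 1 true),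
      ← lintegral_add_left hs0, ← htot k]
    refine lintegral_mono fun ω => ?_
    have h1 : I 0 true ω + I 0 false ω + (I 1 true ω + I 1 false ω) ≤ 1 := by
      have hI' : ∀ i b, I i b ω = if (π (β ω)).toWord[0]? = some (i, b) then 1 else 0 := by
        intro i b
        by_cases h : (π (β ω)).toWord[0]? = some (i, b)
        · rw [if_pos h]; exact if_pos h
        · rw [if_neg h]; exact if_neg h
      rw [hI', hI', hI', hI']
      generalize (π (β ω)).toWord[0]? = x
      rcases x with _ | ⟨i, b⟩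
      · simp
      · fin_cases i <;> cases b <;> simp
    calc I 0 true ω * g k ω + I 0 false ω * g k ω + (I 1 true ω * g k ω + I 1 false ω * g k ω)
        = (I 0 true ω + I 0 false ω + (I 1 true ω + I 1 false ω)) * g k ω := by ring
      _ ≤ 1 * g k ω := by gcongr
      _ = g k ω := one_mul _
  have hfin : ∀ k, m D + m D ≤ m D + (ε k 0 + ε k 1) := by
    intro k
    calc m D + m D ≤ (∫⁻ ω, I 0 true ω * g k ω ∂m + (∫⁻ ω, I 0 false ω * g k ω ∂m + ε k 0)) +
          (∫⁻ ω, I 1 true ω * g k ω ∂m + (∫⁻ ω, I 1 false ω * g k ω ∂m + ε k 1)) :=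
            add_le_add (hkey k 0) (hkey k 1)
      _ = ((∫⁻ ω, I 0 true ω * g k ω ∂m + ∫⁻ ω, I 0 false ω * g k ω ∂m) +
      (∫⁻ ω, I 1 true ω * g k ω ∂m + ∫⁻ ω, I 1 false ω * g k ω ∂m)) + (ε k 0 + ε k 1) := by ring
      _ ≤ _ := add_le_add (hsum k) le_rfl
  have hle : ∀ k, m D ≤ ε k 0 + ε k 1 := fun k => (ENNReal.add_le_add_iff_left hDf).mp (hfin k)
  have hlim : m D ≤ 0 := by
    have h1 := (hεt 0).add (hεt 1)
    rw [add_zero] at h1
    exact ge_of_tendsto' h1 hle
  have h0 : m D = 0 := le_antisymm hlim zero_le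
  exact hD.measure_ne_zero hm h0

end Main

theorem t_NFREE : S_NFREE := by
  intro Q _ _ X _ a b c ha hab hac hinj hME
  classical
  obtain ⟨Ω, _, _, m, _, _, _, hm, hcomm, hQ, hF, -, -, ⟨s, hsm, hs, -⟩, ⟨t, htm, ht, htf⟩⟩ := hME
  have : MeasurableConstSMul Q Ω := ⟨fun q => (hQ q).measurable⟩
  have : MeasurableConstSMul (FreeGroup X) Ω := ⟨fun q => (hF q).measurable⟩
  have : SMulInvariantMeasure Q Ω m := ⟨fun q s hs => (hQ q).measure_preimage hs.nullMeasurableSet⟩
  have : SMulInvariantMeasure (FreeGroup X) Ω m :=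
    ⟨fun q s hs => (hF q).measure_preimage hs.nullMeasurableSet⟩
  let _ : MeasurableSpace (FreeGroup X) := ⊤
  have : DiscreteMeasurableSpace (FreeGroup X) := ⟨fun _ => trivial⟩
  have ha' : Function.Injective (fun n : ℕ => a ^ n) := by
    apply injective_pow_iff_not_isOfFinOrder.mpr
    intro h
    rw [isOfFinOrder_iff_pow_eq_one] at h
    obtain ⟨n, hn, h1⟩ := h
    exact ha n hn h1
  have haj : ∀ u, a * FreeGroup.lift (![b, c] : Fin 2 → Q) u =
      FreeGroup.lift (![b, c] : Fin 2 → Q) u * a := by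
    intro u
    change Commute a _
    refine FreeGroup.induction_on u ?_ ?_ ?_ ?_
    · simp
    · intro i
      fin_cases i
      · simpa [commute_iff_eq] using hab
      · simpa [commute_iff_eq] using hac
    · intro i h
      simpa using h.inv_right
    · intro x y hx hy
      simpa using hx.mul_right hy
  exact no_coupling hcomm hsm hs htm ht htf.ne hm a ha' _ hinj haj

end Pool.Agent.H28.FF.NF

namespace Pool.Agent.H28.FF

theorem t_NFREE : S_NFREE := NF.t_NFREE

end Pool.Agent.H28.FF
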