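import Pool.Agent.H28.FF.XAct

/-!
# The action of `F(ℤ) ⋊ ℤ`
-/

namespace Pool.Agent.H28.FF

open MeasureTheory Measure Set
open FreeGroup hiding map_one map_mul map_inv

/-- the exponent cocycle -/
noncomputable def al (k : ℤ) (x : XX) : KA := rel KA x (tod k x)

theorem tod_mem {x : XX} (hx : x ∈ XS) (k : ℤ) : tod k x ∈ XS := XS_of_FD (FD_tod hx k) hx

theorem al_smul {x : XX} (hx : x ∈ XS) (k : ℤ) : al k x • x = tod k x :=
  rel_smul (exists_smul_of_FD (FD_tod hx k))

theorem al_eq {x : XX} {k : ℤ} {a : KA} (h : a • x = tod k x) : al k x = a :=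
  rel_eq actX_free h

theorem al_zero (x : XX) : al 0 x = 1 := al_eq (by rw [one_smul, tod_zero])

theorem al_add {x : XX} (hx : x ∈ XS) (k l : ℤ) : al (k + l) x = al k (tod l x) * al l x := by
  refine al_eq ?_
  rw [mul_smul, al_smul hx, al_smul (tod_mem hx l), tod_add]

theorem tod_inj {x : XX} {k l : ℤ} (h : tod k x = tod l x) : k = l := by
  have h1 : tod (k - l) (tod l x) = tod l x := by
    rw [← tod_add, sub_add_cancel, h]
  have := tod_aper _ _ h1
  omega

theorem al_inj {x : XX} (hx : x ∈ XS) {k l : ℤ} (h : al k x = al l x) : k = l := by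
  refine tod_inj (x := x) ?_
  rw [← al_smul hx, ← al_smul hx, h]

theorem al_surj {x : XX} (hx : x ∈ XS) (a : KA) : ∃ k, al k x = a := by
  obtain ⟨k, hk⟩ := exists_tod_of_FD (FD_smul hx a)
  exact ⟨k, al_eq hk.symm⟩

/-- the bijection `ℤ → KA` -/
noncomputable def be (x : XX) (j : Multiplicative ℤ) : KA := (al (- Multiplicative.toAdd j) x)⁻¹

theorem be_bij {x : XX} (hx : x ∈ XS) : Function.Bijective (be x) := by
  constructor
  · intro j l h
    have h1 := al_inj hx (inv_injective h)
    exact Multiplicative.toAdd.injective (by omega)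
  · intro a
    obtain ⟨k, hk⟩ := al_surj hx a⁻¹
    refine ⟨Multiplicative.ofAdd (-k), ?_⟩
    unfold be
    rw [toAdd_ofAdd, neg_neg, hk, inv_inv]

theorem be_coc {x : XX} (hx : x ∈ XS) (k j : Multiplicative ℤ) :
    be (tod (Multiplicative.toAdd k) x) (k * j) = al (Multiplicative.toAdd k) x * be x j := by
  unfold be
  rw [toAdd_mul]
  have h1 := al_add hx (-(Multiplicative.toAdd k + Multiplicative.toAdd j)) (Multiplicative.toAdd k)
  have h2 : -(Multiplicative.toAdd k + Multiplicative.toAdd j) + Multiplicative.toAdd k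
      = - Multiplicative.toAdd j := by ring
  rw [h2] at h1
  rw [h1, mul_inv_rev, mul_inv_cancel_left]

section meas

instance : MeasurableSpace KA := ⊤
instance : DiscreteMeasurableSpace KA := ⟨fun _ => trivial⟩
instance (α : Type) : MeasurableSpace (FreeGroup α) := ⊤
instance (α : Type) : DiscreteMeasurableSpace (FreeGroup α) := ⟨fun _ => trivial⟩
instance : MeasurableSpace MM := ⊤
instance : DiscreteMeasurableSpace MM := ⟨fun _ => trivial⟩

theorem measurable_al (k : ℤ) : Measurable (al k) :=
  measurable_rel measurable_smX actX_free measurable_id (measurable_tod k)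

theorem measurable_be (j : Multiplicative ℤ) : Measurable (fun x => be x j) :=
  (Measurable.of_discrete (f := fun a : KA => a⁻¹)).comp (measurable_al _)

theorem measurable_map {Y α : Type} [MeasurableSpace Y] (f : Y → α → KA)
    (hf : ∀ a, Measurable (fun y => f y a)) (w : FreeGroup α) :
    Measurable (fun y => FreeGroup.map (f y) w) := by
  induction w using FreeGroup.induction_on with
  | C1 => simp
  | of a =>
    simp only [map.of]
    exact (Measurable.of_discrete (f := fun a : KA => (of a : FreeGroup KA))).comp (hf a)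
  | inv_of a h =>
    simp only [_root_.map_inv]
    exact (Measurable.of_discrete (f := fun a : FreeGroup KA => a⁻¹)).comp h
  | mul a b ha hb =>
    simp only [_root_.map_mul]
    exact (Measurable.of_discrete (f := fun a : FreeGroup KA × FreeGroup KA => a.1 * a.2)).comp
      (ha.prodMk hb)

theorem measurable_smul_fun {G V Y : Type} [MeasurableSpace G] [Countable G]
    [MeasurableSingletonClass G] [Group G] [MeasurableSpace V] [MulAction G V] [MeasurableSpace Y]
    (hm : ∀ g : G, Measurable (fun v : V => g • v)) {m : Y → G} {h : Y → V} (hmm : Measurable m)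
    (hh : Measurable h) : Measurable (fun y => m y • h y) :=
  (measurable_from_prod_countable_right (f := fun p : G × V => p.1 • p.2) hm).comp
    (hmm.prodMk hh)

end meas

section oem

variable {V : Type} [MulAction MM V] (π : V → XX)

/-- hypotheses -/
structure Ext (V : Type) [MulAction MM V] (π : V → XX) : Prop where
  free : ∀ g : MM, g ≠ 1 → ∀ v : V, g • v ≠ v
  mem : ∀ v, π v ∈ XS
  equi : ∀ (m : MM) (v : V), π (m • v) = m.right • π v

variable {π}

/-- the action of `ℤ` -/
noncomputable def tk (π : V → XX) (k : ℤ) (v : V) : V :=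
  (SemidirectProduct.inr (al k (π v)) : MM) • v

theorem Ext.pi_tk (E : Ext V π) (k : ℤ) (v : V) : π (tk π k v) = tod k (π v) := by
  unfold tk
  rw [E.equi, SemidirectProduct.right_inr, al_smul (E.mem v)]

theorem tk_zero (v : V) : tk π 0 v = v := by
  unfold tk
  rw [al_zero, map_one, one_smul]

theorem Ext.tk_add (E : Ext V π) (k l : ℤ) (v : V) : tk π (k + l) v = tk π k (tk π l v) := by
  have h1 := E.pi_tk l v
  unfold tk at h1 ⊢
  rw [h1, al_add (E.mem v), map_mul, mul_smul]

/-- the action of the free group -/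
noncomputable def fk (π : V → XX) (w : FreeGroup (Multiplicative ℤ)) (v : V) : V :=
  (SemidirectProduct.inl (FreeGroup.map (be (π v)) w) : MM) • v

theorem Ext.pi_fk (E : Ext V π) (w : FreeGroup (Multiplicative ℤ)) (v : V) :
    π (fk π w v) = π v := by
  unfold fk
  rw [E.equi, SemidirectProduct.right_inl, one_smul]

theorem fk_one (v : V) : fk π 1 v = v := by
  unfold fk
  rw [map_one, map_one, one_smul]

theorem Ext.fk_mul (E : Ext V π) (w w' : FreeGroup (Multiplicative ℤ)) (v : V) :
    fk π (w * w') v = fk π w (fk π w' v) := by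
  have h1 := E.pi_fk w' v
  unfold fk at h1 ⊢
  rw [h1, map_mul, map_mul, mul_smul]

theorem Ext.tk_fk (E : Ext V π) (k : Multiplicative ℤ) (w : FreeGroup (Multiplicative ℤ)) (v : V) :
    fk π (lm _ k w) (tk π (Multiplicative.toAdd k) v) = tk π (Multiplicative.toAdd k) (fk π w v) := by
  have h1 := E.pi_tk (Multiplicative.toAdd k) v
  have h2 := E.pi_fk w v
  unfold fk tk at *
  rw [h1, h2, ← mul_smul, ← mul_smul]
  congr 1
  rw [lm_apply, FreeGroup.map.comp]
  have h3 : (be (tod (Multiplicative.toAdd k) (π v)) ∘ ⇑(Equiv.mulLeft k)) =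
      (Equiv.mulLeft (al (Multiplicative.toAdd k) (π v))) ∘ be (π v) := by
    funext j
    simp only [Function.comp_apply, Equiv.coe_mulLeft]
    exact be_coc (E.mem v) k j
  rw [h3, ← FreeGroup.map.comp, ← lm_apply]
  refine SemidirectProduct.ext ?_ ?_
  · simp
  · simp

/-- the hom from `ℤ` -/
noncomputable def Ext.hT (E : Ext V π) : Multiplicative ℤ →* Equiv.Perm V where
  toFun k := ⟨tk π (Multiplicative.toAdd k), tk π (- Multiplicative.toAdd k), fun v => by
    rw [← E.tk_add, neg_add_cancel, tk_zero], fun v => by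
    rw [← E.tk_add, add_neg_cancel, tk_zero]⟩
  map_one' := by
    refine Equiv.ext fun v => ?_
    exact tk_zero v
  map_mul' k l := by
    refine Equiv.ext fun v => ?_
    exact E.tk_add _ _ v

/-- the hom from the free group -/
noncomputable def Ext.hF (E : Ext V π) : FreeGroup (Multiplicative ℤ) →* Equiv.Perm V where
  toFun w := ⟨fk π w, fk π w⁻¹, fun v => by
    rw [← E.fk_mul, inv_mul_cancel, fk_one], fun v => by
    rw [← E.fk_mul, mul_inv_cancel, fk_one]⟩
  map_one' := by
    refine Equiv.ext fun v => ?_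
    exact fk_one v
  map_mul' k l := by
    refine Equiv.ext fun v => ?_
    exact E.fk_mul _ _ v

/-- the hom from the semidirect product -/
noncomputable def Ext.hL (E : Ext V π) : Mg (Multiplicative ℤ) →* Equiv.Perm V :=
  SemidirectProduct.lift E.hF E.hT (by
    intro k
    refine MonoidHom.ext fun w => ?_
    simp only [MonoidHom.comp_apply, MulEquiv.coe_toMonoidHom, MulAut.conj_apply]
    rw [eq_mul_inv_iff_mul_eq]
    refine Equiv.ext fun v => ?_
    exact E.tk_fk k w v)

theorem Ext.hL_apply (E : Ext V π) (l : Mg (Multiplicative ℤ)) (v : V) :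
    E.hL l v = fk π l.left (tk π (Multiplicative.toAdd l.right) v) := rfl

theorem Ext.hL_free (E : Ext V π) (l : Mg (Multiplicative ℤ)) (v : V) (h : E.hL l v = v) :
    l = 1 := by
  rw [E.hL_apply] at h
  have h1 := congrArg π h
  rw [E.pi_fk, E.pi_tk] at h1
  have h2 := tod_aper _ _ h1
  have h3 : l.right = 1 := Multiplicative.toAdd.injective h2
  rw [h2, tk_zero] at h
  unfold fk at h
  have h4 : (SemidirectProduct.inl (FreeGroup.map (be (π v)) l.left) : MM) = 1 := by
    by_contra h5
    exact E.free _ h5 v h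
  have h5 : FreeGroup.map (be (π v)) l.left = 1 :=
    SemidirectProduct.inl_injective (h4.trans (map_one _).symm)
  have h6 : l.left = 1 := by
    refine FreeGroup.map_injective (be_bij (E.mem v)).1 ?_
    rw [h5, map_one]
  ext
  · rw [h6]; rfl
  · rw [h3]; rfl

theorem Ext.hL_orb (E : Ext V π) (v w : V) : (∃ m : MM, m • v = w) ↔ ∃ l, E.hL l v = w := by
  constructor
  · rintro ⟨m, rfl⟩
    obtain ⟨k, hk⟩ := al_surj (E.mem v) m.right
    set v' := tk π k v with hv'
    have h1 : v' = (SemidirectProduct.inr m.right : MM) • v := by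
      rw [hv']; unfold tk; rw [hk]
    obtain ⟨w, hw⟩ := FreeGroup.map_surjective (be_bij (E.mem v')).2 m.left
    refine ⟨⟨w, Multiplicative.ofAdd k⟩, ?_⟩
    rw [E.hL_apply]
    change fk π w v' = _
    unfold fk
    rw [hw, h1, ← mul_smul, SemidirectProduct.inl_left_mul_inr_right]
  · rintro ⟨l, rfl⟩
    rw [E.hL_apply]
    unfold fk tk
    exact ⟨_, mul_smul _ _ _⟩

theorem Ext.hL_meas [MeasurableSpace V] (E : Ext V π) (hm : ∀ g : MM, Measurable (fun v : V => g • v))
    (hπ : Measurable π) (l : Mg (Multiplicative ℤ)) : Measurable (fun v => E.hL l v) := by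
  have h1 : Measurable (fun v => tk π (Multiplicative.toAdd l.right) v) := by
    unfold tk
    refine measurable_smul_fun hm ?_ measurable_id
    exact (Measurable.of_discrete (f := fun a : KA => (SemidirectProduct.inr a : MM))).comp
      ((measurable_al _).comp hπ)
  have h2 : Measurable (fun v => fk π l.left v) := by
    unfold fk
    refine measurable_smul_fun hm ?_ measurable_id
    exact (Measurable.of_discrete (f := fun a : FreeGroup KA => (SemidirectProduct.inl a : MM))).comp
      ((measurable_map _ (fun j => measurable_be j) _).comp hπ)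
  exact h2.comp h1

end oem

/-! ### `F₂` -/

/-- generators -/
noncomputable def gF2 : F2 →* Mg (Multiplicative ℤ) :=
  FreeGroup.lift ![SemidirectProduct.inr (Multiplicative.ofAdd 1), SemidirectProduct.inl (of 1)]

/-- the inverse -/
noncomputable def gF2' : Mg (Multiplicative ℤ) →* F2 :=
  SemidirectProduct.lift (FreeGroup.lift (fun j : Multiplicative ℤ =>
      (of (0 : Fin 2)) ^ (Multiplicative.toAdd j) * of 1 * ((of (0 : Fin 2)) ^ (Multiplicative.toAdd j))⁻¹))
    (zpowersHom F2 (of 0)) (by
      intro k
      ext j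
      simp only [MonoidHom.comp_apply, MulEquiv.coe_toMonoidHom, lm_of, MulAut.conj_apply,
        FreeGroup.lift_apply_of, toAdd_mul, zpowersHom_apply, zpow_add]
      group)

theorem gF2_left (x : F2) : gF2' (gF2 x) = x := by
  have : gF2'.comp gF2 = MonoidHom.id _ := by
    ext i
    fin_cases i
    · simp [gF2, gF2']
    · simp [gF2, gF2']
  exact DFunLike.congr_fun this x

theorem gF2_right (x : Mg (Multiplicative ℤ)) : gF2 (gF2' x) = x := by
  have : gF2.comp gF2' = MonoidHom.id _ := by
    refine SemidirectProduct.hom_ext ?_ ?_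
    · refine FreeGroup.ext_hom _ _ fun j => ?_
      simp only [MonoidHom.comp_apply, gF2', SemidirectProduct.lift_inl, FreeGroup.lift_apply_of,
        gF2, map_mul, map_zpow, map_inv, Matrix.cons_val_zero, Matrix.cons_val_one,
        MonoidHom.id_apply]
      rw [← map_zpow, ← map_inv, ← SemidirectProduct.inl_aut, lm_of, mul_one]
      congr 2
      rw [← ofAdd_zsmul]; simp
    · refine MonoidHom.ext_mint ?_
      simp [gF2, gF2']
  exact DFunLike.congr_fun this x

/-- the isomorphism -/
noncomputable def eF2 : F2 ≃* Mg (Multiplicative ℤ) :=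
  { gF2 with
    invFun := gF2'
    left_inv := gF2_left
    right_inv := gF2_right }

theorem oem {V : Type} [MeasurableSpace V] [MulAction MM V] {π : V → XX} (E : Ext V π)
    (hm : ∀ g : MM, Measurable (fun v : V => g • v)) (hπ : Measurable π) :
    ∃ (_ : MulAction F2 V), (∀ l : F2, Measurable (fun v : V => l • v)) ∧
      (∀ l : F2, l ≠ 1 → ∀ v : V, l • v ≠ v) ∧
      (∀ v w : V, (∃ m : MM, m • v = w) ↔ ∃ l : F2, l • v = w) := by
  let a : MulAction F2 V := MulAction.compHom V (E.hL.comp eF2.toMonoidHom)
  have ha : ∀ (l : F2) (v : V), l • v = E.hL (eF2 l) v := fun l v => rfl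
  refine ⟨a, ?_, ?_, ?_⟩
  · intro l
    simp only [ha]
    exact E.hL_meas hm hπ _
  · intro l hl v h
    rw [ha] at h
    exact hl ((map_eq_one_iff eF2 eF2.injective).1 (E.hL_free _ _ h))
  · intro v w
    rw [E.hL_orb]
    constructor
    · rintro ⟨l, hl⟩
      refine ⟨eF2.symm l, ?_⟩
      rw [ha, MulEquiv.apply_symm_apply, hl]
    · rintro ⟨l, hl⟩
      exact ⟨eF2 l, by rw [← hl, ha]⟩

end Pool.Agent.H28.FF
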