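import Pool.Agent.H28.FF.Stm

/-!
# Orbit equivalence gives measure equivalence
-/

namespace Pool.Agent.H28.FF

open MeasureTheory Measure Set

section rel

open Classical in
/-- an element of `G` moving `x` to `y`, if there is one -/
noncomputable def rel (G : Type) [Group G] {Z : Type} [MulAction G Z] (x y : Z) : G :=
  if h : ∃ g : G, g • x = y then h.choose else 1

variable {G Z : Type} [Group G] [MulAction G Z]

theorem rel_smul {x y : Z} (h : ∃ g : G, g • x = y) : rel G x y • x = y := by
  unfold rel; rw [dif_pos h]; exact h.choose_spec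

theorem free_inj (hf : ∀ g : G, g ≠ 1 → ∀ x : Z, g • x ≠ x) {g g' : G} {x : Z}
    (h : g • x = g' • x) : g = g' := by
  by_contra hne
  refine hf (g'⁻¹ * g) ?_ x ?_
  · intro h1
    exact hne (inv_mul_eq_one.1 h1).symm
  · rw [mul_smul, h, inv_smul_smul]

theorem rel_eq (hf : ∀ g : G, g ≠ 1 → ∀ x : Z, g • x ≠ x) {g : G} {x y : Z} (h : g • x = y) :
    rel G x y = g :=
  free_inj hf (by rw [rel_smul ⟨g, h⟩, h])

theorem measurable_rel [Countable G] [MeasurableSpace G] [MeasurableSpace Z] [MeasurableEq Z]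
    (hm : ∀ g : G, Measurable (fun x : Z => g • x))
    (hf : ∀ g : G, g ≠ 1 → ∀ x : Z, g • x ≠ x) {Y : Type} [MeasurableSpace Y] {f g : Y → Z}
    (hfm : Measurable f) (hgm : Measurable g) : Measurable (fun y => rel G (f y) (g y)) := by
  have h1 : ∀ γ : G, MeasurableSet {y | γ • f y = g y} := fun γ =>
    measurableSet_eq_fun ((hm γ).comp hfm) hgm
  refine measurable_to_countable' fun γ => ?_
  by_cases hγ : γ = 1
  · have h2 : (fun y => rel G (f y) (g y)) ⁻¹' {γ} =
        {y | (1 : G) • f y = g y} ∪ (⋃ γ : G, {y | γ • f y = g y})ᶜ := by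
      ext y
      simp only [mem_preimage, mem_singleton_iff, mem_union, mem_setOf_eq, mem_compl_iff,
        mem_iUnion, not_exists]
      constructor
      · intro h
        by_cases h3 : ∃ γ : G, γ • f y = g y
        · left
          rw [← hγ, ← h]
          exact rel_smul h3
        · right
          exact fun x hx => h3 ⟨x, hx⟩
      · rintro (h | h)
        · rw [hγ]; exact rel_eq hf h
        · unfold rel
          rw [dif_neg (by rintro ⟨x, hx⟩; exact h x hx), hγ]
    rw [h2]
    exact (h1 1).union (MeasurableSet.iUnion h1).compl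
  · have h2 : (fun y => rel G (f y) (g y)) ⁻¹' {γ} = {y | γ • f y = g y} := by
      ext y
      simp only [mem_preimage, mem_singleton_iff, mem_setOf_eq]
      constructor
      · intro h
        by_cases h3 : ∃ γ : G, γ • f y = g y
        · rw [← h]; exact rel_smul h3
        · unfold rel at h
          rw [dif_neg h3] at h
          exact absurd h.symm hγ
      · exact fun h => rel_eq hf h
    rw [h2]
    exact h1 γ

end rel

theorem t_OEME : S_OEME := by
  intro Γ Λ _ _ _ _ Z _ _ μ _ _ _ hΓ hΛ fΓ fΛ hor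
  letI : MeasurableSpace Λ := ⊤
  haveI : DiscreteMeasurableSpace Λ := ⟨fun _ => trivial⟩
  let α : Γ → Z → Λ := fun γ z => rel Λ z (γ • z)
  have hα : ∀ γ z, α γ z • z = γ • z := fun γ z => rel_smul ((hor z (γ • z)).1 ⟨γ, rfl⟩)
  have hαm : ∀ γ, Measurable (α γ) := fun γ =>
    measurable_rel hΛ fΛ measurable_id (hΓ γ).measurable
  have hαmul : ∀ γ γ' z, α (γ * γ') z = α γ (γ' • z) * α γ' z := by
    intro γ γ' z
    refine free_inj (x := z) fΛ ?_
    rw [hα, mul_smul, mul_smul, hα, hα]
  have hα1 : ∀ z, α 1 z = 1 := fun z => free_inj (x := z) fΛ (by rw [hα, one_smul, one_smul])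
  let aΓ : MulAction Γ (Z × Λ) :=
    { smul := fun γ p => (γ • p.1, p.2 * (α γ p.1)⁻¹)
      one_smul := fun p => by
        change ((1 : Γ) • p.1, p.2 * (α 1 p.1)⁻¹) = p
        rw [hα1, one_smul, inv_one, mul_one]
      mul_smul := fun γ γ' p => by
        change ((γ * γ') • p.1, p.2 * (α (γ * γ') p.1)⁻¹) =
          (γ • γ' • p.1, (p.2 * (α γ' p.1)⁻¹) * (α γ (γ' • p.1))⁻¹)
        rw [hαmul, mul_smul, mul_inv_rev, mul_assoc] }
  let aΛ : MulAction Λ (Z × Λ) :=
    { smul := fun l p => (p.1, l * p.2)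
      one_smul := fun p => by
        change (p.1, 1 * p.2) = p
        rw [one_mul]
      mul_smul := fun l l' p => by
        change (p.1, (l * l') * p.2) = (p.1, l * (l' * p.2))
        rw [mul_assoc] }
  have mpΓ : ∀ g : Γ, MeasurePreserving (fun p : Z × Λ => (g • p.1, p.2 * (α g p.1)⁻¹))
      (μ.prod count) (μ.prod count) := by
    intro g
    refine MeasurePreserving.skew_product (g := fun z l => l * (α g z)⁻¹) (hΓ g) ?_ ?_
    · refine measurable_from_prod_countable_left ?_
      intro l
      exact (Measurable.of_discrete (f := fun k : Λ => l * k⁻¹)).comp (hαm g)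
    · refine Filter.Eventually.of_forall fun z => ?_
      exact ((measurePreserving_mul_right count (α g z)⁻¹)).map_eq
  have mpΛ : ∀ l : Λ, MeasurePreserving (fun p : Z × Λ => (p.1, l * p.2))
      (μ.prod count) (μ.prod count) := by
    intro l
    exact (MeasurePreserving.id μ).prod (measurePreserving_mul_left count l)
  have hms : MeasurableSet {p : Z × Λ | p.2 = 1} :=
    measurable_snd (MeasurableSet.of_discrete (s := {(1 : Λ)}))
  have hms' : (μ.prod count) {p : Z × Λ | p.2 = 1} < ⊤ := by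
    have : {p : Z × Λ | p.2 = 1} = univ ×ˢ {(1 : Λ)} := by
      ext p; simp
    rw [this, Measure.prod_prod]
    simp
  refine ⟨Z × Λ, inferInstance, inferInstance, μ.prod count, inferInstance, aΓ, aΛ, ?_, ?_,
    mpΓ, mpΛ, ?_, ?_, ⟨{p | p.2 = 1}, hms, ?_, hms'⟩, ⟨{p | p.2 = 1}, hms, ?_, hms'⟩⟩
  · intro h
    have h1 : (μ.prod count) (univ ×ˢ {(1 : Λ)}) = 0 := by rw [h]; rfl
    rw [Measure.prod_prod] at h1
    simp at h1
  · intro g l x
    change (g • x.1, (l * x.2) * (α g x.1)⁻¹) = (g • x.1, l * (x.2 * (α g x.1)⁻¹))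
    rw [mul_assoc]
  · intro g hg
    refine Filter.Eventually.of_forall fun x h => ?_
    exact fΓ g hg x.1 (congrArg Prod.fst h)
  · intro l hl
    refine Filter.Eventually.of_forall fun x h => ?_
    exact hl (mul_eq_right.1 (congrArg Prod.snd h))
  · refine IsFundamentalDomain.mk' hms.nullMeasurableSet fun x => ?_
    obtain ⟨g, hg⟩ := (hor x.1 (x.2 • x.1)).2 ⟨x.2, rfl⟩
    refine ⟨g, ?_, ?_⟩
    · change x.2 * (α g x.1)⁻¹ = 1
      rw [mul_inv_eq_one]
      exact free_inj (x := x.1) fΛ (by rw [hα, hg])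
    · intro g' hg'
      change x.2 * (α g' x.1)⁻¹ = 1 at hg'
      rw [mul_inv_eq_one] at hg'
      refine free_inj (x := x.1) fΓ ?_
      rw [hg, hg', hα]
  · refine IsFundamentalDomain.mk' hms.nullMeasurableSet fun x => ?_
    refine ⟨x.2⁻¹, ?_, ?_⟩
    · change x.2⁻¹ * x.2 = 1
      rw [inv_mul_cancel]
    · intro g' hg'
      change g' * x.2 = 1 at hg'
      exact eq_inv_of_mul_eq_one_left hg'

end Pool.Agent.H28.FF
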