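import Pool.Agent.H28.FF.Haar

/-!
# The odometer
-/

namespace Pool.Agent.H28.FF

open MeasureTheory Measure Set

theorem z2_cases (a : ZMod 2) : a = 0 ∨ a = 1 := by
  revert a; decide

theorem z2_add_self (a : ZMod 2) : a + a = 0 := by
  revert a; decide

open Classical in
/-- the odometer -/
noncomputable def odf (s : CC ℕ) : CC ℕ := fun n => s n + (if ∀ m < n, s m = 1 then 1 else 0)

open Classical in
/-- the inverse odometer -/
noncomputable def odg (s : CC ℕ) : CC ℕ := fun n => s n + (if ∀ m < n, s m = 0 then 1 else 0)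

theorem odf_iff (s : CC ℕ) (n : ℕ) : (∀ m < n, odf s m = 0) ↔ (∀ m < n, s m = 1) := by
  constructor
  · induction n with
    | zero => intro _ m hm; omega
    | succ n ih =>
      intro h m hm
      have h1 := ih (fun m hm => h m (by omega))
      rcases Nat.lt_succ_iff_lt_or_eq.1 hm with h2 | h2
      · exact h1 m h2
      · rw [h2]
        have h3 := h n (by omega)
        unfold odf at h3
        rw [if_pos h1] at h3
        rcases z2_cases (s n) with h4 | h4
        · rw [h4] at h3; exact absurd h3 (by decide)
        · exact h4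
  · intro h m hm
    unfold odf
    rw [if_pos (fun k hk => h k (by omega)), h m hm]
    decide

theorem odg_iff (s : CC ℕ) (n : ℕ) : (∀ m < n, odg s m = 1) ↔ (∀ m < n, s m = 0) := by
  constructor
  · induction n with
    | zero => intro _ m hm; omega
    | succ n ih =>
      intro h m hm
      have h1 := ih (fun m hm => h m (by omega))
      rcases Nat.lt_succ_iff_lt_or_eq.1 hm with h2 | h2
      · exact h1 m h2
      · rw [h2]
        have h3 := h n (by omega)
        unfold odg at h3
        rw [if_pos h1] at h3
        rcases z2_cases (s n) with h4 | h4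
        · exact h4
        · rw [h4] at h3; exact absurd h3 (by decide)
  · intro h m hm
    unfold odg
    rw [if_pos (fun k hk => h k (by omega)), h m hm]
    decide

theorem odg_odf (s : CC ℕ) : odg (odf s) = s := by
  funext n
  have h1 := odf_iff s n
  unfold odg
  by_cases h : ∀ m < n, s m = 1
  · rw [if_pos (h1.2 h)]
    unfold odf
    rw [if_pos h, add_assoc, z2_add_self, add_zero]
  · rw [if_neg (fun h' => h (h1.1 h'))]
    unfold odf
    rw [if_neg h, add_zero, add_zero]

theorem odf_odg (s : CC ℕ) : odf (odg s) = s := by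
  funext n
  have h1 := odg_iff s n
  unfold odf
  by_cases h : ∀ m < n, s m = 0
  · rw [if_pos (h1.2 h)]
    unfold odg
    rw [if_pos h, add_assoc, z2_add_self, add_zero]
  · rw [if_neg (fun h' => h (h1.1 h'))]
    unfold odg
    rw [if_neg h, add_zero, add_zero]

theorem measurable_odf : Measurable odf := by
  refine measurable_pi_iff.2 fun n => ?_
  unfold odf
  refine (measurable_pi_apply n).add (Measurable.ite ?_ measurable_const measurable_const)
  simp only [setOf_forall]
  refine MeasurableSet.iInter fun m => MeasurableSet.iInter fun _ => ?_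
  exact measurableSet_eq_fun (measurable_pi_apply m) measurable_const

theorem measurable_odg : Measurable odg := by
  refine measurable_pi_iff.2 fun n => ?_
  unfold odg
  refine (measurable_pi_apply n).add (Measurable.ite ?_ measurable_const measurable_const)
  simp only [setOf_forall]
  refine MeasurableSet.iInter fun m => MeasurableSet.iInter fun _ => ?_
  exact measurableSet_eq_fun (measurable_pi_apply m) measurable_const

/-- the odometer as a permutation -/
noncomputable def od : Equiv.Perm (CC ℕ) := ⟨odf, odg, odg_odf, odf_odg⟩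

theorem od_apply (s : CC ℕ) : od s = odf s := rfl
theorem od_inv_apply (s : CC ℕ) : od⁻¹ s = odg s := rfl

theorem measurable_od_zpow (k : ℤ) : Measurable (fun s => (od ^ k) s) := by
  induction k using Int.induction_on with
  | zero =>
    have : (fun s => (od ^ (0 : ℤ)) s) = id := by funext s; simp
    rw [this]
    exact measurable_id
  | succ n ih =>
    have : (fun s => (od ^ ((n : ℤ) + 1)) s) = (fun s => (od ^ (n : ℤ)) s) ∘ odf := by
      funext s
      rw [zpow_add_one, Equiv.Perm.mul_apply]; rfl
    rw [this]
    exact ih.comp measurable_odf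
  | pred n ih =>
    have : (fun s => (od ^ (-(n : ℤ) - 1)) s) = (fun s => (od ^ (-(n : ℤ))) s) ∘ odg := by
      funext s
      rw [zpow_sub_one, Equiv.Perm.mul_apply]; rfl
    rw [this]
    exact ih.comp measurable_odg

theorem measurable_od_joint : Measurable (fun p : ℤ × CC ℕ => (od ^ p.1) p.2) :=
  measurable_from_prod_countable_right (fun k => measurable_od_zpow k)

theorem od_zero (s : CC ℕ) : od s 0 = s 0 + 1 := by
  rw [od_apply]; unfold odf; simp

theorem od_zpow_zero (k : ℤ) (s : CC ℕ) : (od ^ k) s 0 = s 0 + (k : ZMod 2) := by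
  induction k using Int.induction_on generalizing s with
  | zero => simp
  | succ n ih =>
    rw [zpow_add_one, Equiv.Perm.mul_apply, ih, od_zero]
    push_cast; ring
  | pred n ih =>
    rw [zpow_sub_one, Equiv.Perm.mul_apply, ih]
    have h1 : s 0 = (od⁻¹ s) 0 + 1 := by
      rw [← od_zero]; simp
    rw [h1]
    push_cast; ring

/-- shift -/
def shf (s : CC ℕ) : CC ℕ := fun n => s (n + 1)

theorem shf_od_zero (s : CC ℕ) (h : s 0 = 0) : shf (od s) = shf s := by
  funext n
  rw [od_apply]
  unfold shf odf
  rw [if_neg, add_zero]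
  intro h'
  have := h' 0 (by omega)
  rw [h] at this
  exact absurd this (by decide)

theorem shf_od_one (s : CC ℕ) (h : s 0 = 1) : shf (od s) = od (shf s) := by
  funext n
  rw [od_apply, od_apply]
  unfold shf odf
  congr 1
  have : (∀ m < n + 1, s m = 1) ↔ (∀ m < n, s (m + 1) = 1) := by
    constructor
    · intro h' m hm; exact h' (m + 1) (by omega)
    · intro h' m hm
      cases m with
      | zero => exact h
      | succ m => exact h' m (by omega)
  by_cases h2 : ∀ m < n + 1, s m = 1
  · rw [if_pos h2, if_pos (this.1 h2)]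
  · rw [if_neg h2, if_neg (fun h' => h2 (this.2 h'))]

theorem shf_od_two (s : CC ℕ) : shf (od (od s)) = od (shf s) := by
  rcases z2_cases (s 0) with h | h
  · rw [shf_od_one (od s) (by rw [od_zero, h]; decide), shf_od_zero s h]
  · rw [shf_od_zero (od s) (by rw [od_zero, h]; decide), shf_od_one s h]

theorem shf_od_pow (j : ℕ) (s : CC ℕ) : shf ((od ^ (2 * j)) s) = (od ^ j) (shf s) := by
  induction j generalizing s with
  | zero => rfl
  | succ j ih =>
    have e : 2 * (j + 1) = 2 * j + 1 + 1 := by ring
    rw [e, pow_succ, pow_succ, Equiv.Perm.mul_apply, Equiv.Perm.mul_apply, ih, shf_od_two,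
      pow_succ, Equiv.Perm.mul_apply]

theorem od_aper (n : ℕ) (hn : 0 < n) (s : CC ℕ) : (od ^ n) s ≠ s := by
  induction n using Nat.strong_induction_on generalizing s with
  | _ n ih =>
    intro h
    rcases Nat.even_or_odd n with he | ho
    · obtain ⟨j, hj⟩ := he
      have hj' : n = 2 * j := by omega
      have h1 := shf_od_pow j s
      rw [← hj', h] at h1
      exact ih j (by omega) (by omega) (shf s) h1.symm
    · have h1 := od_zpow_zero (n : ℤ) s
      rw [zpow_natCast, h] at h1
      have h2 : ((n : ℤ) : ZMod 2) = 0 := by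
        simpa using h1
      rw [Int.cast_natCast, ZMod.natCast_eq_zero_iff] at h2
      exact (Nat.not_even_iff_odd.2 ho) (even_iff_two_dvd.2 h2)

theorem od_aper' (k : ℤ) (s : CC ℕ) (h : (od ^ k) s = s) : k = 0 := by
  by_contra hk
  rcases lt_or_gt_of_ne hk with h1 | h1
  · refine od_aper (-k).toNat (by omega) s ?_
    have e : (od ^ (-k).toNat) = od ^ (-k) := by
      rw [← zpow_natCast, Int.toNat_of_nonneg (by omega)]
    rw [e, zpow_neg, Equiv.Perm.inv_eq_iff_eq, h]
  · refine od_aper k.toNat (by omega) s ?_
    have e : (od ^ k.toNat) = od ^ k := by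
      rw [← zpow_natCast, Int.toNat_of_nonneg (by omega)]
    rw [e, h]

theorem od_trans_aux (N : ℕ) : ∀ s s' : CC ℕ, (∀ n, N ≤ n → s n = s' n) →
    ∃ k : ℤ, (od ^ k) s = s' := by
  induction N with
  | zero =>
    intro s s' h
    exact ⟨0, by rw [zpow_zero, Equiv.Perm.one_apply]; funext n; exact h n (by omega)⟩
  | succ N ih =>
    have case1 : ∀ s s' : CC ℕ, (∀ n, N + 1 ≤ n → s n = s' n) → s N = 0 → s' N = 1 →
        ∃ k : ℤ, (od ^ k) s = s' := by
      intro s s' h h0 h1
      let t : CC ℕ := fun n => if n < N then 1 else s n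
      obtain ⟨k, hk⟩ := ih s t (by
        intro n hn
        simp only [t]
        rw [if_neg (by omega)])
      obtain ⟨k', hk'⟩ := ih (od t) s' (by
        intro n hn
        rw [od_apply]
        unfold odf
        rcases Nat.eq_or_lt_of_le hn with h2 | h2
        · rw [← h2, if_pos]
          · simp only [t]
            rw [if_neg (by omega), h0, h1]; decide
          · intro m hm
            simp only [t]
            rw [if_pos hm]
        · rw [if_neg]
          · simp only [t]
            rw [if_neg (by omega), add_zero]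
            exact h n h2
          · intro h3
            have h4 := h3 N h2
            simp only [t] at h4
            rw [if_neg (by omega), h0] at h4
            exact absurd h4 (by decide))
      refine ⟨k' + (1 + k), ?_⟩
      rw [zpow_add, zpow_add, zpow_one, Equiv.Perm.mul_apply, Equiv.Perm.mul_apply, hk, hk']
    intro s s' h
    by_cases h1 : s N = s' N
    · refine ih s s' fun n hn => ?_
      rcases Nat.eq_or_lt_of_le hn with h2 | h2
      · rw [← h2, h1]
      · exact h n h2
    · rcases z2_cases (s N) with h2 | h2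
      · rcases z2_cases (s' N) with h3 | h3
        · exact absurd (h2.trans h3.symm) h1
        · exact case1 s s' h h2 h3
      · rcases z2_cases (s' N) with h3 | h3
        · obtain ⟨k, hk⟩ := case1 s' s (fun n hn => (h n hn).symm) h3 h2
          refine ⟨-k, ?_⟩
          rw [zpow_neg, Equiv.Perm.inv_eq_iff_eq, hk]
        · exact absurd (h2.trans h3.symm) h1

/-- finite difference -/
def FD {ι : Type} (x y : CC ι) : Prop := {i | x i ≠ y i}.Finite

theorem FD.refl {ι : Type} (x : CC ι) : FD x x := by
  unfold FD; simp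

theorem FD.symm {ι : Type} {x y : CC ι} (h : FD x y) : FD y x := by
  unfold FD at *
  simpa only [ne_comm] using h

theorem FD.trans {ι : Type} {x y z : CC ι} (h : FD x y) (h' : FD y z) : FD x z := by
  refine (Set.Finite.union h h').subset ?_
  intro i hi
  by_cases h1 : x i = y i
  · right
    intro h2
    exact hi (h1.trans h2)
  · left; exact h1

theorem FD_nat {x y : CC ℕ} : FD x y ↔ ∃ N, ∀ n, N ≤ n → x n = y n := by
  constructor
  · intro h
    obtain ⟨N, hN⟩ := h.bddAbove
    refine ⟨N + 1, fun n hn => ?_⟩
    by_contra h'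
    have := hN h'
    omega
  · rintro ⟨N, hN⟩
    refine (Set.finite_lt_nat N).subset ?_
    intro n hn
    by_contra h
    exact hn (hN n (not_lt.1 h))

theorem od_trans {s s' : CC ℕ} (h : FD s s') : ∃ k : ℤ, (od ^ k) s = s' := by
  obtain ⟨N, hN⟩ := FD_nat.1 h
  exact od_trans_aux N s s' hN

/-- not eventually constant -/
def NEC (s : CC ℕ) : Prop := ∀ N, (∃ n, N ≤ n ∧ s n = 0) ∧ (∃ n, N ≤ n ∧ s n = 1)

theorem NEC.of_FD {s s' : CC ℕ} (h : NEC s) (hf : FD s s') : NEC s' := by
  obtain ⟨N, hN⟩ := FD_nat.1 hf
  intro M
  obtain ⟨⟨n, hn, h1⟩, ⟨n', hn', h1'⟩⟩ := h (max M N)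
  exact ⟨⟨n, by omega, by rw [← hN n (by omega), h1]⟩,
    ⟨n', by omega, by rw [← hN n' (by omega), h1']⟩⟩

theorem FD_od {s : CC ℕ} (h : NEC s) : FD s (od s) := by
  obtain ⟨n, hn, h1⟩ := (h 0).1
  refine FD_nat.2 ⟨n + 1, fun m hm => ?_⟩
  rw [od_apply]; unfold odf
  rw [if_neg, add_zero]
  intro h2
  have := h2 n (by omega)
  rw [h1] at this
  exact absurd this (by decide)

theorem FD_od_inv {s : CC ℕ} (h : NEC s) : FD s (od⁻¹ s) := by
  obtain ⟨n, hn, h1⟩ := (h 0).2
  refine FD_nat.2 ⟨n + 1, fun m hm => ?_⟩
  rw [od_inv_apply]; unfold odg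
  rw [if_neg, add_zero]
  intro h2
  have := h2 n (by omega)
  rw [h1] at this
  exact absurd this (by decide)

theorem FD_od_zpow {s : CC ℕ} (h : NEC s) (k : ℤ) : FD s ((od ^ k) s) := by
  induction k using Int.induction_on generalizing s with
  | zero => exact FD.refl s
  | succ n ih =>
    rw [zpow_add_one, Equiv.Perm.mul_apply]
    exact (FD_od h).trans (ih (h.of_FD (FD_od h)))
  | pred n ih =>
    rw [zpow_sub_one, Equiv.Perm.mul_apply]
    exact (FD_od_inv h).trans (ih (h.of_FD (FD_od_inv h)))

end Pool.Agent.H28.FF
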