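import Pool.Agent.H28.FF.Stm

/-!
# Lattices of second countable groups: the invariant measure is automatically regular
-/

namespace Pool.Agent.H28.FF

open MeasureTheory Topology

/-- `G ⧸ Γ` is Hausdorff when `Γ` is closed -/
theorem t2_quot {G : Type} [Group G] [TopologicalSpace G] [IsTopologicalGroup G] (Γ : Subgroup G)
    (hc : IsClosed (Γ : Set G)) : T2Space (G ⧸ Γ) := by
  refine ⟨fun x y hxy => ?_⟩
  obtain ⟨a, rfl⟩ := QuotientGroup.mk_surjective x
  obtain ⟨b, rfl⟩ := QuotientGroup.mk_surjective y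
  have hab : a⁻¹ * b ∈ (Γ : Set G)ᶜ := fun h => hxy (QuotientGroup.eq.2 h)
  have hcont : Continuous (fun p : G × G => p.1⁻¹ * p.2) := by fun_prop
  have hO : IsOpen ((fun p : G × G => p.1⁻¹ * p.2) ⁻¹' (Γ : Set G)ᶜ) := hc.isOpen_compl.preimage hcont
  obtain ⟨U, V, hU, hV, ha, hb, hUV⟩ := isOpen_prod_iff.1 hO a b hab
  refine ⟨(fun g : G => (g : G ⧸ Γ)) '' U, (fun g : G => (g : G ⧸ Γ)) '' V,
    QuotientGroup.isOpenMap_coe U hU, QuotientGroup.isOpenMap_coe V hV, ⟨a, ha, rfl⟩, ⟨b, hb, rfl⟩, ?_⟩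
  rw [Set.disjoint_left]
  rintro _ ⟨u, hu, rfl⟩ ⟨v, hv, hvu⟩
  have h1 : ((u, v) : G × G) ∈ U ×ˢ V := ⟨hu, hv⟩
  have h2 := hUV h1
  exact h2 (QuotientGroup.eq.1 hvu.symm)

/-- A lattice of a locally compact group `G`: a discrete subgroup `Λ` such that `G ⧸ Λ` carries a
`G`-invariant Borel probability measure; if `G` is not second countable then this measure is required to be
regular (that is a Radon measure). -/
def IsLatt {G : Type} [Group G] [TopologicalSpace G] (Λ : Subgroup G) : Prop :=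
  DiscreteTopology Λ ∧ ∃ μ : @Measure (G ⧸ Λ) (borel (G ⧸ Λ)),
    @IsProbabilityMeasure _ (borel (G ⧸ Λ)) μ ∧
    (SecondCountableTopology G ∨ @Measure.Regular _ (borel (G ⧸ Λ)) _ μ) ∧
    ∀ (g : G) (s : Set (G ⧸ Λ)), MeasurableSet[borel (G ⧸ Λ)] s →
      μ ((fun x : G ⧸ Λ => g • x) ⁻¹' s) = μ s

theorem isLattice_of_isLatt {G : Type} [Group G] [TopologicalSpace G] [IsTopologicalGroup G]
    [T2Space G] [LocallyCompactSpace G] (Λ : Subgroup G) (h : IsLatt Λ) : IsLattice Λ := by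
  obtain ⟨hd, μ, hp, hr, hi⟩ := h
  refine ⟨hd, μ, hp, ?_, hi⟩
  rcases hr with hr | hr
  · have hcl : IsClosed (Λ : Set G) := Subgroup.isClosed_of_discrete
    letI : MeasurableSpace (G ⧸ Λ) := borel (G ⧸ Λ)
    haveI : BorelSpace (G ⧸ Λ) := ⟨rfl⟩
    haveI : T2Space (G ⧸ Λ) := t2_quot Λ hcl
    haveI : IsProbabilityMeasure μ := hp
    haveI : SecondCountableTopology (G ⧸ Λ) := inferInstance
    haveI : LocallyCompactSpace (G ⧸ Λ) := inferInstance
    haveI : T3Space (G ⧸ Λ) := inferInstance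
    letI := TopologicalSpace.metrizableSpaceMetric (G ⧸ Λ)
    exact Measure.Regular.of_sigmaCompactSpace_of_isLocallyFiniteMeasure μ
  · exact hr

end Pool.Agent.H28.FF
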