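import Pool.Agent.H28.FF.Grp
import Pool.Agent.H28.FF.Stm

/-!
# Statements of the group theoretic parts

`GG = MM ⋊ MM` (`Grp.lean`), `MM = Mg KA = F(KA) ⋊ KA` (`Mg.lean`), `KA = ⊕ ⟨x_i, u_i | u_i x_i u_i⁻¹ = x_i⁻¹⟩`.
-/

namespace Pool.Agent.H28.FF

/-- (VI1) -/
def S_VI1 : Prop := ∀ (Γ Λ : Type) [Group Γ] [Group Λ], TF Γ → VirtuallyIsomorphic Γ Λ →
  ∃ (Λ₀ : Subgroup Λ) (f : Λ₀ →* Γ), Λ₀.FiniteIndex ∧ Finite f.ker ∧ f.range.FiniteIndex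

/-- (VIFG) -/
def S_VIFG : Prop := ∀ (Γ Λ : Type) [Group Γ] [Group Λ], VirtuallyIsomorphic Γ Λ →
  (Group.FG Γ ↔ Group.FG Λ)

/-- (NFG) -/
def S_NFG : Prop := ¬ Group.FG GG

/-- (CHAIN) -/
def S_CHAIN : Prop := ∀ (C D : Type) [Group C] [Group D] (f : C →* D) (j : KA →* D) (E : Type)
  [AddCommGroup E] [Module ℝ E] [FiniteDimensional ℝ E] (T : C →* (E →ₗ[ℝ] E)),
  Finite f.ker → f.range.FiniteIndex → Function.Injective j →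
  ∃ (r : C) (y : KA), T r = 1 ∧ y ≠ 1 ∧ f r = j y

/-- (IRR) -/
def S_IRR : Prop := ∀ Q₁ Q₂ : Subgroup GG, (∀ a ∈ Q₁, ∀ b ∈ Q₂, a * b = b * a) →
  (Q₁ ⊔ Q₂).FiniteIndex → Q₁ = ⊥ ∨ Q₂ = ⊥

/-- (C1) -/
def S_C1 : Prop := S_VI1 → S_IRR → S_NFREE → ¬ ClassOne GG

/-- (C2) -/
def S_C2 : Prop := S_VI1 → S_VIFG → S_NFG → S_CHAIN → S_LIE → S_LAT1 → S_LAT2 → ¬ ClassTwo GG

end Pool.Agent.H28.FF
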