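import Pool.Agent.H28.FF.Odo
import Pool.Agent.H28.FF.Grp
import Pool.Agent.H28.FF.OEME

/-!
# The action of `KA`
-/

namespace Pool.Agent.H28.FF

open MeasureTheory Measure Set

/-- the space -/
abbrev XX : Type := CC (ℕ × Bool × ℕ)

/-- rows -/
def row (x : XX) (i : ℕ) (c : Bool) : CC ℕ := fun n => x (i, c, n)

theorem row_ext {x y : XX} (h : ∀ i c, row x i c = row y i c) : x = y := by
  funext p
  exact congrFun (h p.1 p.2.1) p.2.2

theorem measurable_row (i : ℕ) (c : Bool) : Measurable (fun x => row x i c) :=
  measurable_pi_iff.2 fun n => measurable_pi_apply (i, c, n)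

/-- the exponent -/
def exq (g : KA) (x : XX) (i : ℕ) : ℤ := (sz (row x i true 0 + (g.w i : ZMod 2)) : ℤ) * g.v i

/-- the action -/
noncomputable def smX (g : KA) (x : XX) : XX := fun p =>
  match p.2.1 with
  | true => (od ^ (g.w p.1)) (row x p.1 true) p.2.2
  | false => (od ^ (exq g x p.1)) (row x p.1 false) p.2.2

theorem row_smX_true (g : KA) (x : XX) (i : ℕ) :
    row (smX g x) i true = (od ^ (g.w i)) (row x i true) := rfl

theorem row_smX_false (g : KA) (x : XX) (i : ℕ) :
    row (smX g x) i false = (od ^ (exq g x i)) (row x i false) := rfl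

theorem sz_cast (k : ℤ) : sz (k : ZMod 2) = k.negOnePow := by
  unfold sz
  by_cases h : (k : ZMod 2) = 0
  · rw [if_pos h, Int.negOnePow_even]
    rw [ZMod.intCast_zmod_eq_zero_iff_dvd] at h
    exact even_iff_two_dvd.2 (by exact_mod_cast h)
  · rw [if_neg h, Int.negOnePow_odd]
    by_contra h1
    rw [Int.not_odd_iff_even] at h1
    apply h
    rw [ZMod.intCast_zmod_eq_zero_iff_dvd]
    exact_mod_cast even_iff_two_dvd.1 h1

theorem sg_eq_sz (w : ℕ →₀ ℤ) (i : ℕ) : sg w i = sz ((w i : ℤ) : ZMod 2) := by
  rw [sz_cast]; rfl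

theorem sz_mul_self (a : ZMod 2) : (sz a : ℤ) * (sz a : ℤ) = 1 := by
  rw [← Units.val_mul, Int.units_mul_self]; rfl

noncomputable instance actX : MulAction KA XX where
  smul := smX
  one_smul x := by
    change smX 1 x = x
    refine row_ext fun i c => ?_
    cases c
    · rw [row_smX_false]
      have : exq 1 x i = 0 := by simp [exq]
      rw [this, zpow_zero, Equiv.Perm.one_apply]
    · rw [row_smX_true]
      simp
  mul_smul g g' x := by
    change smX (g * g') x = smX g (smX g' x)
    refine row_ext fun i c => ?_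
    cases c
    · rw [row_smX_false, row_smX_false, row_smX_false, ← Equiv.Perm.mul_apply, ← zpow_add]
      congr 2
      unfold exq
      rw [row_smX_true, od_zpow_zero, KA.mul_v, KA.mul_w, sg_eq_sz, Finsupp.add_apply]
      push_cast
      have h1 : (sz (row x i true 0 + ((g.w i : ℤ) + (g'.w i : ℤ) : ZMod 2)) : ℤ) * (sz ((g.w i : ℤ) : ZMod 2) : ℤ)
          = (sz (row x i true 0 + (g'.w i : ZMod 2)) : ℤ) := by
        have h2 : (row x i true 0 + ((g.w i : ℤ) + (g'.w i : ℤ) : ZMod 2)) =
            (row x i true 0 + (g'.w i : ZMod 2)) + (g.w i : ZMod 2) := by ring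
        rw [h2, sz_add _ (g.w i : ZMod 2), Units.val_mul, mul_assoc, sz_mul_self, mul_one]
      have h3 : (row x i true 0 + (g'.w i : ZMod 2) + (g.w i : ZMod 2)) =
          (row x i true 0 + ((g.w i : ℤ) + (g'.w i : ℤ) : ZMod 2)) := by ring
      rw [h3, mul_add, ← mul_assoc, h1]
    · rw [row_smX_true, row_smX_true, row_smX_true, ← Equiv.Perm.mul_apply, ← zpow_add]
      rfl

theorem smul_def (g : KA) (x : XX) : g • x = smX g x := rfl

theorem measurable_smX (g : KA) : Measurable (fun x : XX => g • x) := by
  refine measurable_pi_iff.2 fun p => ?_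
  obtain ⟨i, c, n⟩ := p
  cases c
  · have h1 : (fun x : XX => (g • x) (i, false, n)) =
        (fun s : CC ℕ => s n) ∘ (fun p : ℤ × CC ℕ => (od ^ p.1) p.2) ∘
          (fun x : XX => (exq g x i, row x i false)) := rfl
    rw [h1]
    refine (measurable_pi_apply n).comp (measurable_od_joint.comp ?_)
    refine Measurable.prodMk ?_ (measurable_row i false)
    have h2 : (fun x : XX => exq g x i) =
        (fun a : ZMod 2 => (sz (a + (g.w i : ZMod 2)) : ℤ) * g.v i) ∘ (fun x : XX => x (i, true, 0)) :=
      rfl
    rw [h2]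
    exact (Measurable.of_discrete).comp (measurable_pi_apply _)
  · have h1 : (fun x : XX => (g • x) (i, true, n)) =
        (fun s : CC ℕ => s n) ∘ (fun s : CC ℕ => (od ^ (g.w i)) s) ∘ (fun x : XX => row x i true) :=
      rfl
    rw [h1]
    exact (measurable_pi_apply n).comp ((measurable_od_zpow _).comp (measurable_row i true))

theorem actX_free (g : KA) (hg : g ≠ 1) (x : XX) : g • x ≠ x := by
  intro h
  apply hg
  ext i
  · have h1 := congrArg (fun y => row y i false) h
    simp only [smul_def, row_smX_false] at h1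
    have h2 := od_aper' _ _ h1
    unfold exq at h2
    rcases mul_eq_zero.1 h2 with h3 | h3
    · have := sz_mul_self (row x i true 0 + (g.w i : ZMod 2))
      rw [h3] at this; simp at this
    · simpa using h3
  · have h1 := congrArg (fun y => row y i true) h
    simp only [smul_def, row_smX_true] at h1
    have h2 := od_aper' _ _ h1
    simpa using h2

/-- the conull set -/
def XS : Set XX := {x | ∀ i c, NEC (row x i c)}

theorem FD_row {x y : XX} (h : FD x y) (i : ℕ) (c : Bool) : FD (row x i c) (row y i c) := by
  unfold FD at *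
  refine Set.Finite.of_finite_image (f := fun n => (i, c, n)) (h.subset ?_) ?_
  · rintro _ ⟨n, hn, rfl⟩
    exact hn
  · intro a _ b _ hab
    simpa using hab

theorem XS_of_FD {x y : XX} (h : FD x y) (hx : x ∈ XS) : y ∈ XS := fun i c =>
  (hx i c).of_FD (FD_row h i c)

theorem FD_smul {x : XX} (hx : x ∈ XS) (g : KA) : FD x (g • x) := by
  have h0 : ∀ i c, FD (row x i c) (row (g • x) i c) := by
    intro i c
    cases c
    · rw [smul_def, row_smX_false]; exact FD_od_zpow (hx i false) _
    · rw [smul_def, row_smX_true]; exact FD_od_zpow (hx i true) _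
  unfold FD
  have h1 : ∀ (p : ℕ × Bool), {q : ℕ × Bool × ℕ | q.1 = p.1 ∧ q.2.1 = p.2 ∧ x q ≠ (g • x) q}.Finite := by
    intro p
    refine ((h0 p.1 p.2).image (fun n => (p.1, p.2, n))).subset ?_
    rintro ⟨i, c, n⟩ ⟨h1, h2, h3⟩
    simp only at h1 h2
    subst h1; subst h2
    exact ⟨n, h3, rfl⟩
  have h2 : ((g.v.support ∪ g.w.support : Finset ℕ) : Set ℕ) ×ˢ (univ : Set Bool) |>.Finite :=
    (Finset.finite_toSet _).prod finite_univ
  refine (h2.biUnion (fun p _ => h1 p)).subset ?_
  rintro ⟨i, c, n⟩ hp
  rw [mem_iUnion₂]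
  refine ⟨(i, c), ⟨?_, mem_univ _⟩, rfl, rfl, hp⟩
  simp only [Finset.coe_union, mem_union, Finset.mem_coe, Finsupp.mem_support_iff]
  by_contra hc
  push Not at hc
  apply hp
  have h3 : row (g • x) i c = row x i c := by
    cases c
    · rw [smul_def, row_smX_false]
      have : exq g x i = 0 := by simp [exq, hc.1]
      rw [this, zpow_zero, Equiv.Perm.one_apply]
    · rw [smul_def, row_smX_true, hc.2, zpow_zero, Equiv.Perm.one_apply]
  exact (congrFun h3 n).symm

theorem exists_smul_of_FD {x y : XX} (h : FD x y) : ∃ g : KA, g • x = y := by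
  classical
  have hf : ∀ c, {i : ℕ | row x i c ≠ row y i c}.Finite := by
    intro c
    refine (h.image (fun p => p.1)).subset ?_
    intro i hi
    obtain ⟨n, hn⟩ := Function.ne_iff.1 hi
    exact ⟨(i, c, n), hn, rfl⟩
  have hk : ∀ i c, ∃ k : ℤ, (od ^ k) (row x i c) = row y i c := fun i c =>
    od_trans (FD_row h i c)
  choose k hk using hk
  let w : ℕ →₀ ℤ := Finsupp.ofSupportFinite
    (fun i => if row x i true = row y i true then 0 else k i true)
    ((hf true).subset (by
      intro i hi h'
      simp only [Function.mem_support] at hi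
      exact hi (if_pos h')))
  have hw : ∀ i, (od ^ (w i)) (row x i true) = row y i true := by
    intro i
    change (od ^ (if row x i true = row y i true then (0 : ℤ) else k i true)) (row x i true) = _
    split_ifs with h1
    · rw [zpow_zero, Equiv.Perm.one_apply, h1]
    · exact hk i true
  let v : ℕ →₀ ℤ := Finsupp.ofSupportFinite
    (fun i => (sz (row x i true 0 + (w i : ZMod 2)) : ℤ) *
      (if row x i false = row y i false then 0 else k i false))
    ((hf false).subset (by
      intro i hi h'
      simp only [Function.mem_support] at hi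
      apply hi
      rw [if_pos h', mul_zero]))
  refine ⟨⟨v, w⟩, row_ext fun i c => ?_⟩
  cases c
  · rw [smul_def, row_smX_false]
    have : exq ⟨v, w⟩ x i = if row x i false = row y i false then 0 else k i false := by
      change (sz (row x i true 0 + (w i : ZMod 2)) : ℤ) *
        ((sz (row x i true 0 + (w i : ZMod 2)) : ℤ) *
      (if row x i false = row y i false then 0 else k i false)) = _
      rw [← mul_assoc, sz_mul_self, one_mul]
    rw [this]
    split_ifs with h1
    · rw [zpow_zero, Equiv.Perm.one_apply, h1]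
    · exact hk i false
  · rw [smul_def, row_smX_true]
    exact hw i

theorem smul_mem_XS {x : XX} (hx : x ∈ XS) (g : KA) : g • x ∈ XS := XS_of_FD (FD_smul hx g) hx

theorem smul_mem_XS_iff (g : KA) (x : XX) : x ∈ XS ↔ g • x ∈ XS := by
  constructor
  · intro hx; exact smul_mem_XS hx g
  · intro hx
    have := smul_mem_XS hx g⁻¹
    rwa [inv_smul_smul] at this

theorem measurableSet_XS : MeasurableSet XS := by
  unfold XS NEC
  simp only [setOf_forall, setOf_and, setOf_exists]
  refine MeasurableSet.iInter fun i => MeasurableSet.iInter fun c => MeasurableSet.iInter fun N => ?_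
  refine MeasurableSet.inter ?_ ?_
  · refine MeasurableSet.iUnion fun n => MeasurableSet.inter (MeasurableSet.const _) ?_
    exact measurableSet_eq_fun (measurable_pi_apply (i, c, n)) measurable_const
  · refine MeasurableSet.iUnion fun n => MeasurableSet.inter (MeasurableSet.const _) ?_
    exact measurableSet_eq_fun (measurable_pi_apply (i, c, n)) measurable_const

/-- the sequences that vanish from `N` on -/
def vanS (i : ℕ) (c : Bool) (N : ℕ) : AddSubgroup XX where
  carrier := {x | ∀ n, N ≤ n → x (i, c, n) = 0}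
  zero_mem' := fun _ _ => rfl
  add_mem' := fun {a b} ha hb n hn => by
    rw [Pi.add_apply, ha n hn, hb n hn, add_zero]
  neg_mem' := fun {a} ha n hn => by
    rw [Pi.neg_apply, ha n hn, neg_zero]

theorem null_vanS (i : ℕ) (c : Bool) (N : ℕ) : hm _ (vanS i c N : Set XX) = 0 := by
  refine null_of_seq _ ?_ (fun k => Pi.single (i, c, N + k) 1) ?_
  · change MeasurableSet {x : XX | ∀ n, N ≤ n → x (i, c, n) = 0}
    simp only [setOf_forall]
    refine MeasurableSet.iInter fun n => MeasurableSet.iInter fun _ => ?_
    exact measurableSet_eq_fun (measurable_pi_apply (i, c, n)) measurable_const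
  · intro m n hmn h
    have h1 : (Pi.single (i, c, N + m) (1 : ZMod 2) - Pi.single (i, c, N + n) 1 : XX) (i, c, N + m) = 0 :=
      h (N + m) (by omega)
    rw [Pi.sub_apply, Pi.single_eq_same, Pi.single_eq_of_ne, sub_zero] at h1
    · exact absurd h1 (by decide)
    · intro h2
      apply hmn
      simpa using h2

theorem null_XS : hm _ XSᶜ = 0 := by
  have h1 : XSᶜ ⊆ ⋃ i, ⋃ c, ⋃ N, ((vanS i c N : Set XX) ∪ {x : XX | x + (fun _ => 1) ∈ (vanS i c N : Set XX)}) := by
    intro x hx
    by_contra h2
    apply hx
    intro i c N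
    simp only [mem_iUnion, not_exists, mem_union, not_or] at h2
    obtain ⟨h3, h4⟩ := h2 i c N
    constructor
    · by_contra h5
      push Not at h5
      apply h4
      intro n hn
      change x (i, c, n) + 1 = 0
      rcases z2_cases (x (i, c, n)) with h6 | h6
      · exact absurd h6 (h5 n hn)
      · rw [h6]; decide
    · by_contra h5
      push Not at h5
      apply h3
      intro n hn
      rcases z2_cases (x (i, c, n)) with h6 | h6
      · exact h6
      · exact absurd h6 (h5 n hn)
  refine measure_mono_null h1 ?_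
  refine measure_iUnion_null fun i => measure_iUnion_null fun c => measure_iUnion_null fun N => ?_
  exact measure_union_null (null_vanS i c N) (null_translate _ _ (null_vanS i c N))

theorem mp_smX (g : KA) : MeasurePreserving (fun x : XX => g • x) (hm _) (hm _) := by
  let f : XX ≃ᵐ XX :=
    { toEquiv := MulAction.toPerm g
      measurable_toFun := measurable_smX g
      measurable_invFun := measurable_smX g⁻¹ }
  refine mp_full f ?_
  have h1 : ∀ᵐ x ∂(hm (ℕ × Bool × ℕ)), x ∈ XS := by
    rw [ae_iff]; exact null_XS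
  filter_upwards [h1] with x hx
  have h2 := FD_smul hx g
  classical
  refine ⟨Finsupp.ofSupportFinite (fun p => (g • x) p - x p) (h2.subset ?_), ?_⟩
  · intro p hp h'
    simp only [Function.mem_support] at hp
    apply hp
    rw [← h', sub_self]
  · funext p
    change (g • x) p = x p + ((g • x) p - x p)
    ring

/-! ### the global odometer -/

/-- the enumeration -/
noncomputable def enu : ℕ × Bool × ℕ ≃ ℕ := (nonempty_equiv_of_countable).some

/-- the transported odometer -/
noncomputable def tod (k : ℤ) (x : XX) : XX := ((od ^ k) (x ∘ enu.symm)) ∘ enu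

theorem tod_zero (x : XX) : tod 0 x = x := by
  funext p; simp [tod]

theorem tod_add (k l : ℤ) (x : XX) : tod (k + l) x = tod k (tod l x) := by
  unfold tod
  have : (((od ^ l) (x ∘ enu.symm)) ∘ enu) ∘ enu.symm = (od ^ l) (x ∘ enu.symm) := by
    funext n; simp
  rw [this, zpow_add, Equiv.Perm.mul_apply]

theorem tod_aper (k : ℤ) (x : XX) (h : tod k x = x) : k = 0 := by
  refine od_aper' k (x ∘ enu.symm) ?_
  calc (od ^ k) (x ∘ enu.symm) = (tod k x) ∘ enu.symm := by funext n; simp [tod]
    _ = x ∘ enu.symm := by rw [h]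

theorem measurable_tod (k : ℤ) : Measurable (tod k) := by
  have h1 : Measurable (fun x : XX => x ∘ enu.symm) :=
    measurable_pi_iff.2 fun n => measurable_pi_apply _
  have h2 : Measurable (fun s : CC ℕ => (s ∘ enu : XX)) :=
    measurable_pi_iff.2 fun n => measurable_pi_apply _
  exact h2.comp ((measurable_od_zpow k).comp h1)

theorem NEC_enu {x : XX} (hx : x ∈ XS) : NEC (x ∘ enu.symm) := by
  intro N
  have h0 : ∀ z : ZMod 2, (∀ M, ∃ n, M ≤ n ∧ x (0, true, n) = z) → ∃ n, N ≤ n ∧ (x ∘ enu.symm) n = z := by
    intro z hz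
    by_contra h
    push Not at h
    have hfin : {n : ℕ | x (0, true, n) = z}.Finite := by
      refine Set.Finite.of_finite_image (f := fun n => enu (0, true, n)) ((Set.finite_lt_nat N).subset ?_) ?_
      · rintro _ ⟨n, hn, rfl⟩
        by_contra h1
        have := h (enu (0, true, n)) (not_lt.1 h1)
        simp only [Function.comp_apply, Equiv.symm_apply_apply] at this
        exact this hn
      · intro a _ b _ hab
        have := enu.injective hab
        simpa using this
    obtain ⟨M, hM⟩ := hfin.bddAbove
    obtain ⟨n, hn, h1⟩ := hz (M + 1)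
    have := hM h1
    omega
  exact ⟨h0 0 fun M => ((hx 0 true M).1), h0 1 fun M => ((hx 0 true M).2)⟩

theorem FD_tod {x : XX} (hx : x ∈ XS) (k : ℤ) : FD x (tod k x) := by
  have h1 := FD_od_zpow (NEC_enu hx) k
  unfold FD at *
  refine (h1.preimage (f := enu) (enu.injective.injOn)).subset ?_
  intro p hp
  simp only [mem_preimage, mem_setOf_eq, Function.comp_apply, Equiv.symm_apply_apply]
  exact hp

theorem exists_tod_of_FD {x y : XX} (h : FD x y) : ∃ k : ℤ, tod k x = y := by
  have h1 : FD (x ∘ enu.symm) (y ∘ enu.symm) := by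
    unfold FD at *
    exact h.preimage (f := enu.symm) (enu.symm.injective.injOn)
  obtain ⟨k, hk⟩ := od_trans h1
  refine ⟨k, ?_⟩
  unfold tod
  rw [hk]
  funext p; simp

end Pool.Agent.H28.FF
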